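import Pool.Graph.R_pool_sql_team_seeded_1acbe0a2.Results.MP_21f43f_nt.LargeDeviations
import Pool.Graph.R_pool_sql_team_seeded_f72693b1.Results.MP_21f43f_nt.Rigidity
import Pool.Graph.R_pool_sql_team_seeded_1acbe0a2.Y748.SR.Top
import Pool.Graph.R_pool_sql_team_seeded_1acbe0a2.Y447.SR.Dya
import Pool.Graph.R_pool_sql_team_seeded_1acbe0a2.Y587.SR.Sqz
import Pool.Graph.R_pool_sql_team_seeded_1acbe0a2.Y748.SR.Zt
import Pool.Graph.R_pool_sql_team_seeded_1acbe0a2.Y971.SR.Low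

/-! Linear statistics of the gap sequence: the hypotheses on the sequence of points. -/

open Finset Filter Topology MeasureTheory
open Pool.Agent.Y748 Pool.Agent.Y748.SR

set_option autoImplicit false

namespace Pool.Agent.Helper37.GL

/-- the deviation of the distance of the `n`-th and the `(n+k)`-th point from `k` -/
noncomputable def xx (y : ℕ → ℝ) (n k : ℕ) : ℝ := y (n + k) - y n - k

/-- the pair sum of `f` over the first `M` points -/
noncomputable def PP (y : ℕ → ℝ) (f : ℝ → ℝ) (M : ℕ) : ℝ :=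
  ∑ n ∈ Icc 1 M, ∑ m ∈ Icc 1 M, f (y n - y m)

/-- the exceptional indices -/
def Exc (y : ℕ → ℝ) (m N : ℕ) : Set ℕ :=
  {n : ℕ | 1 ≤ n ∧ n ≤ N ∧ ∃ j : ℕ, 1 ≤ j ∧ (m : ℝ) ≤ |(j : ℝ) - n| ∧
    1 / 2 * |(j : ℝ) - n| ≤ |y j - y n - ((j : ℝ) - n)|}

/-- the properties of the normalised ordinates which are used -/
structure Hyp (y : ℕ → ℝ) : Prop where
  mono : ∀ n, 1 ≤ n → y n ≤ y (n + 1)
  lim : Tendsto (fun n : ℕ => y n / n) atTop (𝓝 1)
  ld : ∃ c : ℝ, 0 < c ∧ ∃ m₀ : ℕ, 1 ≤ m₀ ∧ ∀ N : ℕ, 1 ≤ N → ∀ m : ℕ, m₀ ≤ m →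
    ((Exc y m N).ncard : ℝ) ≤ N * Real.exp (-c * m * Real.log m)
  rig : ∃ c C : ℝ, 0 < c ∧ 0 < C ∧ ∀ N m : ℕ, 1 ≤ m → ∀ lam : ℝ, C * Real.log (m + 1) ≤ lam →
      ({n : ℕ | 1 ≤ n ∧ n ≤ N ∧ (m : ℝ) ≤ Real.log n ∧ lam ≤ |xx y n m|}.ncard : ℝ) ≤
        N * Real.exp (-(c * lam * Real.log (lam / Real.log (m + 1))))
  pair : ∀ (R : ℝ → ℝ) (κ : ℝ), 0 < κ → κ < 1 → TFn R κ → ∃ C : ℝ, 0 ≤ C ∧ ∀ K : ℕ, 1 ≤ K →
    ∀ ε : ℝ, 0 < ε → ∀ᶠ M : ℕ in atTop,
      |PP y (fun v => rr R v * cut K v) M - mt R * M| ≤ (ε + C / K) * M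

/-- from the points up to a height to the first `M` points -/
theorem pair_index {γ : ℕ → ℝ} {NZ : ℝ → ℕ} (hB : Blk γ NZ) (R : ℝ → ℝ) (κ : ℝ) (hκ : 0 < κ)
    (hκ1 : κ < 1) (hR : TFn R κ) : ∃ C : ℝ, 0 ≤ C ∧ ∀ K : ℕ, 1 ≤ K →
    ∀ ε : ℝ, 0 < ε → ∀ᶠ M : ℕ in atTop,
      |PP (fun n => nrm (γ n)) (fun v => rr R v * cut K v) M - mt R * M| ≤ (ε + C / K) * M := by
  obtain ⟨C, hC0, hC⟩ := a_BLK2 γ NZ hB R κ hκ hκ1 hR
  refine ⟨C, hC0, fun K hK ε hε => ?_⟩
  set y : ℕ → ℝ := fun n => nrm (γ n) with hy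
  set f : ℝ → ℝ := fun v => rr R v * cut K v with hf
  have hsq : Sq y := hB.sq
  obtain ⟨K0, hK0⟩ := hR.decay
  have hK00 : 0 ≤ K0 := by
    have := (abs_nonneg _).trans (hK0 0)
    simpa using this
  have hfc : Continuous f := (Pool.Agent.Y587.SR.rr_cont hR.cont).mul (Pool.Agent.Y587.SR.cut_cont K)
  have hfs : ∀ v : ℝ, (K : ℝ) + 1 ≤ |v| → f v = 0 := by
    intro v hv
    simp only [hf, Pool.Agent.Y587.SR.cut_zero hv, mul_zero]
  have hfb : ∀ v : ℝ, |f v| ≤ K0 := by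
    intro v
    simp only [hf]
    rw [abs_mul, abs_of_nonneg (Pool.Agent.Y587.SR.cut_nonneg K v)]
    have h1 := hK0 v
    have h2 : K0 / (1 + v ^ 2) ≤ K0 := div_le_self hK00 (by nlinarith [sq_nonneg v])
    calc |rr R v| * cut K v ≤ |rr R v| * 1 :=
          mul_le_mul_of_nonneg_left (Pool.Agent.Y587.SR.cut_le_one K v) (abs_nonneg _)
      _ ≤ K0 := by linarith
  have hKC : (0:ℝ) ≤ C / K := by positivity
  set ε1 := ε / 8 with hε1
  have hε10 : 0 < ε1 := by positivity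
  -- the mean over the points up to N
  have hmain := Pool.Agent.Y447.SR.t_DYA γ NZ hB f (mt R) (ε1 + C / K) (K + 1) K0 (by positivity)
    hfc hfs hfb (hC K hK ε1 hε10) ε1 hε10
  -- the limit of `y M`
  have hyt : Tendsto y atTop atTop := by
    have h1 : Tendsto (fun n : ℕ => (y n / n) * (n : ℝ)) atTop atTop :=
      hsq.lim.pos_mul_atTop one_pos tendsto_natCast_atTop_atTop
    refine h1.congr' ?_
    filter_upwards [eventually_ge_atTop 1] with n hn
    have : (n : ℝ) ≠ 0 := by positivity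
    field_simp
  have hceil : Tendsto (fun M : ℕ => ⌈y M⌉₊) atTop atTop :=
    tendsto_nat_ceil_atTop.comp hyt
  have hmain2 := hceil.eventually hmain
  obtain ⟨CL, hCL0, hCL⟩ := Pool.Agent.Y447.SR.loc_card hsq
  -- y M ≤ 2 M
  have hy2 : ∀ᶠ M : ℕ in atTop, |y M / M - 1| ≤ ε1 / (1 + |mt R| + |f 0| + ε1 + C / K) := by
    have h1 : Tendsto (fun n : ℕ => |y n / n - 1|) atTop (𝓝 0) := by
      have := (hsq.lim.sub_const 1).abs
      simpa using this
    exact h1.eventually_le_const (by positivity)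
  have hlog : ∀ᶠ M : ℕ in atTop,
      K0 * 2 * ((2 * (CL * Real.log (3 * M + 3 * K + 9))) * ((2 * K + 5) *
        (CL * Real.log (3 * M + 3 * K + 9)))) +
      (|f 0| + |mt R| + ε1 + C / K) * (2 * (CL * Real.log (3 * M + 3 * K + 9)) + 1) ≤ ε1 * M := by
    have h0 : Tendsto (fun x : ℝ => Real.log x ^ 2 / x) atTop (𝓝 0) := by
      have := Real.isLittleO_pow_log_id_atTop (n := 2)
      exact this.tendsto_div_nhds_zero
    have h1 : Tendsto (fun x : ℝ => Real.log x / x) atTop (𝓝 0) := by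
      have := Real.isLittleO_log_id_atTop
      exact this.tendsto_div_nhds_zero
    have hlin : Tendsto (fun M : ℕ => (3 * (M : ℝ) + 3 * K + 9)) atTop atTop := by
      apply tendsto_atTop_mono _ tendsto_natCast_atTop_atTop
      intro M
      have : (0 : ℝ) ≤ M := Nat.cast_nonneg M
      have : (0 : ℝ) ≤ K := Nat.cast_nonneg K
      linarith
    set a1 : ℝ := K0 * 2 * (2 * CL * ((2 * K + 5) * CL)) with ha1
    set a2 : ℝ := (|f 0| + |mt R| + ε1 + C / K) * (2 * CL) with ha2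
    obtain ⟨a3, ha3⟩ : ∃ a3 : ℝ, a3 = (|f 0| + |mt R| + ε1 + C / K) := ⟨_, rfl⟩
    have g0 := (h0.comp hlin).const_mul a1
    have g1 := (h1.comp hlin).const_mul a2
    have g2 : Tendsto (fun M : ℕ => a3 * (1 / (3 * (M : ℝ) + 3 * K + 9))) atTop (𝓝 0) := by
      have := (tendsto_const_nhds (x := (1 : ℝ))).div_atTop hlin
      simpa using this.const_mul a3
    have g := (g0.add g1).add g2
    simp only [mul_zero, add_zero] at g
    have h5 : (0 : ℝ) < ε1 / (3 * (3 + 3 * K + 9)) := by positivity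
    filter_upwards [g.eventually_le_const h5, eventually_ge_atTop 1] with M hM hM1
    have hM1' : (1 : ℝ) ≤ M := by exact_mod_cast hM1
    have hKnn : (0 : ℝ) ≤ K := Nat.cast_nonneg K
    set X : ℝ := 3 * (M : ℝ) + 3 * K + 9 with hX
    have hXpos : 0 < X := by rw [hX]; positivity
    simp only [Function.comp] at hM
    rw [← hX] at hM
    have e : a1 * (Real.log X ^ 2 / X) + a2 * (Real.log X / X) + a3 * (1 / X) =
      (K0 * 2 * ((2 * (CL * Real.log X)) * ((2 * K + 5) * (CL * Real.log X))) +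
        (|f 0| + |mt R| + ε1 + C / K) * (2 * (CL * Real.log X) + 1)) / X := by
      rw [ha1, ha2, ← ha3]
      have hX' := hXpos.ne'
      field_simp
      ring
    rw [e, div_le_iff₀ hXpos] at hM
    refine hM.trans ?_
    rw [div_mul_eq_mul_div, div_le_iff₀ (by positivity)]
    have h6 : X ≤ (3 + 3 * K + 9) * M := by rw [hX]; nlinarith
    nlinarith [mul_le_mul_of_nonneg_left h6 hε10.le, mul_nonneg hε10.le (by positivity : (0:ℝ) ≤ (3 + 3 * K + 9) * M)]
  filter_upwards [hmain2, hy2, hlog, hyt.eventually_ge_atTop (K + 2), eventually_ge_atTop 1,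
    hsq.lim.eventually_le_const (show (1:ℝ) < 2 by norm_num)] with M h1 h2 h3 h4 hM1 h5
  have hM0 : (0 : ℝ) < M := by exact_mod_cast hM1
  have hyM : y M ≤ 2 * M := by rwa [div_le_iff₀ hM0] at h5
  have hKnn : (0 : ℝ) ≤ K := Nat.cast_nonneg K
  have hyM0 : 0 < y M := by linarith
  set N : ℕ := ⌈y M⌉₊ with hN
  have hN1 : y M ≤ N := Nat.le_ceil _
  have hN2 : (N : ℝ) < y M + 1 := Nat.ceil_lt_add_one hyM0.le
  have hmono : ∀ n m : ℕ, 1 ≤ n → n ≤ m → y n ≤ y m := by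
    intro n m hn hnm
    induction m, hnm using Nat.le_induction with
    | base => exact le_rfl
    | succ m hm ih => exact ih.trans (hsq.mono m (hn.trans hm))
  -- the finite set of indices
  set S : Finset ℕ := ((Pool.Agent.Y447.SR.sq_finite hsq (N : ℝ)).toFinset.filter fun n => 1 ≤ n)
    with hS
  have hmemS : ∀ n, n ∈ S ↔ 1 ≤ n ∧ y n ≤ N := by
    intro n
    rw [hS, mem_filter, Set.Finite.mem_toFinset]
    simp only [Set.mem_setOf_eq]
    tauto
  have hsub : Icc 1 M ⊆ S := by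
    intro n hn
    rw [mem_Icc] at hn
    rw [hmemS]
    exact ⟨hn.1, (hmono n M hn.1 hn.2).trans hN1⟩
  set E : Finset ℕ := S \ Icc 1 M with hE
  have hmemE : ∀ n ∈ E, 1 ≤ n ∧ y M ≤ y n ∧ y n ≤ y M + 1 := by
    intro n hn
    rw [hE, Finset.mem_sdiff, hmemS, mem_Icc] at hn
    have hnM : M ≤ n := by
      by_contra hcon
      exact hn.2 ⟨hn.1.1, by omega⟩
    exact ⟨hn.1.1, hmono M n hM1 hnM, by linarith [hn.1.2]⟩
  have hloglem : ∀ z : ℝ, 0 < z → z ≤ 3 * M + 3 * K + 9 →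
      CL * Real.log z ≤ CL * Real.log (3 * M + 3 * K + 9) := fun z hz hz2 =>
    mul_le_mul_of_nonneg_left (Real.log_le_log hz hz2) hCL0
  have hcardE : (E.card : ℝ) ≤ 2 * (CL * Real.log (3 * M + 3 * K + 9)) := by
    have := hCL 1 (y M) hyM0.le E (fun n hn => by
      have := hmemE n hn
      push_cast
      exact this)
    push_cast at this
    refine this.trans ?_
    have := hloglem (y M + 1 + 2) (by linarith) (by linarith)
    linarith
  have hlognn : 0 ≤ CL * Real.log (3 * M + 3 * K + 9) := by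
    apply mul_nonneg hCL0
    apply Real.log_nonneg
    linarith
  have hrow : ∀ n ∈ E, ∑ m ∈ S, |f (y n - y m)| ≤
      K0 * ((2 * K + 5) * (CL * Real.log (3 * M + 3 * K + 9))) := by
    intro n hn
    have hE1 := hmemE n hn
    set W := S.filter fun m => |y n - y m| ≤ K + 1 with hW
    have hz : ∑ m ∈ S, |f (y n - y m)| = ∑ m ∈ W, |f (y n - y m)| := by
      refine (sum_subset (filter_subset _ _) fun m hm hm2 => ?_).symm
      have hc : ¬ |y n - y m| ≤ K + 1 := fun hc => hm2 (mem_filter.2 ⟨hm, hc⟩)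
      rw [hfs _ (not_le.1 hc).le, abs_zero]
    rw [hz]
    have hWc : (W.card : ℝ) ≤ (2 * K + 5) * (CL * Real.log (3 * M + 3 * K + 9)) := by
      have := hCL (2 * K + 4) (y M - K - 1) (by linarith) W (fun m hm => by
        rw [hW, mem_filter, hmemS, abs_le] at hm
        push_cast
        refine ⟨hm.1.1, by linarith [hm.2.1, hm.2.2], by linarith [hm.2.1, hm.2.2]⟩)
      push_cast at this
      refine this.trans ?_
      have h6 := hloglem (y M - K - 1 + (2 * K + 4) + 2) (by linarith) (by linarith)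
      have h7 : (2 * (K : ℝ) + 4 + 1) = 2 * K + 5 := by ring
      rw [h7]
      exact mul_le_mul_of_nonneg_left h6 (by positivity)
    calc ∑ m ∈ W, |f (y n - y m)| ≤ ∑ m ∈ W, K0 := sum_le_sum fun m _ => hfb _
      _ = W.card * K0 := by rw [sum_const, nsmul_eq_mul]
      _ ≤ _ := by rw [mul_comm]; exact mul_le_mul_of_nonneg_left hWc hK00
  have hsplit : ∀ g : ℕ → ℝ, ∑ n ∈ S, g n = ∑ n ∈ Icc 1 M, g n + ∑ n ∈ E, g n := by
    intro g
    rw [hE, add_comm, sum_sdiff hsub]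
  have hevenf : ∀ v, f (-v) = f v := by
    intro v
    have h8 : rr R (-v) = rr R v := by
      unfold rr
      refine intervalIntegral.integral_congr fun α _ => ?_
      have : 2 * Real.pi * -v * α = -(2 * Real.pi * v * α) := by ring
      show R α * Real.cos (2 * Real.pi * -v * α) = R α * Real.cos (2 * Real.pi * v * α)
      rw [this, Real.cos_neg]
    simp only [hf, h8]
    unfold cut
    rw [abs_neg]
  -- compare the double sums
  have hcmp : |∑ n ∈ S, ∑ m ∈ S, f (y n - y m) - PP y f M| ≤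
      K0 * 2 * ((2 * (CL * Real.log (3 * M + 3 * K + 9))) * ((2 * K + 5) *
        (CL * Real.log (3 * M + 3 * K + 9)))) := by
    have e1 : ∑ n ∈ S, ∑ m ∈ S, f (y n - y m) - PP y f M =
        ∑ n ∈ E, ∑ m ∈ Icc 1 M, f (y n - y m) + ∑ n ∈ E, ∑ m ∈ S, f (y n - y m) := by
      rw [hsplit]
      unfold PP
      have e2 : ∑ n ∈ Icc 1 M, ∑ m ∈ S, f (y n - y m) =
          ∑ n ∈ Icc 1 M, ∑ m ∈ Icc 1 M, f (y n - y m) +
            ∑ n ∈ E, ∑ m ∈ Icc 1 M, f (y n - y m) := by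
        have e3 : ∑ n ∈ Icc 1 M, ∑ m ∈ E, f (y n - y m) =
            ∑ n ∈ E, ∑ m ∈ Icc 1 M, f (y n - y m) := by
          rw [sum_comm]
          refine sum_congr rfl fun n _ => sum_congr rfl fun m _ => ?_
          rw [← hevenf]; congr 1; ring
        rw [← e3, ← sum_add_distrib]
        exact sum_congr rfl fun n _ => hsplit _
      rw [e2]; ring
    rw [e1]
    have b1 : ∀ n ∈ E, |∑ m ∈ Icc 1 M, f (y n - y m)| ≤
        K0 * ((2 * K + 5) * (CL * Real.log (3 * M + 3 * K + 9))) := by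
      intro n hn
      refine (abs_sum_le_sum_abs _ _).trans (le_trans ?_ (hrow n hn))
      exact sum_le_sum_of_subset_of_nonneg hsub fun _ _ _ => abs_nonneg _
    have b2 : ∀ n ∈ E, |∑ m ∈ S, f (y n - y m)| ≤
        K0 * ((2 * K + 5) * (CL * Real.log (3 * M + 3 * K + 9))) := by
      intro n hn
      exact (abs_sum_le_sum_abs _ _).trans (hrow n hn)
    have c1 : ∀ g : ℕ → ℝ, (∀ n ∈ E, |g n| ≤
        K0 * ((2 * K + 5) * (CL * Real.log (3 * M + 3 * K + 9)))) → |∑ n ∈ E, g n| ≤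
        2 * (CL * Real.log (3 * M + 3 * K + 9)) *
          (K0 * ((2 * K + 5) * (CL * Real.log (3 * M + 3 * K + 9)))) := by
      intro g hg
      refine (abs_sum_le_sum_abs _ _).trans ((sum_le_sum hg).trans ?_)
      rw [sum_const, nsmul_eq_mul]
      exact mul_le_mul_of_nonneg_right hcardE (by positivity)
    refine (abs_add_le _ _).trans ((add_le_add (c1 _ b1) (c1 _ b2)).trans (le_of_eq ?_))
    ring
  -- the finsum
  have hset : {p : ℕ × ℕ | 1 ≤ p.1 ∧ 1 ≤ p.2 ∧ p.1 ≠ p.2 ∧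
      nrm (γ p.1) ≤ N ∧ nrm (γ p.2) ≤ N} =
      (((S ×ˢ S).filter fun p : ℕ × ℕ => p.1 ≠ p.2 : Finset (ℕ × ℕ)) : Set (ℕ × ℕ)) := by
    ext ⟨n, m⟩
    simp only [Set.mem_setOf_eq, coe_filter, mem_product, hmemS]
    simp only [hy]
    tauto
  have hsum : ∑ᶠ p ∈ {p : ℕ × ℕ | 1 ≤ p.1 ∧ 1 ≤ p.2 ∧ p.1 ≠ p.2 ∧
      nrm (γ p.1) ≤ N ∧ nrm (γ p.2) ≤ N}, f (nrm (γ p.1) - nrm (γ p.2)) =
      ∑ n ∈ S, ∑ m ∈ S, f (y n - y m) - S.card * f 0 := by
    rw [hset, finsum_mem_coe_finset, sum_filter, sum_product]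
    have e1 : (S.card : ℝ) * f 0 = ∑ n ∈ S, f 0 := by
      rw [sum_const, nsmul_eq_mul]
    rw [e1, ← sum_sub_distrib]
    refine sum_congr rfl fun n hn => ?_
    have e2 : f 0 = ∑ m ∈ S, if n = m then f 0 else 0 := by
      rw [sum_ite_eq, if_pos hn]
    rw [e2, ← sum_sub_distrib]
    refine sum_congr rfl fun m _ => ?_
    by_cases h : n = m
    · subst h
      simp
    · simp [h, hy]
  have hsum2 : ∑ᶠ (p : ℕ × ℕ) (_ : 1 ≤ p.1 ∧ 1 ≤ p.2 ∧ p.1 ≠ p.2 ∧
      nrm (γ p.1) ≤ N ∧ nrm (γ p.2) ≤ N), f (nrm (γ p.1) - nrm (γ p.2)) =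
      ∑ n ∈ S, ∑ m ∈ S, f (y n - y m) - S.card * f 0 := hsum
  have h1' : |1 / (N : ℝ) * (∑ n ∈ S, ∑ m ∈ S, f (y n - y m) - S.card * f 0) - (mt R - f 0)| ≤
      ε1 + C / K + ε1 := by
    rw [← hsum]
    exact h1
  clear h1
  rename' h1' => h1
  have hScard : (S.card : ℝ) = M + E.card := by
    have := hsplit (fun _ => (1 : ℝ))
    simp only [sum_const, nsmul_eq_mul, mul_one, Nat.card_Icc] at this
    rw [this]
    simp
  set Q : ℝ := ∑ n ∈ S, ∑ m ∈ S, f (y n - y m) with hQ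
  have hNpos : (0 : ℝ) < N := by linarith
  have h6 : |Q - S.card * f 0 - (mt R - f 0) * N| ≤ (ε1 + C / K + ε1) * N := by
    have e : Q - S.card * f 0 - (mt R - f 0) * N =
        N * (1 / N * (Q - S.card * f 0) - (mt R - f 0)) := by
      field_simp
    rw [e, abs_mul, abs_of_pos hNpos]
    rw [mul_comm]
    exact mul_le_mul_of_nonneg_right h1 hNpos.le
  have hden : 0 < 1 + |mt R| + |f 0| + ε1 + C / K := by positivity
  have h7 : |y M - M| ≤ ε1 / (1 + |mt R| + |f 0| + ε1 + C / K) * M := by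
    have e : y M - M = M * (y M / M - 1) := by field_simp
    rw [e, abs_mul, abs_of_pos hM0, mul_comm]
    exact mul_le_mul_of_nonneg_right h2 hM0.le
  have h8 : |(N : ℝ) - M| ≤ ε1 / (1 + |mt R| + |f 0| + ε1 + C / K) * M + 1 := by
    rw [abs_le] at h7 ⊢
    constructor <;> linarith [h7.1, h7.2]
  set q := ε1 / (1 + |mt R| + |f 0| + ε1 + C / K) with hq
  have hq1 : (|mt R| + |f 0| + ε1 + ε1 + C / K) * q ≤ 2 * ε1 := by
    have hq0 : 0 ≤ q := by positivity
    have hqq : (1 + |mt R| + |f 0| + ε1 + C / K) * q = ε1 := by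
      rw [hq]; field_simp
    nlinarith [abs_nonneg (mt R), abs_nonneg (f 0), mul_nonneg hKC hq0,
      mul_nonneg (abs_nonneg (mt R)) hq0, mul_nonneg (abs_nonneg (f 0)) hq0, mul_nonneg hε10.le hq0]
  -- final estimate
  have e9 : PP y f M - mt R * M = -(Q - PP y f M) + (Q - S.card * f 0 - (mt R - f 0) * N) +
      (mt R - f 0) * (N - M) + E.card * f 0 := by
    rw [hScard]; ring
  have hEnn : (0 : ℝ) ≤ E.card := Nat.cast_nonneg _
  have b3 : |(mt R - f 0) * ((N : ℝ) - M)| ≤ (|mt R| + |f 0|) * (q * M + 1) := by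
    rw [abs_mul]
    exact mul_le_mul (abs_sub _ _) h8 (abs_nonneg _) (by positivity)
  have b4 : |(E.card : ℝ) * f 0| ≤ 2 * (CL * Real.log (3 * M + 3 * K + 9)) * |f 0| := by
    rw [abs_mul, abs_of_nonneg hEnn]
    exact mul_le_mul_of_nonneg_right hcardE (abs_nonneg _)
  have b5 : (N : ℝ) ≤ M + (q * M + 1) := by
    have := (abs_le.1 h8).2
    linarith
  have b6 : (ε1 + C / K + ε1) * (N : ℝ) ≤ (ε1 + C / K + ε1) * (M + (q * M + 1)) :=
    mul_le_mul_of_nonneg_left b5 (by positivity)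
  rw [e9]
  have t1 := abs_add_le (-(Q - PP y f M) + (Q - S.card * f 0 - (mt R - f 0) * N) +
      (mt R - f 0) * (N - M)) (E.card * f 0)
  have t2 := abs_add_le (-(Q - PP y f M) + (Q - S.card * f 0 - (mt R - f 0) * N))
      ((mt R - f 0) * ((N : ℝ) - M))
  have t3 := abs_add_le (-(Q - PP y f M)) (Q - S.card * f 0 - (mt R - f 0) * N)
  rw [abs_neg] at t3
  have hq2 := mul_le_mul_of_nonneg_right hq1 hM0.le
  have habs1 := abs_nonneg (mt R)
  have habs2 := abs_nonneg (f 0)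
  set LL := CL * Real.log (3 * M + 3 * K + 9) with hLL
  have hp1 : 0 ≤ |mt R| * LL := mul_nonneg habs1 hlognn
  have hp2 : 0 ≤ (ε1 + C / K) * LL := mul_nonneg (by positivity) hlognn
  have hε8 : ε = 8 * ε1 := by rw [hε1]; ring
  rw [hε8]
  nlinarith

end Pool.Agent.Helper37.GL
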