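import Mathlib

/-! A band-limited kernel. -/

open Filter Topology MeasureTheory
open scoped FourierTransform SchwartzMap ContDiff

set_option autoImplicit false

namespace Pool.Agent.Helper37.GL

/-- a smooth even cutoff of the frequencies and its transform -/
structure KP (χ w : ℝ → ℝ) : Prop where
  c : Continuous χ
  e : ∀ α, χ (-α) = χ α
  s : ∀ α, 1 / 2 ≤ |α| → χ α = 0
  one : χ 0 = 1
  nn : ∀ α, 0 ≤ χ α
  le : ∀ α, χ α ≤ 1
  def' : ∀ v, w v = ∫ α, χ α * Real.cos (2 * Real.pi * v * α)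
  cw : Continuous w
  mass : ∫ v, w v = 1
  dec : ∃ K : ℝ, 0 ≤ K ∧ ∀ v, |w v| * (1 + |v|) ^ 6 ≤ K

theorem exists_kernel : ∃ χ w : ℝ → ℝ, KP χ w := by
  let b : ContDiffBump (0 : ℝ) := ⟨1 / 8, 1 / 4, by norm_num, by norm_num⟩
  have hb1 : ContDiff ℝ ∞ (fun α : ℝ => ((b α : ℝ) : ℂ)) :=
    Complex.ofRealCLM.contDiff.comp b.contDiff
  have hb2 : HasCompactSupport (fun α : ℝ => ((b α : ℝ) : ℂ)) := by
    have : HasCompactSupport (b : ℝ → ℝ) := b.hasCompactSupport
    exact this.comp_left (g := fun x : ℝ => (x : ℂ)) (by simp)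
  set S : 𝓢(ℝ, ℂ) := hb2.toSchwartzMap hb1 with hS
  set T : 𝓢(ℝ, ℂ) := 𝓕 S with hT
  have hTcoe : ∀ v, T v = ∫ α, Complex.exp (↑(-2 * Real.pi * α * v) * Complex.I) * ((b α : ℝ) : ℂ) := by
    intro v
    rw [hT, SchwartzMap.fourier_coe, Real.fourier_real_eq_integral_exp_smul]
    rfl
  have hint : ∀ v : ℝ, Integrable fun α : ℝ =>
      Complex.exp (↑(-2 * Real.pi * α * v) * Complex.I) * ((b α : ℝ) : ℂ) := by
    intro v
    have hbc : Continuous fun α : ℝ => ((b α : ℝ) : ℂ) := Complex.continuous_ofReal.comp b.continuous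
    refine Continuous.integrable_of_hasCompactSupport ((Continuous.mul (by fun_prop) hbc)) ?_
    exact hb2.mul_left
  have hre : ∀ v, (T v).re = ∫ α, b α * Real.cos (2 * Real.pi * v * α) := by
    intro v
    rw [hTcoe]
    have h1 := integral_re (hint v)
    simp only [RCLike.re_to_complex] at h1
    rw [← h1]
    refine integral_congr_ae ?_
    filter_upwards with α
    rw [Complex.mul_re, Complex.exp_ofReal_mul_I_re, Complex.ofReal_re, Complex.ofReal_im,
      mul_zero, sub_zero, mul_comm]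
    congr 1
    rw [← Real.cos_neg]
    congr 1
    ring
  refine ⟨b, fun v => (T v).re, ?_⟩
  refine ⟨b.continuous, fun α => ?_, fun α hα => ?_, ?_, fun α => b.nonneg, fun α => b.le_one, hre,
    Complex.continuous_re.comp T.continuous, ?_, ?_⟩
  · have := b.neg α
    simpa using this
  · have h1 : α ∉ Function.support (b : ℝ → ℝ) := by
      rw [b.support_eq, Metric.mem_ball, Real.dist_eq, sub_zero]
      show ¬ |α| < 1 / 4
      linarith
    simpa using h1
  · apply b.one_of_mem_closedBall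
    rw [Metric.mem_closedBall, dist_self]
    show (0 : ℝ) ≤ 1 / 8
    norm_num
  · have h1 : ∫ v, T v = S 0 := by
      have h2 : 𝓕⁻ T = S := by rw [hT]; exact FourierPair.fourierInv_fourier_eq S
      have h3 : (𝓕⁻ T) 0 = S 0 := by rw [h2]
      rw [SchwartzMap.fourierInv_coe, Real.fourierInv_eq] at h3
      simpa using h3
    have h2 : ∫ v, (T v).re = (∫ v, T v).re := by
      have hTi : Integrable (fun v => T v) (volume : Measure ℝ) := T.integrable
      have := integral_re (𝕜 := ℂ) hTi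
      simpa using this
    rw [h2, h1]
    show (((b 0 : ℝ)) : ℂ).re = 1
    rw [Complex.ofReal_re]
    apply b.one_of_mem_closedBall
    rw [Metric.mem_closedBall, dist_self]
    show (0 : ℝ) ≤ 1 / 8
    norm_num
  · have h1 := SchwartzMap.one_add_le_sup_seminorm_apply (𝕜 := ℝ) (m := (6, 0)) (k := 6) (n := 0)
      le_rfl le_rfl T
    refine ⟨2 ^ 6 * (Finset.Iic ((6, 0) : ℕ × ℕ)).sup (fun m => SchwartzMap.seminorm ℝ m.1 m.2) T,
      by positivity, fun v => ?_⟩
    have h2 := h1 v
    rw [norm_iteratedFDeriv_zero, Real.norm_eq_abs] at h2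
    rw [mul_comm]
    refine le_trans ?_ h2
    exact mul_le_mul_of_nonneg_left (Complex.abs_re_le_norm _) (by positivity)

end Pool.Agent.Helper37.GL
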