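import Pool.Agent.Helper37.GL.Main
import Pool.Agent.Helper37.GL.Kern

/-! Convolution with the band-limited kernel. -/

open Finset Filter Topology MeasureTheory
open Pool.Agent.Y748 Pool.Agent.Y748.SR

set_option autoImplicit false

namespace Pool.Agent.Helper37.GL

/-- the cosine transform -/
noncomputable def fh (f : ℝ → ℝ) (α : ℝ) : ℝ := ∫ u, f u * Real.cos (2 * Real.pi * u * α)

/-- even functions with a Lipschitz second derivative, supported in `[-A, A]` -/
structure PF (f f1 f2 : ℝ → ℝ) (A : ℕ) (F Λ : ℝ) : Prop where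
  ev : ∀ v, f (-v) = f v
  supp : ∀ v, (A : ℝ) < |v| → f v = 0
  bd : ∀ v, |f v| ≤ F
  d1 : ∀ x, HasDerivAt f (f1 x) x
  d2 : ∀ x, HasDerivAt f1 (f2 x) x
  lip : ∀ a b, |f2 a - f2 b| ≤ Λ * |a - b|
  l0 : 0 ≤ Λ

namespace PF

variable {f f1 f2 : ℝ → ℝ} {A : ℕ} {F Λ : ℝ}

theorem cont (h : PF f f1 f2 A F Λ) : Continuous f :=
  continuous_iff_continuousAt.2 fun x => (h.d1 x).continuousAt

theorem cont1 (h : PF f f1 f2 A F Λ) : Continuous f1 :=
  continuous_iff_continuousAt.2 fun x => (h.d2 x).continuousAt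

theorem cont2 (h : PF f f1 f2 A F Λ) : Continuous f2 := by
  rw [Metric.continuous_iff]
  intro x ε hε
  refine ⟨ε / (Λ + 1), div_pos hε (by linarith [h.l0]), fun a ha => ?_⟩
  rw [Real.dist_eq] at ha ⊢
  have h1 := h.lip a x
  have hm : 0 < Λ + 1 := by linarith [h.l0]
  rw [lt_div_iff₀ hm] at ha
  nlinarith [h.l0, abs_nonneg (a - x)]

theorem cpt (h : PF f f1 f2 A F Λ) : HasCompactSupport f :=
  HasCompactSupport.of_support_subset_isCompact (isCompact_Icc (a := -(A : ℝ)) (b := A))
    fun x hx => by
      rw [Function.mem_support] at hx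
      rw [Set.mem_Icc, ← abs_le]
      by_contra hcon
      exact hx (h.supp x (not_le.1 hcon))

theorem int (h : PF f f1 f2 A F Λ) : Integrable f := h.cont.integrable_of_hasCompactSupport h.cpt

theorem z2 (h : PF f f1 f2 A F Λ) {x : ℝ} (hx : (A : ℝ) < |x|) : f2 x = 0 :=
  f2_zero h.d1 h.d2 h.supp hx

theorem z1 (h : PF f f1 f2 A F Λ) {x : ℝ} (hx : (A : ℝ) < |x|) : f1 x = 0 := by
  have hopen : IsOpen {x : ℝ | (A : ℝ) < |x|} := isOpen_lt continuous_const continuous_abs
  have h2 : HasDerivAt f 0 x := by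
    have : f =ᶠ[𝓝 x] fun _ : ℝ => (0 : ℝ) := by
      filter_upwards [hopen.mem_nhds hx] with w hw
      exact h.supp w hw
    exact (hasDerivAt_const x (0 : ℝ)).congr_of_eventuallyEq this
  exact (h.d1 x).unique h2

theorem cpt2 (h : PF f f1 f2 A F Λ) : HasCompactSupport f2 :=
  HasCompactSupport.of_support_subset_isCompact (isCompact_Icc (a := -(A : ℝ)) (b := A))
    fun x hx => by
      rw [Function.mem_support] at hx
      rw [Set.mem_Icc, ← abs_le]
      by_contra hcon
      exact hx (h.z2 (not_le.1 hcon))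

theorem cpt1 (h : PF f f1 f2 A F Λ) : HasCompactSupport f1 :=
  HasCompactSupport.of_support_subset_isCompact (isCompact_Icc (a := -(A : ℝ)) (b := A))
    fun x hx => by
      rw [Function.mem_support] at hx
      rw [Set.mem_Icc, ← abs_le]
      by_contra hcon
      exact hx (h.z1 (not_le.1 hcon))

theorem F0 (h : PF f f1 f2 A F Λ) : 0 ≤ F := (abs_nonneg _).trans (h.bd 0)

theorem ev2 (h : PF f f1 f2 A F Λ) (x : ℝ) : f2 (-x) = f2 x := f2_even h.d1 h.d2 h.ev x

theorem bd2 (h : PF f f1 f2 A F Λ) (hA : 1 ≤ A) (x : ℝ) : |f2 x| ≤ Λ * (3 * A) := by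
  have hA1 : (1 : ℝ) ≤ A := by exact_mod_cast hA
  rcases le_or_gt |x| A with hx | hx
  · have h1 := h.lip x (A + 1)
    rw [h.z2 (x := A + 1) (by rw [abs_of_pos (by linarith)]; linarith), sub_zero] at h1
    refine h1.trans (mul_le_mul_of_nonneg_left ?_ h.l0)
    rw [abs_le] at hx ⊢
    constructor <;> linarith [hx.1, hx.2]
  · rw [h.z2 hx, abs_zero]
    have := h.l0
    positivity

theorem l1 (h : PF f f1 f2 A F Λ) : ∫ u, |f u| ≤ 2 * A * F := by
  have hA0 : (0 : ℝ) ≤ A := Nat.cast_nonneg A
  have e1 : ∫ u, |f u| = ∫ u in (-(A : ℝ))..A, |f u| :=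
    (int_supp (by linarith) fun t ht => by
      rw [h.supp t, abs_zero]
      rcases ht with ht | ht
      · rw [abs_of_neg (by linarith)]; linarith
      · exact lt_of_lt_of_le ht (le_abs_self t)).symm
  rw [e1]
  have h1 := intervalIntegral.integral_mono_on (μ := volume) (a := -(A : ℝ)) (b := A)
    (f := fun u => |f u|)
    (g := fun _ => F) (by linarith) (h.cont.abs.intervalIntegrable _ _)
    (continuous_const.intervalIntegrable _ _) fun u _ => h.bd u
  refine h1.trans (le_of_eq ?_)
  rw [intervalIntegral.integral_const, smul_eq_mul]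
  ring

end PF

section

variable {χ w : ℝ → ℝ} (hk : KP χ w)

include hk

theorem w_even (v : ℝ) : w (-v) = w v := by
  rw [hk.def', hk.def']
  refine integral_congr_ae ?_
  filter_upwards with α
  rw [show 2 * Real.pi * -v * α = -(2 * Real.pi * v * α) by ring, Real.cos_neg]

theorem chi_cpt : HasCompactSupport χ :=
  HasCompactSupport.of_support_subset_isCompact (isCompact_Icc (a := (-1 : ℝ)) (b := 1))
    fun x hx => by
      rw [Function.mem_support] at hx
      rw [Set.mem_Icc, ← abs_le]
      by_contra hcon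
      exact hx (hk.s x (by linarith [not_le.1 hcon]))

theorem chi_int : Integrable χ := hk.c.integrable_of_hasCompactSupport (chi_cpt hk)

theorem w_pow_int (p : ℕ) (hp : p ≤ 4) : Integrable fun u => |u| ^ p * |w u| := by
  obtain ⟨K, hK0, hK⟩ := hk.dec
  have h1 : Integrable fun u : ℝ => K * (1 + u ^ 2)⁻¹ := integrable_inv_one_add_sq.const_mul K
  refine h1.mono' ((continuous_abs.pow p).mul hk.cw.abs).aestronglyMeasurable ?_
  filter_upwards with u
  rw [Real.norm_eq_abs, abs_of_nonneg (by positivity), ← div_eq_mul_inv,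
    le_div_iff₀ (by positivity)]
  refine le_trans ?_ (hK u)
  have hu := abs_nonneg u
  have h2 : |u| ^ p ≤ (1 + |u|) ^ 4 :=
    (pow_le_pow_left₀ hu (by linarith) p).trans (pow_le_pow_right₀ (by linarith) hp)
  have h3 : 1 + u ^ 2 ≤ (1 + |u|) ^ 2 := by
    rw [← sq_abs]; nlinarith
  calc |u| ^ p * |w u| * (1 + u ^ 2) = |w u| * (|u| ^ p * (1 + u ^ 2)) := by ring
    _ ≤ |w u| * ((1 + |u|) ^ 4 * (1 + |u|) ^ 2) := by
        apply mul_le_mul_of_nonneg_left _ (abs_nonneg _)
        exact mul_le_mul h2 h3 (by positivity) (by positivity)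
    _ = _ := by ring

theorem w_int : Integrable w := by
  have := w_pow_int hk 0 (by norm_num)
  simp only [pow_zero, one_mul] at this
  exact (integrable_norm_iff hk.cw.aestronglyMeasurable).1 this

theorem rr_conv0 {f : ℝ → ℝ} (hf : Integrable f) (he : ∀ v, f (-v) = f v)
    (v : ℝ) : rr (fun α => fh f α * χ α) v = ∫ u, f u * w (v - u) := by
  have e1 : rr (fun α => fh f α * χ α) v =
      ∫ α, (fh f α * χ α) * Real.cos (2 * Real.pi * v * α) := by
    unfold rr
    apply int_supp (by norm_num)
    intro t ht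
    have : χ t = 0 := by
      apply hk.s
      rcases ht with ht | ht
      · rw [abs_of_neg (by linarith)]; linarith
      · rw [abs_of_pos (by linarith)]; linarith
    show fh f t * χ t * Real.cos (2 * Real.pi * v * t) = 0
    rw [this]; ring
  have e2 : ∫ α, (fh f α * χ α) * Real.cos (2 * Real.pi * v * α) =
      ∫ α, ∫ u, (χ α * f u) * (Real.cos (2 * Real.pi * v * α) * Real.cos (2 * Real.pi * u * α)) := by
    refine integral_congr_ae ?_
    filter_upwards with α
    unfold fh
    rw [mul_assoc, ← integral_mul_const]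
    refine integral_congr_ae ?_
    filter_upwards with u
    ring
  have hint : Integrable (fun p : ℝ × ℝ => (χ p.1 * f p.2) *
      (Real.cos (2 * Real.pi * v * p.1) * Real.cos (2 * Real.pi * p.2 * p.1)))
      ((volume : Measure ℝ).prod volume) := by
    refine ((chi_int hk).mul_prod hf).mul_bdd (c := 1) ?_ ?_
    · exact Continuous.aestronglyMeasurable (by fun_prop)
    · filter_upwards with p
      rw [norm_mul, Real.norm_eq_abs, Real.norm_eq_abs]
      exact mul_le_one₀ (Real.abs_cos_le_one _) (abs_nonneg _) (Real.abs_cos_le_one _)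
  have e3 : ∫ α, ∫ u, (χ α * f u) * (Real.cos (2 * Real.pi * v * α) *
      Real.cos (2 * Real.pi * u * α)) = ∫ u, ∫ α, (χ α * f u) *
      (Real.cos (2 * Real.pi * v * α) * Real.cos (2 * Real.pi * u * α)) :=
    integral_integral_swap hint
  have hci : ∀ z : ℝ, Integrable fun α => χ α * Real.cos (2 * Real.pi * z * α) := by
    intro z
    refine (chi_int hk).mul_bdd (c := 1) (Continuous.aestronglyMeasurable (by fun_prop)) ?_
    filter_upwards with α
    exact Real.abs_cos_le_one _
  have e4 : ∀ u, ∫ α, (χ α * f u) * (Real.cos (2 * Real.pi * v * α) *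
      Real.cos (2 * Real.pi * u * α)) = 1 / 2 * (f u * w (v - u)) + 1 / 2 * (f u * w (v + u)) := by
    intro u
    rw [hk.def' (v - u), hk.def' (v + u), ← integral_const_mul, ← integral_const_mul,
      ← integral_const_mul, ← integral_const_mul, ← integral_add]
    · refine integral_congr_ae ?_
      filter_upwards with α
      have h1 := Real.cos_sub (2 * Real.pi * v * α) (2 * Real.pi * u * α)
      have h2 := Real.cos_add (2 * Real.pi * v * α) (2 * Real.pi * u * α)
      have a1 : 2 * Real.pi * (v - u) * α = 2 * Real.pi * v * α - 2 * Real.pi * u * α := by ring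
      have a2 : 2 * Real.pi * (v + u) * α = 2 * Real.pi * v * α + 2 * Real.pi * u * α := by ring
      rw [a1, a2, h1, h2]; ring
    · exact ((hci _).const_mul _).const_mul _
    · exact ((hci _).const_mul _).const_mul _
  obtain ⟨K, hK0, hK⟩ := hk.dec
  have hwb : ∀ z, |w z| ≤ K := by
    intro z
    refine le_trans ?_ (hK z)
    have : 1 ≤ (1 + |z|) ^ 6 := one_le_pow₀ (by linarith [abs_nonneg z])
    nlinarith [abs_nonneg (w z)]
  have hi1 : Integrable fun u => f u * w (v - u) := by
    refine hf.mul_bdd (c := K)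
      (hk.cw.comp (continuous_const.sub continuous_id)).aestronglyMeasurable ?_
    filter_upwards with u
    exact hwb _
  have hi2 : Integrable fun u => f u * w (v + u) := by
    refine hf.mul_bdd (c := K)
      (hk.cw.comp (continuous_const.add continuous_id)).aestronglyMeasurable ?_
    filter_upwards with u
    exact hwb _
  have e5 : ∫ u, f u * w (v + u) = ∫ u, f u * w (v - u) := by
    rw [← integral_neg_eq_self]
    refine integral_congr_ae ?_
    filter_upwards with u
    rw [he, sub_eq_add_neg]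
  rw [e1, e2, e3]
  simp_rw [e4]
  rw [integral_add (hi1.const_mul _) (hi2.const_mul _), integral_const_mul, integral_const_mul, e5]
  ring

theorem rr_conv {f : ℝ → ℝ} (hf : Integrable f) (he : ∀ v, f (-v) = f v)
    (v : ℝ) : rr (fun α => fh f α * χ α) v = ∫ u, f (v - u) * w u := by
  rw [rr_conv0 hk hf he]
  have := integral_sub_left_eq_self (fun u => f u * w (v - u)) (volume : Measure ℝ) v
  rw [← this]
  refine integral_congr_ae ?_
  filter_upwards with u
  rw [sub_sub_cancel]

end

end Pool.Agent.Helper37.GL
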