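import Pool.Agent.Helper37.GL.Quad

/-! Correlations of weight functions. -/

open Finset Filter Topology MeasureTheory
open Pool.Agent.Y748 Pool.Agent.Y748.SR

set_option autoImplicit false

namespace Pool.Agent.Helper37.GL

/-- a weight function with a Lipschitz derivative, supported in `[0, L]` -/
structure BF (B B' : ℝ → ℝ) (L : ℕ) (m : ℝ) : Prop where
  d : ∀ x, HasDerivAt B (B' x) x
  lip : ∀ a b, |B' a - B' b| ≤ m * |a - b|
  m0 : 0 ≤ m
  s0 : ∀ x, x ≤ 0 → B x = 0
  s1 : ∀ x, (L : ℝ) ≤ x → B x = 0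

namespace BF

variable {B B' : ℝ → ℝ} {L : ℕ} {m : ℝ}

theorem cont (h : BF B B' L m) : Continuous B :=
  continuous_iff_continuousAt.2 fun x => (h.d x).continuousAt

theorem cont' (h : BF B B' L m) : Continuous B' := by
  rw [Metric.continuous_iff]
  intro x ε hε
  refine ⟨ε / (m + 1), div_pos hε (by linarith [h.m0]), fun a ha => ?_⟩
  rw [Real.dist_eq] at ha ⊢
  have h1 := h.lip a x
  have hm : 0 < m + 1 := by linarith [h.m0]
  rw [lt_div_iff₀ hm] at ha
  nlinarith [h.m0, abs_nonneg (a - x)]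

theorem compact (h : BF B B' L m) : HasCompactSupport B :=
  HasCompactSupport.of_support_subset_isCompact (isCompact_Icc (a := (0 : ℝ)) (b := L)) fun x hx => by
    rw [Function.mem_support] at hx
    by_contra hcon
    rw [Set.mem_Icc, not_and_or, not_le, not_le] at hcon
    rcases hcon with hc | hc
    · exact hx (h.s0 x hc.le)
    · exact hx (h.s1 x hc.le)

theorem s0' (h : BF B B' L m) {x : ℝ} (hx : x < 0) : B' x = 0 := by
  have h1 : HasDerivAt B 0 x := by
    have : (fun _ : ℝ => (0 : ℝ)) =ᶠ[𝓝 x] B := by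
      filter_upwards [Iio_mem_nhds hx] with z hz
      exact (h.s0 z (le_of_lt hz)).symm
    exact (hasDerivAt_const x (0 : ℝ)).congr_of_eventuallyEq this.symm
  exact (h.d x).unique h1

theorem s1' (h : BF B B' L m) {x : ℝ} (hx : (L : ℝ) < x) : B' x = 0 := by
  have h1 : HasDerivAt B 0 x := by
    have : (fun _ : ℝ => (0 : ℝ)) =ᶠ[𝓝 x] B := by
      filter_upwards [Ioi_mem_nhds hx] with z hz
      exact (h.s1 z (le_of_lt hz)).symm
    exact (hasDerivAt_const x (0 : ℝ)).congr_of_eventuallyEq this.symm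
  exact (h.d x).unique h1

theorem compact' (h : BF B B' L m) : HasCompactSupport B' :=
  HasCompactSupport.of_support_subset_isCompact (isCompact_Icc (a := (0 : ℝ)) (b := L)) fun x hx => by
    rw [Function.mem_support] at hx
    by_contra hcon
    rw [Set.mem_Icc, not_and_or, not_le, not_le] at hcon
    rcases hcon with hc | hc
    · exact hx (h.s0' hc)
    · exact hx (h.s1' hc)

theorem int (h : BF B B' L m) : Integrable B := h.cont.integrable_of_hasCompactSupport h.compact

theorem int' (h : BF B B' L m) : Integrable B' :=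
  h.cont'.integrable_of_hasCompactSupport h.compact'

theorem bdd (h : BF B B' L m) : ∃ b : ℝ, 0 ≤ b ∧ ∀ x, |B x| ≤ b := by
  obtain ⟨b, hb⟩ := h.compact.exists_bound_of_continuous h.cont
  exact ⟨max b 0, le_max_right _ _, fun x => (hb x).trans (le_max_left _ _)⟩

theorem bdd' (h : BF B B' L m) : ∃ b : ℝ, 0 ≤ b ∧ ∀ x, |B' x| ≤ b := by
  obtain ⟨b, hb⟩ := h.compact'.exists_bound_of_continuous h.cont'
  exact ⟨max b 0, le_max_right _ _, fun x => (hb x).trans (le_max_left _ _)⟩

theorem bL (h : BF B B' L m) : B L = 0 := h.s1 _ le_rfl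

theorem bm1 (h : BF B B' L m) : B (-1) = 0 := h.s0 _ (by norm_num)

end BF

/-- the correlation function -/
noncomputable def ff (B1 B2 : ℝ → ℝ) (x : ℝ) : ℝ := ∫ t, B1 t * B2 (t + x)

section

variable {B1 B1' B2 B2' : ℝ → ℝ} {L : ℕ} {m1 m2 : ℝ}

theorem int_mul {g h : ℝ → ℝ} (hg : Integrable g) (hh : Continuous h) {b : ℝ} (hb : ∀ x, |h x| ≤ b)
    (x : ℝ) : Integrable fun t => g t * h (t + x) := by
  refine hg.mul_bdd (c := b) ?_ ?_
  · exact (hh.comp (continuous_id.add continuous_const)).aestronglyMeasurable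
  · filter_upwards with t
    rw [Real.norm_eq_abs]; exact hb _

theorem ff_deriv (h1 : BF B1 B1' L m1) (h2 : BF B2 B2' L m2) (x : ℝ) :
    HasDerivAt (ff B1 B2) (∫ t, B1 t * B2' (t + x)) x := by
  obtain ⟨b, hb0, hb⟩ := h2.bdd
  obtain ⟨b', hb0', hb'⟩ := h2.bdd'
  have := hasDerivAt_integral_of_dominated_loc_of_deriv_le (μ := volume) (s := Set.univ) (x₀ := x)
    (F := fun x t => B1 t * B2 (t + x)) (F' := fun x t => B1 t * B2' (t + x))
    (bound := fun t => |B1 t| * b') Filter.univ_mem ?_ ?_ ?_ ?_ ?_ ?_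
  · exact this.2
  · filter_upwards with z
    exact (int_mul h1.int h2.cont hb z).aestronglyMeasurable
  · exact int_mul h1.int h2.cont hb x
  · exact (int_mul h1.int h2.cont' hb' x).aestronglyMeasurable
  · filter_upwards with t z _
    rw [Real.norm_eq_abs, abs_mul]
    exact mul_le_mul_of_nonneg_left (hb' _) (abs_nonneg _)
  · exact h1.int.abs.mul_const b'
  · filter_upwards with t z _
    exact ((h2.d (t + z)).comp_const_add t z).const_mul (B1 t)

theorem shift_int (g h : ℝ → ℝ) (x : ℝ) : ∫ t, g t * h (t + x) = ∫ t, h t * g (t - x) := by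
  have := integral_add_right_eq_self (μ := (volume : Measure ℝ)) (fun t => h t * g (t - x)) x
  rw [← this]
  refine integral_congr_ae ?_
  filter_upwards with t
  rw [add_sub_cancel_right]; ring

theorem ff_deriv2 (h1 : BF B1 B1' L m1) (h2 : BF B2 B2' L m2) (x : ℝ) :
    HasDerivAt (fun x => ∫ t, B1 t * B2' (t + x)) (-∫ t, B1' t * B2' (t + x)) x := by
  obtain ⟨b, hb0, hb⟩ := h1.bdd
  obtain ⟨b', hb0', hb'⟩ := h1.bdd'
  have e1 : (fun x => ∫ t, B1 t * B2' (t + x)) = fun x => ∫ t, B2' t * B1 (t - x) := by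
    funext x; exact shift_int _ _ _
  have e2 : (-∫ t, B1' t * B2' (t + x)) = ∫ t, B2' t * (-B1' (t - x)) := by
    rw [shift_int B1' B2' x, ← integral_neg]
    refine integral_congr_ae ?_
    filter_upwards with t
    ring
  rw [e1, e2]
  have := hasDerivAt_integral_of_dominated_loc_of_deriv_le (μ := volume) (s := Set.univ) (x₀ := x)
    (F := fun x t => B2' t * B1 (t - x)) (F' := fun x t => B2' t * (-B1' (t - x)))
    (bound := fun t => |B2' t| * b') Filter.univ_mem ?_ ?_ ?_ ?_ ?_ ?_
  · exact this.2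
  · filter_upwards with z
    have := (int_mul h2.int' h1.cont hb (-z)).aestronglyMeasurable
    simpa [sub_eq_add_neg] using this
  · have := (int_mul h2.int' h1.cont hb (-x))
    simpa [sub_eq_add_neg] using this
  · have := (int_mul h2.int' h1.cont' hb' (-x)).neg.aestronglyMeasurable
    refine this.congr ?_
    filter_upwards with t
    simp [sub_eq_add_neg]
  · filter_upwards with t z _
    rw [Real.norm_eq_abs, abs_mul, abs_neg]
    exact mul_le_mul_of_nonneg_left (hb' _) (abs_nonneg _)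
  · exact h2.int'.abs.mul_const b'
  · filter_upwards with t z _
    exact ((h1.d (t - z)).comp_const_sub t z).const_mul (B2' t)

/-- the second derivative of the correlation function -/
noncomputable def f2 (B1' B2' : ℝ → ℝ) (x : ℝ) : ℝ := -∫ t, B1' t * B2' (t + x)

theorem f2_lip (h1 : BF B1 B1' L m1) (h2 : BF B2 B2' L m2) (a b : ℝ) :
    |f2 B1' B2' a - f2 B1' B2' b| ≤ m2 * (∫ t, |B1' t|) * |a - b| := by
  obtain ⟨c, _, hc⟩ := h2.bdd'
  unfold f2
  rw [neg_sub_neg, ← integral_sub (int_mul h1.int' h2.cont' hc b) (int_mul h1.int' h2.cont' hc a)]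
  have h3 : ∀ t, |B1' t * B2' (t + b) - B1' t * B2' (t + a)| ≤ |B1' t| * (m2 * |a - b|) := by
    intro t
    rw [← mul_sub, abs_mul]
    apply mul_le_mul_of_nonneg_left _ (abs_nonneg _)
    have := h2.lip (t + b) (t + a)
    rwa [add_sub_add_left_eq_sub, abs_sub_comm b a] at this
  have h4 := norm_integral_le_of_norm_le (h1.int'.abs.mul_const (m2 * |a - b|))
    (Eventually.of_forall fun t => by rw [Real.norm_eq_abs]; exact h3 t)
  rw [Real.norm_eq_abs] at h4
  refine h4.trans (le_of_eq ?_)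
  rw [integral_mul_const]
  ring

end

/-- cells -/
theorem cell_one {G g H h : ℝ → ℝ} {m : ℝ} (hG : ∀ x, HasDerivAt G (g x) x) (hgc : Continuous g)
    (hH : ∀ x, HasDerivAt H (h x) x) (hL : ∀ a b, |h a - h b| ≤ m * |a - b|) (hm : 0 ≤ m)
    (hhc : Continuous h) (a : ℝ) :
    |(G (a + 1) - G a) * (H (a + 1) - H a) - ∫ t in a..(a + 1), g t * h t| ≤
      m * ∫ t in a..(a + 1), |g t| := by
  have e1 : G (a + 1) - G a = ∫ t in a..(a + 1), g t :=
    (intervalIntegral.integral_eq_sub_of_hasDerivAt (fun x _ => hG x)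
      (hgc.intervalIntegrable _ _)).symm
  have e2 : (G (a + 1) - G a) * (H (a + 1) - H a) - ∫ t in a..(a + 1), g t * h t =
      ∫ t in a..(a + 1), g t * ((H (a + 1) - H a) - h t) := by
    have i1 : IntervalIntegrable (fun t => g t * (H (a + 1) - H a)) volume a (a + 1) :=
      (hgc.mul continuous_const).intervalIntegrable _ _
    have i2 : IntervalIntegrable (fun t => g t * h t) volume a (a + 1) :=
      (hgc.mul hhc).intervalIntegrable _ _
    rw [e1, ← intervalIntegral.integral_mul_const, ← intervalIntegral.integral_sub i1 i2]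
    refine intervalIntegral.integral_congr fun t _ => ?_
    show g t * (H (a + 1) - H a) - g t * h t = g t * ((H (a + 1) - H a) - h t)
    ring
  rw [e2]
  obtain ⟨ξ, hξ, hξ2⟩ := exists_hasDerivAt_eq_slope H h (show a < a + 1 by linarith)
    (fun x _ => (hH x).continuousAt.continuousWithinAt) (fun x _ => hH x)
  have e3 : H (a + 1) - H a = h ξ := by rw [hξ2]; simp
  rw [e3]
  have h1 := intervalIntegral.norm_integral_le_of_norm_le (μ := volume)
    (f := fun t => g t * (h ξ - h t)) (g := fun t => m * |g t|)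
    (show a ≤ a + 1 by linarith) ?_ ?_
  · rw [Real.norm_eq_abs, intervalIntegral.integral_const_mul] at h1
    exact h1
  · filter_upwards with t ht
    rw [Real.norm_eq_abs, abs_mul, mul_comm]
    apply mul_le_mul_of_nonneg_right _ (abs_nonneg _)
    refine (hL ξ t).trans ?_
    have : |ξ - t| ≤ 1 := by
      rw [abs_le]
      constructor <;> linarith [ht.1, ht.2, hξ.1, hξ.2]
    nlinarith
  · exact (continuous_const.mul hgc.abs).intervalIntegrable _ _

theorem cells {G g H h : ℝ → ℝ} {m : ℝ} (hG : ∀ x, HasDerivAt G (g x) x) (hgc : Continuous g)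
    (hH : ∀ x, HasDerivAt H (h x) x) (hL : ∀ a b, |h a - h b| ≤ m * |a - b|) (hm : 0 ≤ m)
    (hhc : Continuous h) (N : ℕ) :
    |∑ i ∈ range N, (G i - G ((i : ℝ) - 1)) * (H i - H ((i : ℝ) - 1)) -
      ∫ t in (-1 : ℝ)..((N : ℝ) - 1), g t * h t| ≤ m * ∫ t in (-1 : ℝ)..((N : ℝ) - 1), |g t| := by
  have e1 : ∀ q : ℝ → ℝ, Continuous q → ∫ t in (-1 : ℝ)..((N : ℝ) - 1), q t =
      ∑ i ∈ range N, ∫ t in ((i : ℝ) - 1)..((i : ℝ) - 1 + 1), q t := by
    intro q hq
    have := intervalIntegral.sum_integral_adjacent_intervals (μ := volume) (f := q)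
      (a := fun i : ℕ => (i : ℝ) - 1) (n := N) (fun k _ => hq.intervalIntegrable _ _)
    simp only [Nat.cast_zero, zero_sub] at this
    rw [← this]
    refine sum_congr rfl fun i _ => ?_
    push_cast
    rw [show (i : ℝ) + 1 - 1 = i - 1 + 1 by ring]
  rw [e1 (fun t => g t * h t) (hgc.mul hhc), e1 (fun t => |g t|) hgc.abs, ← sum_sub_distrib, mul_sum]
  refine (abs_sum_le_sum_abs _ _).trans (sum_le_sum fun i _ => ?_)
  have := cell_one hG hgc hH hL hm hhc ((i : ℝ) - 1)
  rwa [sub_add_cancel] at this ⊢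

theorem int_supp {q : ℝ → ℝ} {a b : ℝ} (hab : a ≤ b) (h : ∀ t, t < a ∨ b < t → q t = 0) :
    ∫ t in a..b, q t = ∫ t, q t := by
  rw [intervalIntegral.integral_of_le hab, ← integral_Icc_eq_integral_Ioc]
  apply setIntegral_eq_integral_of_forall_compl_eq_zero
  intro t ht
  rw [Set.mem_Icc, not_and_or, not_le, not_le] at ht
  exact h t ht

section

variable {B1 B1' B2 B2' : ℝ → ℝ} {L : ℕ} {m1 m2 : ℝ}

theorem cp (h1 : BF B1 B1' L m1) (h2 : BF B2 B2' L m2) (k : ℕ) :
    |∑ i ∈ range (L + 1), dd B1 i * dd B2 (i + k) - ∫ t, B1' t * B2' (t + k)| ≤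
      m2 * ∫ t, |B1' t| := by
  have h := cells (G := B1) (g := B1') (H := fun t => B2 (t + k)) (h := fun t => B2' (t + k))
    (m := m2) h1.d h1.cont' (fun x => (h2.d (x + k)).comp_add_const x (k : ℝ))
    (fun a b => by
      have := h2.lip (a + k) (b + k)
      rwa [add_sub_add_right_eq_sub] at this) h2.m0
    (h2.cont'.comp (continuous_id.add continuous_const)) (L + 1)
  have e0 : ((L + 1 : ℕ) : ℝ) - 1 = L := by push_cast; ring
  have hL0 : (0 : ℝ) ≤ L := Nat.cast_nonneg L
  have hz : ∀ t, t < -1 ∨ (L : ℝ) < t → B1' t = 0 := by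
    intro t ht
    rcases ht with ht | ht
    · exact h1.s0' (by linarith)
    · exact h1.s1' ht
  rw [e0, int_supp (by linarith) (fun t ht => by rw [hz t ht, zero_mul]),
    int_supp (by linarith) (fun t ht => by rw [hz t ht, abs_zero])] at h
  refine le_of_eq_of_le ?_ h
  congr 2
  refine sum_congr rfl fun i _ => ?_
  unfold dd
  push_cast
  rw [show (i : ℝ) + k - 1 = i - 1 + k by ring]
  ring

theorem cm (h1 : BF B1 B1' L m1) (h2 : BF B2 B2' L m2) (k : ℕ) :
    |∑ i ∈ range (L + 1), dd B1 (i + k) * dd B2 i - ∫ t, B1' (t + k) * B2' t| ≤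
      m2 * ∫ t, |B1' t| := by
  have h := cells (G := fun t => B1 (t + k)) (g := fun t => B1' (t + k)) (H := B2) (h := B2')
    (m := m2) (fun x => (h1.d (x + k)).comp_add_const x (k : ℝ))
    (h1.cont'.comp (continuous_id.add continuous_const)) h2.d h2.lip h2.m0 h2.cont' (L + 1)
  have e0 : ((L + 1 : ℕ) : ℝ) - 1 = L := by push_cast; ring
  have hL0 : (0 : ℝ) ≤ L := Nat.cast_nonneg L
  have hz : ∀ t, t < -1 ∨ (L : ℝ) < t → B2' t = 0 := by
    intro t ht
    rcases ht with ht | ht
    · exact h2.s0' (by linarith)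
    · exact h2.s1' ht
  rw [e0, int_supp (by linarith) (fun t ht => by rw [hz t ht, mul_zero])] at h
  have h3 : ∫ t in (-1 : ℝ)..L, |B1' (t + k)| ≤ ∫ t, |B1' t| := by
    rw [intervalIntegral.integral_of_le (by linarith)]
    have h4 : Integrable fun t => |B1' (t + k)| := (h1.int'.comp_add_right (k : ℝ)).abs
    refine (setIntegral_le_integral h4 (Eventually.of_forall fun t => abs_nonneg _)).trans ?_
    exact le_of_eq (integral_add_right_eq_self (fun t => |B1' t|) (k : ℝ))
  refine le_trans (le_of_eq ?_) (h.trans (mul_le_mul_of_nonneg_left h3 h2.m0))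
  congr 2
  refine sum_congr rfl fun i _ => ?_
  unfold dd
  push_cast
  rw [show (i : ℝ) + k - 1 = i - 1 + k by ring]
  ring

end

/-- a double sum by the difference of the indices -/
theorem double_range (F : ℕ → ℕ → ℝ) (N : ℕ) :
    ∑ i ∈ range N, ∑ j ∈ range N, F i j =
      ∑ i ∈ range N, F i i + ∑ k ∈ Icc 1 N, ∑ i ∈ range (N - k), (F i (i + k) + F (i + k) i) := by
  induction N with
  | zero => simp
  | succ N ih =>
    have e1 : ∑ i ∈ range (N + 1), ∑ j ∈ range (N + 1), F i j =
        ∑ i ∈ range N, ∑ j ∈ range N, F i j + ∑ i ∈ range N, (F i N + F N i) + F N N := by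
      simp_rw [sum_range_succ]
      rw [sum_add_distrib, sum_add_distrib]
      ring
    have e2 : ∑ k ∈ Icc 1 (N + 1), ∑ i ∈ range (N + 1 - k), (F i (i + k) + F (i + k) i) =
        ∑ k ∈ Icc 1 N, ∑ i ∈ range (N - k), (F i (i + k) + F (i + k) i) +
          ∑ i ∈ range N, (F i N + F N i) := by
      rw [sum_Icc_succ_top (by omega), Nat.sub_self, range_zero, sum_empty, add_zero]
      have e3 : ∀ k ∈ Icc 1 N, ∑ i ∈ range (N + 1 - k), (F i (i + k) + F (i + k) i) =
          ∑ i ∈ range (N - k), (F i (i + k) + F (i + k) i) + (F (N - k) N + F N (N - k)) := by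
        intro k hk
        rw [mem_Icc] at hk
        have : N + 1 - k = (N - k) + 1 := by omega
        rw [this, sum_range_succ]
        congr 3 <;> omega
      rw [sum_congr rfl e3, sum_add_distrib]
      congr 1
      refine sum_nbij' (fun k => N - k) (fun i => N - i) ?_ ?_ ?_ ?_ ?_
      · intro k hk; rw [mem_Icc] at hk; rw [mem_range]; omega
      · intro k hk; rw [mem_range] at hk; rw [mem_Icc]; omega
      · intro k hk; rw [mem_Icc] at hk; omega
      · intro k hk; rw [mem_range] at hk; omega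
      · intro k hk; rfl
    rw [e1, e2, ih, sum_range_succ]
    ring

end Pool.Agent.Helper37.GL
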