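import Pool.Agent.Helper37.GL.Tail

/-! Pair sums of smooth functions and the second moments of the deviations. -/

open Finset Filter Topology MeasureTheory
open Pool.Agent.Y748 Pool.Agent.Y748.SR

set_option autoImplicit false

namespace Pool.Agent.Helper37.GL

theorem seg_bound {g g' : ℝ → ℝ} {B t : ℝ} (hg : ∀ s, HasDerivAt g (g' s) s)
    (hb : ∀ s, |s| ≤ |t| → |g' s| ≤ B) : |g t - g 0| ≤ B * |t| := by
  have h := Convex.norm_image_sub_le_of_norm_hasDerivWithin_le (f := g) (f' := g')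
    (s := Set.uIcc 0 t) (C := B) (x := 0) (y := t)
    (fun s _ => (hg s).hasDerivWithinAt) (fun s hs => ?_) (convex_uIcc 0 t)
    Set.left_mem_uIcc Set.right_mem_uIcc
  · simpa [Real.norm_eq_abs] using h
  · rw [Real.norm_eq_abs]
    apply hb
    rcases Set.mem_uIcc.1 hs with h1 | h1
    · rw [abs_of_nonneg h1.1]; exact h1.2.trans (le_abs_self t)
    · rw [abs_of_nonpos h1.2, abs_of_nonpos (h1.1.trans h1.2)]; linarith [h1.1]

theorem taylor1 {f1 f2 : ℝ → ℝ} {Λ : ℝ} (h0 : 0 ≤ Λ) (h2 : ∀ x, HasDerivAt f1 (f2 x) x)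
    (hL : ∀ a b, |f2 a - f2 b| ≤ Λ * |a - b|) (x t : ℝ) :
    |f1 (x + t) - f1 x - f2 x * t| ≤ Λ * |t| ^ 2 := by
  have h := seg_bound (g := fun s => f1 (x + s) - f2 x * s) (g' := fun s => f2 (x + s) - f2 x)
    (B := Λ * |t|) (t := t) (fun s => ?_) (fun s hs => ?_)
  · simp only [add_zero, mul_zero, sub_zero] at h
    calc |f1 (x + t) - f1 x - f2 x * t| = |f1 (x + t) - f2 x * t - f1 x| := by ring_nf
      _ ≤ Λ * |t| * |t| := h
      _ = _ := by ring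
  · have a1 : HasDerivAt (fun s => f1 (x + s)) (f2 (x + s)) s := by
      have := (h2 (x + s)).comp_const_add x s
      exact this
    have a2 : HasDerivAt (fun s : ℝ => f2 x * s) (f2 x) s := by
      simpa using (hasDerivAt_id s).const_mul (f2 x)
    exact a1.sub a2
  · have := hL (x + s) x
    rw [add_sub_cancel_left] at this
    exact this.trans (mul_le_mul_of_nonneg_left hs h0)

theorem taylor2 {f f1 f2 : ℝ → ℝ} {Λ : ℝ} (h0 : 0 ≤ Λ) (h1 : ∀ x, HasDerivAt f (f1 x) x)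
    (h2 : ∀ x, HasDerivAt f1 (f2 x) x) (hL : ∀ a b, |f2 a - f2 b| ≤ Λ * |a - b|) (x t : ℝ) :
    |f (x + t) - f x - f1 x * t - 1 / 2 * f2 x * t ^ 2| ≤ Λ * |t| ^ 3 := by
  have h := seg_bound (g := fun s => f (x + s) - f1 x * s - 1 / 2 * f2 x * s ^ 2)
    (g' := fun s => f1 (x + s) - f1 x - f2 x * s)
    (B := Λ * |t| ^ 2) (t := t) (fun s => ?_) (fun s hs => ?_)
  · simp only [add_zero, mul_zero, sub_zero, ne_eq, OfNat.ofNat_ne_zero, not_false_eq_true,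
      zero_pow] at h
    calc |f (x + t) - f x - f1 x * t - 1 / 2 * f2 x * t ^ 2|
        = |f (x + t) - f1 x * t - 1 / 2 * f2 x * t ^ 2 - f x| := by ring_nf
      _ ≤ Λ * |t| ^ 2 * |t| := h
      _ = _ := by ring
  · have a1 : HasDerivAt (fun s => f (x + s)) (f1 (x + s)) s := (h1 (x + s)).comp_const_add x s
    have a2 : HasDerivAt (fun s : ℝ => f1 x * s) (f1 x) s := by
      simpa using (hasDerivAt_id s).const_mul (f1 x)
    have a3 : HasDerivAt (fun s : ℝ => 1 / 2 * f2 x * s ^ 2) (f2 x * s) s := by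
      have := ((hasDerivAt_id s).pow 2).const_mul (1 / 2 * f2 x)
      refine this.congr_deriv ?_
      simp
      ring
    exact (a1.sub a2).sub a3
  · have := taylor1 h0 h2 hL x s
    refine this.trans (mul_le_mul_of_nonneg_left ?_ h0)
    exact pow_le_pow_left₀ (abs_nonneg _) hs 2

/-- the mean of the deviations tends to zero -/
theorem mean_zero {y : ℕ → ℝ} (h : Hyp y) (k : ℕ) :
    Tendsto (fun M : ℕ => (∑ n ∈ Icc 1 M, xx y n k) / M) atTop (𝓝 0) := by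
  have hshift : ∀ j : ℕ, Tendsto (fun M : ℕ => y (M + j) / M) atTop (𝓝 1) := by
    intro j
    have h1 : Tendsto (fun M : ℕ => y (M + j) / ((M + j : ℕ) : ℝ)) atTop (𝓝 1) :=
      h.lim.comp (tendsto_add_atTop_nat j)
    have h2 : Tendsto (fun M : ℕ => ((M + j : ℕ) : ℝ) / M) atTop (𝓝 1) := by
      have h3 : Tendsto (fun M : ℕ => 1 + (j : ℝ) / M) atTop (𝓝 (1 + 0)) :=
        tendsto_const_nhds.add (tendsto_const_nhds.div_atTop tendsto_natCast_atTop_atTop)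
      rw [add_zero] at h3
      refine h3.congr' ?_
      filter_upwards [eventually_ge_atTop 1] with M hM
      have : (M : ℝ) ≠ 0 := by positivity
      push_cast
      field_simp
    have h3 := h1.mul h2
    rw [mul_one] at h3
    refine h3.congr' ?_
    filter_upwards [eventually_ge_atTop 1] with M hM
    have : (M : ℝ) ≠ 0 := by positivity
    have : ((M + j : ℕ) : ℝ) ≠ 0 := by positivity
    field_simp
  induction k with
  | zero => simp [xx]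
  | succ k ih =>
    have h1 : Tendsto (fun M : ℕ => (y (M + (k + 1)) - y (k + 1)) / M - 1) atTop (𝓝 0) := by
      have h2 : Tendsto (fun M : ℕ => y (k + 1) / M) atTop (𝓝 0) :=
        tendsto_const_nhds.div_atTop tendsto_natCast_atTop_atTop
      have h3 := ((hshift (k + 1)).sub h2).sub_const 1
      simp only [sub_zero, sub_self] at h3
      refine h3.congr fun M => ?_
      ring
    have h2 := ih.add h1
    rw [add_zero] at h2
    refine h2.congr' ?_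
    filter_upwards [eventually_ge_atTop 1] with M hM
    have hM0 : (M : ℝ) ≠ 0 := by positivity
    have e : ∑ n ∈ Icc 1 M, xx y n (k + 1) = ∑ n ∈ Icc 1 M, xx y n k +
        (y (M + (k + 1)) - y (k + 1) - M) := by
      have e1 : ∀ n, xx y n (k + 1) = xx y n k + (y (n + (k + 1)) - y (n + k) - 1) := by
        intro n; unfold xx; push_cast; ring
      rw [sum_congr rfl fun n _ => e1 n, sum_add_distrib]
      congr 1
      clear hM hM0
      induction M with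
      | zero => simp
      | succ M ih =>
        rw [sum_Icc_succ_top (by omega), ih]
        have : M + 1 + k = M + (k + 1) := by omega
        rw [this]
        push_cast
        ring
    rw [e]
    field_simp

/-- the far pairs of indices do not contribute -/
theorem pp_expand {y : ℕ → ℝ} (h : Hyp y) : ∃ C : ℝ, 0 ≤ C ∧ ∀ A : ℕ, 1 ≤ A → ∀ (f : ℝ → ℝ)
    (F : ℝ), (∀ v, f (-v) = f v) → (∀ v, (A : ℝ) < |v| → f v = 0) → (∀ v, |f v| ≤ F) →
    ∀ M : ℕ, 2 * A ≤ M →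
    |PP y f M - M * f 0 - 2 * ∑ k ∈ Icc 1 (2 * A), ∑ n ∈ Icc 1 M, f (k + xx y n k)| ≤
      F * (C * M / (A : ℝ) ^ 4) + 8 * (A : ℝ) ^ 2 * F := by
  obtain ⟨C, hC, H⟩ := far_close h
  refine ⟨C, hC, fun A hA f F hev hsupp hF M hM => ?_⟩
  have hA0 : (0 : ℝ) < A := by exact_mod_cast hA
  have hF0 : 0 ≤ F := (abs_nonneg _).trans (hF 0)
  have e1 : PP y f M = M * f 0 + 2 * ∑ k ∈ Icc 1 M, ∑ n ∈ Icc 1 (M - k), f (k + xx y n k) := by
    unfold PP
    rw [double_sum (fun n m => f (y n - y m)) (fun n m => by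
      rw [← hev]; congr 1; ring)]
    congr 1
    · simp
    · congr 1
      refine sum_congr rfl fun k _ => sum_congr rfl fun n _ => ?_
      rw [← hev]; congr 1; unfold xx; ring
  have hsub : Icc 1 (2 * A) ⊆ Icc 1 M := Icc_subset_Icc le_rfl hM
  have e2 : ∑ k ∈ Icc 1 M, ∑ n ∈ Icc 1 (M - k), f (k + xx y n k) =
      ∑ k ∈ Icc 1 M \ Icc 1 (2 * A), ∑ n ∈ Icc 1 (M - k), f (k + xx y n k) +
      ∑ k ∈ Icc 1 (2 * A), ∑ n ∈ Icc 1 (M - k), f (k + xx y n k) := (sum_sdiff hsub).symm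
  -- far part
  have hfar : |2 * ∑ k ∈ Icc 1 M \ Icc 1 (2 * A), ∑ n ∈ Icc 1 (M - k), f (k + xx y n k)| ≤
      F * (C * M / (A : ℝ) ^ 4) := by
    have h1 := H A hA M
    rw [double_sum _ (fun n m => by rw [abs_sub_comm, abs_sub_comm (y n)])] at h1
    set g : ℕ → ℕ → ℝ := fun k n =>
      if 2 * (A : ℝ) < |((n + k : ℕ) : ℝ) - n| ∧ |y n - y (n + k)| ≤ A then (1 : ℝ) else 0 with hg
    have hg0 : ∀ k n, 0 ≤ g k n := by
      intro k n; simp only [hg]; split_ifs <;> norm_num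
    have h2 : ∀ k ∈ Icc 1 M \ Icc 1 (2 * A), |∑ n ∈ Icc 1 (M - k), f (k + xx y n k)| ≤
        F * ∑ n ∈ Icc 1 (M - k), g k n := by
      intro k hk
      rw [Finset.mem_sdiff, mem_Icc, mem_Icc] at hk
      have hkA : 2 * A < k := by omega
      have hkA' : 2 * (A : ℝ) < k := by exact_mod_cast hkA
      rw [mul_sum]
      refine (abs_sum_le_sum_abs _ _).trans (sum_le_sum fun n _ => ?_)
      by_cases hc : |y n - y (n + k)| ≤ A
      · have : g k n = 1 := by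
          simp only [hg]
          rw [if_pos]
          refine ⟨?_, hc⟩
          push_cast
          rw [show (n : ℝ) + k - n = k by ring, abs_of_pos (by linarith)]
          exact hkA'
        rw [this, mul_one]
        exact hF _
      · rw [hsupp, abs_zero]
        · exact mul_nonneg hF0 (hg0 k n)
        · rw [not_le] at hc
          have : (k : ℝ) + xx y n k = -(y n - y (n + k)) := by unfold xx; ring
          rw [this, abs_neg]
          exact hc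
    have h3 : ∑ k ∈ Icc 1 M \ Icc 1 (2 * A), ∑ n ∈ Icc 1 (M - k), g k n ≤
        ∑ k ∈ Icc 1 M, ∑ n ∈ Icc 1 (M - k), g k n :=
      sum_le_sum_of_subset_of_nonneg sdiff_subset fun k _ _ => sum_nonneg fun n _ => hg0 k n
    have h4 : 0 ≤ ∑ n ∈ Icc 1 M,
        (if 2 * (A : ℝ) < |(n : ℝ) - n| ∧ |y n - y n| ≤ A then (1 : ℝ) else 0) :=
      sum_nonneg fun n _ => by split_ifs <;> norm_num
    have h5 : 2 * ∑ k ∈ Icc 1 M, ∑ n ∈ Icc 1 (M - k), g k n ≤ C * M / (A : ℝ) ^ 4 := by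
      linarith
    rw [abs_mul, abs_of_pos (by norm_num : (0 : ℝ) < 2)]
    have h6 : |∑ k ∈ Icc 1 M \ Icc 1 (2 * A), ∑ n ∈ Icc 1 (M - k), f (k + xx y n k)| ≤
        F * ∑ k ∈ Icc 1 M, ∑ n ∈ Icc 1 (M - k), g k n := by
      refine (abs_sum_le_sum_abs _ _).trans ((sum_le_sum h2).trans ?_)
      rw [← mul_sum]
      exact mul_le_mul_of_nonneg_left h3 hF0
    nlinarith
  -- near part
  have hnear : |2 * (∑ k ∈ Icc 1 (2 * A), ∑ n ∈ Icc 1 (M - k), f (k + xx y n k) -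
      ∑ k ∈ Icc 1 (2 * A), ∑ n ∈ Icc 1 M, f (k + xx y n k))| ≤ 8 * (A : ℝ) ^ 2 * F := by
    rw [← sum_sub_distrib]
    have h1 : ∀ k ∈ Icc 1 (2 * A), |∑ n ∈ Icc 1 (M - k), f (k + xx y n k) -
        ∑ n ∈ Icc 1 M, f (k + xx y n k)| ≤ 2 * A * F := by
      intro k hk
      rw [mem_Icc] at hk
      have hs : Icc 1 (M - k) ⊆ Icc 1 M := Icc_subset_Icc le_rfl (by omega)
      rw [← sum_sdiff hs, sub_add_cancel_right, abs_neg]
      refine (abs_sum_le_sum_abs _ _).trans ((sum_le_sum fun n _ => hF _).trans ?_)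
      rw [sum_const, nsmul_eq_mul, card_sdiff_of_subset hs, Nat.card_Icc, Nat.card_Icc]
      apply mul_le_mul_of_nonneg_right _ hF0
      have : M + 1 - 1 - (M - k + 1 - 1) ≤ 2 * A := by omega
      exact_mod_cast this
    rw [abs_mul, abs_of_pos (by norm_num : (0 : ℝ) < 2)]
    have h2 := (abs_sum_le_sum_abs _ _).trans (sum_le_sum h1)
    rw [sum_const, nsmul_eq_mul, Nat.card_Icc] at h2
    push_cast at h2
    nlinarith
  have e3 : PP y f M - M * f 0 - 2 * ∑ k ∈ Icc 1 (2 * A), ∑ n ∈ Icc 1 M, f (k + xx y n k) =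
      2 * ∑ k ∈ Icc 1 M \ Icc 1 (2 * A), ∑ n ∈ Icc 1 (M - k), f (k + xx y n k) +
      2 * (∑ k ∈ Icc 1 (2 * A), ∑ n ∈ Icc 1 (M - k), f (k + xx y n k) -
      ∑ k ∈ Icc 1 (2 * A), ∑ n ∈ Icc 1 M, f (k + xx y n k)) := by
    rw [e1, e2]; ring
  rw [e3]
  exact (abs_add_le _ _).trans (add_le_add hfar hnear)

/-- the lattice sum -/
noncomputable def SA (A : ℕ) (f : ℝ → ℝ) : ℝ := f 0 + 2 * ∑ k ∈ Icc 1 (2 * A), f k

/-- `A log(2A+1)^p` -/
noncomputable def AL (A : ℕ) (p : ℕ) : ℝ := A * Real.log (2 * A + 1) ^ p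

theorem AL_nonneg (A p : ℕ) : 0 ≤ AL A p := by
  unfold AL
  have : 0 ≤ Real.log (2 * A + 1) := Real.log_nonneg (by
    have : (0 : ℝ) ≤ A := Nat.cast_nonneg A
    linarith)
  positivity

theorem moment_sum {y : ℕ → ℝ} (h : Hyp y) (p : ℕ) : ∃ C : ℝ, 0 ≤ C ∧ ∀ A : ℕ, 1 ≤ A →
    ∀ᶠ M : ℕ in atTop, ∑ k ∈ Icc 1 (2 * A), ∑ n ∈ Icc 1 M, |xx y n k| ^ p ≤ C * AL A p * M := by
  obtain ⟨C, hC, H⟩ := moment h p
  refine ⟨2 * C, by positivity, fun A hA => ?_⟩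
  have h1 : ∀ᶠ M : ℕ in atTop, ∀ k ∈ Icc 1 (2 * A),
      ∑ n ∈ Icc 1 M, |xx y n k| ^ p ≤ C * Real.log (k + 1) ^ p * M := by
    rw [eventually_all_finset]
    intro k hk
    exact H k (mem_Icc.1 hk).1
  filter_upwards [h1] with M hM
  have hM0 : (0 : ℝ) ≤ M := Nat.cast_nonneg M
  have h2 : ∀ k ∈ Icc 1 (2 * A), ∑ n ∈ Icc 1 M, |xx y n k| ^ p ≤
      C * Real.log (2 * A + 1) ^ p * M := by
    intro k hk
    refine (hM k hk).trans ?_
    apply mul_le_mul_of_nonneg_right _ hM0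
    apply mul_le_mul_of_nonneg_left _ hC
    rw [mem_Icc] at hk
    have hk0 : (0 : ℝ) ≤ k := Nat.cast_nonneg k
    have hkA : (k : ℝ) ≤ 2 * A := by exact_mod_cast hk.2
    apply pow_le_pow_left₀ (Real.log_nonneg (by linarith))
    exact Real.log_le_log (by linarith) (by linarith)
  refine (sum_le_sum h2).trans (le_of_eq ?_)
  rw [sum_const, nsmul_eq_mul, Nat.card_Icc, Nat.add_sub_cancel]
  unfold AL
  push_cast
  ring

/-- pair sums of Lipschitz functions -/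
theorem first_order {y : ℕ → ℝ} (h : Hyp y) : ∃ C : ℝ, 0 ≤ C ∧ ∀ A : ℕ, 1 ≤ A → ∀ (f : ℝ → ℝ)
    (F L : ℝ), (∀ v, f (-v) = f v) → (∀ v, (A : ℝ) < |v| → f v = 0) → (∀ v, |f v| ≤ F) →
    (∀ a b, |f a - f b| ≤ L * |a - b|) → 0 ≤ L → ∀ ε : ℝ, 0 < ε → ∀ᶠ M : ℕ in atTop,
    |PP y f M - SA A f * M| ≤ (C * (L * AL A 1 + F / (A : ℝ) ^ 4) + ε) * M := by
  obtain ⟨C, hC, H⟩ := pp_expand h
  obtain ⟨C', hC', H'⟩ := moment_sum h 1
  refine ⟨C + 2 * C', by positivity, fun A hA f F L hev hsupp hF hL hL0 ε hε => ?_⟩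
  have hA0 : (0 : ℝ) < A := by exact_mod_cast hA
  have hF0 : 0 ≤ F := (abs_nonneg _).trans (hF 0)
  have h1 : ∀ᶠ M : ℕ in atTop, 8 * (A : ℝ) ^ 2 * F ≤ ε * M :=
    (tendsto_natCast_atTop_atTop.const_mul_atTop hε).eventually_ge_atTop _
  filter_upwards [h1, H' A hA, eventually_ge_atTop (2 * A)] with M hM1 hM2 hM3
  have hM0 : (0 : ℝ) ≤ M := Nat.cast_nonneg M
  have h2 := H A hA f F hev hsupp hF M hM3
  have h3 : |2 * ∑ k ∈ Icc 1 (2 * A), ∑ n ∈ Icc 1 M, f (k + xx y n k) -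
      2 * ∑ k ∈ Icc 1 (2 * A), M * f k| ≤ 2 * (L * (C' * AL A 1 * M)) := by
    rw [← mul_sub, ← sum_sub_distrib, abs_mul, abs_of_pos (by norm_num : (0 : ℝ) < 2)]
    apply mul_le_mul_of_nonneg_left _ (by norm_num)
    refine le_trans ?_ (mul_le_mul_of_nonneg_left hM2 hL0)
    rw [mul_sum]
    refine (abs_sum_le_sum_abs _ _).trans (sum_le_sum fun k _ => ?_)
    have e : (M : ℝ) * f k = ∑ n ∈ Icc 1 M, f k := by
      rw [sum_const, nsmul_eq_mul, Nat.card_Icc, Nat.add_sub_cancel]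
    rw [e, ← sum_sub_distrib, mul_sum]
    refine (abs_sum_le_sum_abs _ _).trans (sum_le_sum fun n _ => ?_)
    have := hL (k + xx y n k) k
    rw [add_sub_cancel_left] at this
    rwa [pow_one]
  have e : PP y f M - SA A f * M =
      (PP y f M - M * f 0 - 2 * ∑ k ∈ Icc 1 (2 * A), ∑ n ∈ Icc 1 M, f (k + xx y n k)) +
      (2 * ∑ k ∈ Icc 1 (2 * A), ∑ n ∈ Icc 1 M, f (k + xx y n k) -
      2 * ∑ k ∈ Icc 1 (2 * A), M * f k) := by
    unfold SA
    rw [← mul_sum]; ring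
  rw [e]
  refine (abs_add_le _ _).trans ((add_le_add h2 h3).trans ?_)
  have h4 : F * (C * M / (A : ℝ) ^ 4) = C * (F / (A : ℝ) ^ 4) * M := by ring
  rw [h4]
  have h5 : 0 ≤ F / (A : ℝ) ^ 4 := by positivity
  have h6 := AL_nonneg A 1
  nlinarith [mul_nonneg (mul_nonneg hC (mul_nonneg hL0 h6)) hM0,
    mul_nonneg (mul_nonneg hC' h5) hM0]

/-- pair sums of smooth functions -/
theorem second_order {y : ℕ → ℝ} (h : Hyp y) : ∃ C : ℝ, 0 ≤ C ∧ ∀ A : ℕ, 1 ≤ A →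
    ∀ (f f1 f2 : ℝ → ℝ) (F Λ : ℝ), (∀ v, f (-v) = f v) → (∀ v, (A : ℝ) < |v| → f v = 0) →
    (∀ v, |f v| ≤ F) → (∀ x, HasDerivAt f (f1 x) x) → (∀ x, HasDerivAt f1 (f2 x) x) →
    (∀ a b, |f2 a - f2 b| ≤ Λ * |a - b|) → 0 ≤ Λ → ∀ ε : ℝ, 0 < ε → ∀ᶠ M : ℕ in atTop,
    |PP y f M - SA A f * M - ∑ k ∈ Icc 1 (2 * A), f2 k * ∑ n ∈ Icc 1 M, xx y n k ^ 2| ≤
      (C * (Λ * AL A 3 + F / (A : ℝ) ^ 4) + ε) * M := by
  obtain ⟨C, hC, H⟩ := pp_expand h
  obtain ⟨C', hC', H'⟩ := moment_sum h 3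
  refine ⟨C + 2 * C', by positivity, fun A hA f f1 f2 F Λ hev hsupp hF hf1 hf2 hL hL0 ε hε => ?_⟩
  have hA0 : (0 : ℝ) < A := by exact_mod_cast hA
  have hF0 : 0 ≤ F := (abs_nonneg _).trans (hF 0)
  have h1 : ∀ᶠ M : ℕ in atTop, 8 * (A : ℝ) ^ 2 * F ≤ ε / 2 * M :=
    (tendsto_natCast_atTop_atTop.const_mul_atTop (by positivity)).eventually_ge_atTop _
  have h1' : ∀ᶠ M : ℕ in atTop, |2 * ∑ k ∈ Icc 1 (2 * A), f1 k * ∑ n ∈ Icc 1 M, xx y n k| ≤
      ε / 2 * M := by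
    have h2 : Tendsto (fun M : ℕ => ∑ k ∈ Icc 1 (2 * A),
        2 * f1 k * ((∑ n ∈ Icc 1 M, xx y n k) / M)) atTop (𝓝 0) := by
      have : Tendsto (fun M : ℕ => ∑ k ∈ Icc 1 (2 * A),
        2 * f1 k * ((∑ n ∈ Icc 1 M, xx y n k) / M)) atTop
          (𝓝 (∑ k ∈ Icc 1 (2 * A), 2 * f1 (k : ℝ) * 0)) :=
        tendsto_finsetSum _ fun k _ => (mean_zero h k).const_mul _
      simpa using this
    have h3 := h2.abs
    rw [abs_zero] at h3
    filter_upwards [h3.eventually_le_const (show (0 : ℝ) < ε / 2 by positivity),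
      eventually_ge_atTop 1] with M hM hM1
    have hM0 : (0 : ℝ) < M := by exact_mod_cast hM1
    have e : 2 * ∑ k ∈ Icc 1 (2 * A), f1 k * ∑ n ∈ Icc 1 M, xx y n k =
        (∑ k ∈ Icc 1 (2 * A), 2 * f1 k * ((∑ n ∈ Icc 1 M, xx y n k) / M)) * M := by
      rw [sum_mul, mul_sum]
      refine sum_congr rfl fun k _ => ?_
      field_simp
    rw [e, abs_mul, abs_of_pos hM0]
    exact mul_le_mul_of_nonneg_right hM hM0.le
  filter_upwards [h1, h1', H' A hA, eventually_ge_atTop (2 * A)] with M hM1 hM1' hM2 hM3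
  have hM0 : (0 : ℝ) ≤ M := Nat.cast_nonneg M
  have h2 := H A hA f F hev hsupp hF M hM3
  have h3 : |2 * ∑ k ∈ Icc 1 (2 * A), ∑ n ∈ Icc 1 M, f (k + xx y n k) -
      (2 * ∑ k ∈ Icc 1 (2 * A), M * f k + 2 * ∑ k ∈ Icc 1 (2 * A), f1 k * ∑ n ∈ Icc 1 M, xx y n k +
        ∑ k ∈ Icc 1 (2 * A), f2 k * ∑ n ∈ Icc 1 M, xx y n k ^ 2)| ≤
      2 * (Λ * (C' * AL A 3 * M)) := by
    have e0 : 2 * ∑ k ∈ Icc 1 (2 * A), ∑ n ∈ Icc 1 M, f (k + xx y n k) -
      (2 * ∑ k ∈ Icc 1 (2 * A), M * f k + 2 * ∑ k ∈ Icc 1 (2 * A), f1 k * ∑ n ∈ Icc 1 M, xx y n k +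
        ∑ k ∈ Icc 1 (2 * A), f2 k * ∑ n ∈ Icc 1 M, xx y n k ^ 2) =
      2 * ∑ k ∈ Icc 1 (2 * A), ∑ n ∈ Icc 1 M,
        (f (k + xx y n k) - f k - f1 k * xx y n k - 1 / 2 * f2 k * xx y n k ^ 2) := by
      have e1 : ∀ k : ℕ, ∑ n ∈ Icc 1 M,
        (f (k + xx y n k) - f k - f1 k * xx y n k - 1 / 2 * f2 k * xx y n k ^ 2) =
        ∑ n ∈ Icc 1 M, f (k + xx y n k) - M * f k - f1 k * ∑ n ∈ Icc 1 M, xx y n k -
          1 / 2 * (f2 k * ∑ n ∈ Icc 1 M, xx y n k ^ 2) := by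
        intro k
        rw [sum_sub_distrib, sum_sub_distrib, sum_sub_distrib, ← mul_sum, ← mul_sum]
        have e : (M : ℝ) * f k = ∑ n ∈ Icc 1 M, f k := by
          rw [sum_const, nsmul_eq_mul, Nat.card_Icc, Nat.add_sub_cancel]
        rw [e]; ring
      simp_rw [e1]
      rw [sum_sub_distrib, sum_sub_distrib, sum_sub_distrib, ← mul_sum (s := Icc 1 (2 * A))
        (f := fun k : ℕ => f2 k * ∑ n ∈ Icc 1 M, xx y n k ^ 2)]
      ring
    rw [e0, abs_mul, abs_of_pos (by norm_num : (0 : ℝ) < 2)]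
    apply mul_le_mul_of_nonneg_left _ (by norm_num)
    refine le_trans ?_ (mul_le_mul_of_nonneg_left hM2 hL0)
    rw [mul_sum]
    refine (abs_sum_le_sum_abs _ _).trans (sum_le_sum fun k _ => ?_)
    rw [mul_sum]
    refine (abs_sum_le_sum_abs _ _).trans (sum_le_sum fun n _ => ?_)
    exact taylor2 hL0 hf1 hf2 hL k (xx y n k)
  have e : PP y f M - SA A f * M - ∑ k ∈ Icc 1 (2 * A), f2 k * ∑ n ∈ Icc 1 M, xx y n k ^ 2 =
      (PP y f M - M * f 0 - 2 * ∑ k ∈ Icc 1 (2 * A), ∑ n ∈ Icc 1 M, f (k + xx y n k)) +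
      (2 * ∑ k ∈ Icc 1 (2 * A), ∑ n ∈ Icc 1 M, f (k + xx y n k) -
      (2 * ∑ k ∈ Icc 1 (2 * A), M * f k + 2 * ∑ k ∈ Icc 1 (2 * A), f1 k * ∑ n ∈ Icc 1 M, xx y n k +
        ∑ k ∈ Icc 1 (2 * A), f2 k * ∑ n ∈ Icc 1 M, xx y n k ^ 2)) +
      2 * ∑ k ∈ Icc 1 (2 * A), f1 k * ∑ n ∈ Icc 1 M, xx y n k := by
    unfold SA
    rw [← mul_sum (s := Icc 1 (2 * A)) (f := fun k : ℕ => f k)]; ring
  rw [e]
  refine (abs_add_le _ _).trans ((add_le_add ((abs_add_le _ _).trans (add_le_add h2 h3)) hM1').trans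
    ?_)
  have h4 : F * (C * M / (A : ℝ) ^ 4) = C * (F / (A : ℝ) ^ 4) * M := by ring
  rw [h4]
  have h5 : 0 ≤ F / (A : ℝ) ^ 4 := by positivity
  have h6 := AL_nonneg A 3
  nlinarith [mul_nonneg (mul_nonneg hC (mul_nonneg hL0 h6)) hM0,
    mul_nonneg (mul_nonneg hC' h5) hM0]

end Pool.Agent.Helper37.GL
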