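import Pool.Agent.Helper37.GL.Mont

/-! The mean of the product of two linear statistics, in terms of the Fourier transform. -/

open Finset Filter Topology MeasureTheory
open Pool.Agent.Y748 Pool.Agent.Y748.SR

set_option autoImplicit false

namespace Pool.Agent.Helper37.GL

theorem A_le_AL {A : ℕ} (hA : 1 ≤ A) : (A : ℝ) ≤ AL A 3 := by
  unfold AL
  have hA0 : (1 : ℝ) ≤ A := by exact_mod_cast hA
  have h1 : 1 ≤ Real.log (2 * A + 1) := by
    rw [Real.le_log_iff_exp_le (by linarith)]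
    have := Real.exp_one_lt_d9
    linarith
  exact le_mul_of_one_le_right (by linarith) (one_le_pow₀ h1)

theorem AL_one_three {A : ℕ} (hA : 1 ≤ A) : AL A 1 ≤ AL A 3 := by
  unfold AL
  have hA0 : (1 : ℝ) ≤ A := by exact_mod_cast hA
  have h1 : 1 ≤ Real.log (2 * A + 1) := by
    rw [Real.le_log_iff_exp_le (by linarith)]
    have := Real.exp_one_lt_d9
    linarith
  apply mul_le_mul_of_nonneg_left _ (by linarith)
  exact pow_le_pow_right₀ h1 (by norm_num)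

theorem cut_one {K : ℕ} {v : ℝ} (hv : |v| ≤ K) : cut K v = 1 := by
  unfold cut
  rw [min_eq_left (by linarith), max_eq_right zero_le_one]

/-- the weight of the spectrum -/
noncomputable def spec (f χ : ℝ → ℝ) : ℝ := ∫ α in (-1 : ℝ)..1, |α| * (fh f α * χ α)

/-- Montgomery's theorem for smooth functions on long scales -/
theorem mont {y : ℕ → ℝ} (h : Hyp y) {χ w : ℝ → ℝ} (hk : KP χ w) : ∃ C : ℝ, 0 ≤ C ∧
    ∀ A : ℕ, 1 ≤ A → ∀ (f f1 f2 : ℝ → ℝ) (F Λ : ℝ), PF f f1 f2 A F Λ → ∀ ε : ℝ, 0 < ε →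
    ∀ᶠ M : ℕ in atTop, |PP y f M - SA A f * M - spec f χ * M| ≤
      (C * (Λ * AL A 3 + F / (A : ℝ) ^ 4) + ε) * M := by
  obtain ⟨C1, hC1, H1⟩ := first_order h
  obtain ⟨C2, hC2, H2⟩ := window h
  obtain ⟨C3, hC3, H3⟩ := decay h
  obtain ⟨K, hK0, hK⟩ := hk.dec
  set m2 : ℝ := ∫ u, u ^ 2 * w u with hm2
  set m3 : ℝ := ∫ u, |u| ^ 3 * |w u| with hm3
  have hm30 : 0 ≤ m3 := integral_nonneg fun u => by positivity
  refine ⟨2 * m3 * C2 + 64 * K * C3 + |m2| * (C1 * 4 + 5) + 5, by positivity,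
    fun A hA f f1 f2 F Λ hf ε hε => ?_⟩
  have hA1 : (1 : ℝ) ≤ A := by exact_mod_cast hA
  have hΛ := hf.l0
  have hF := hf.F0
  obtain ⟨CR, hCR0, hCR⟩ := h.pair _ (1 / 2) (by norm_num) (by norm_num) (tfn hk hf hA)
  obtain ⟨N0, hN0⟩ := exists_nat_gt (CR / (ε / 4))
  set Q : ℕ := max (2 * A) N0 with hQ
  have hQA : 2 * A ≤ Q := le_max_left _ _
  have hQA' : 2 * (A : ℝ) ≤ Q := by exact_mod_cast hQA
  have hQN : (N0 : ℝ) ≤ Q := by exact_mod_cast le_max_right _ _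
  have hQ1 : 1 ≤ Q := by omega
  have hQ0 : (0 : ℝ) < Q := by exact_mod_cast hQ1
  have hCQ : CR / Q ≤ ε / 4 := by
    rw [div_le_iff₀ hQ0]
    rw [div_lt_iff₀ (by positivity)] at hN0
    nlinarith
  have e6 := H1 A hA f2 (Λ * (3 * A)) Λ hf.ev2 (fun v hv => hf.z2 hv) (hf.bd2 hA) hf.lip hΛ
    (ε / (4 * (|m2| + 1))) (by positivity)
  filter_upwards [hCR Q hQ1 (ε / 4) (by positivity), e6] with M hM1 hM2
  have hM0 : (0 : ℝ) ≤ M := Nat.cast_nonneg M
  set R : ℝ → ℝ := fun α => fh f α * χ α with hR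
  -- the pointwise bound
  have hpt : ∀ v, |rr R v * cut Q v - f v - 1 / 2 * m2 * f2 v| ≤
      Λ * m3 * (if |v| ≤ ((2 * A : ℕ) : ℝ) then 1 else 0) +
        64 * K * F * (if 2 * (A : ℝ) ≤ |v| then 1 / |v| ^ 5 else 0) := by
    intro v
    have hp1 : 0 ≤ Λ * m3 := by positivity
    have hp2 : 0 ≤ 64 * K * F := by positivity
    rcases lt_or_ge |v| (2 * A) with hv | hv
    · rw [cut_one (by linarith), mul_one, if_pos (by push_cast; exact hv.le), if_neg (by linarith),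
        mul_zero, add_zero, mul_one]
      exact near hk hf v
    · rw [hf.supp v (by linarith), hf.z2 (x := v) (by linarith), mul_zero, sub_zero, sub_zero,
        if_pos hv]
      have h1 := far hk hf hA hK0 hK v hv
      rw [abs_mul, abs_of_nonneg (Pool.Agent.Y587.SR.cut_nonneg Q v)]
      have h2 : |rr R v| * cut Q v ≤ |rr R v| :=
        mul_le_of_le_one_right (abs_nonneg _) (Pool.Agent.Y587.SR.cut_le_one Q v)
      refine h2.trans (h1.trans ?_)
      have : 0 ≤ Λ * m3 * (if |v| ≤ ((2 * A : ℕ) : ℝ) then 1 else 0) := by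
        split_ifs <;> simp [hp1]
      linarith
  have hsum : |PP y (fun v => rr R v * cut Q v) M - PP y f M - 1 / 2 * m2 * PP y f2 M| ≤
      Λ * m3 * (C2 * (2 * A : ℕ) * M) + 64 * K * F * (C3 * M / (A : ℝ) ^ 4) := by
    have e1 : PP y (fun v => rr R v * cut Q v) M - PP y f M - 1 / 2 * m2 * PP y f2 M =
        ∑ n ∈ Icc 1 M, ∑ j ∈ Icc 1 M, (rr R (y n - y j) * cut Q (y n - y j) - f (y n - y j) -
          1 / 2 * m2 * f2 (y n - y j)) := by
      unfold PP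
      simp_rw [sum_sub_distrib, mul_sum]
    rw [e1]
    refine (abs_sum_le_sum_abs _ _).trans ((sum_le_sum fun n _ =>
      (abs_sum_le_sum_abs _ _).trans (sum_le_sum fun j _ => hpt (y n - y j))).trans ?_)
    simp_rw [sum_add_distrib, ← mul_sum]
    refine add_le_add ?_ ?_
    · exact mul_le_mul_of_nonneg_left (H2 (2 * A) (by omega) M) (by positivity)
    · exact mul_le_mul_of_nonneg_left (H3 A hA M) (by positivity)
  -- the main term
  have hmt : mt R = (∫ t, f t) + spec f χ := by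
    unfold Pool.Agent.Y748.SR.mt spec
    rw [hR]
    have : fh f 0 * χ 0 = ∫ t, f t := by
      rw [hk.one, mul_one]
      unfold fh
      simp
    show fh f 0 * χ 0 + _ = _
    rw [this]
  have hSA := SA_f hf
  have hSA2 := SA_f2 hf
  rw [hmt] at hM1
  have hAL := A_le_AL hA
  have hAL1 := AL_one_three hA
  have hALn := AL_nonneg A 3
  -- the second derivative
  have h7 : |PP y f2 M| ≤ ((C1 * 4 + 5) * (Λ * AL A 3) + ε / (4 * (|m2| + 1))) * M := by
    have b1 : |PP y f2 M| ≤ |PP y f2 M - SA A f2 * M| + |SA A f2| * M := by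
      have := abs_add_le (PP y f2 M - SA A f2 * M) (SA A f2 * M)
      rw [sub_add_cancel, abs_mul (SA A f2), abs_of_nonneg hM0] at this
      exact this
    have b2 : Λ * (3 * A) / (A : ℝ) ^ 4 ≤ 3 * (Λ * AL A 3) := by
      have : Λ * (3 * A) / (A : ℝ) ^ 4 ≤ Λ * (3 * A) :=
        div_le_self (by positivity) (one_le_pow₀ hA1)
      nlinarith [mul_le_mul_of_nonneg_left hAL hΛ]
    have b3 : Λ * AL A 1 ≤ Λ * AL A 3 := mul_le_mul_of_nonneg_left hAL1 hΛ
    have b4 : C1 * (Λ * AL A 1 + Λ * (3 * A) / (A : ℝ) ^ 4) ≤ C1 * (4 * (Λ * AL A 3)) :=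
      mul_le_mul_of_nonneg_left (by linarith) hC1
    have b5 : |SA A f2| ≤ 5 * (Λ * AL A 3) := by
      refine hSA2.trans ?_
      nlinarith [mul_le_mul_of_nonneg_left hAL hΛ, mul_le_mul_of_nonneg_left hA1 hΛ]
    have b6 := mul_le_mul_of_nonneg_right b4 hM0
    have b7 := mul_le_mul_of_nonneg_right b5 hM0
    nlinarith
  have hSA5 : |SA A f - ∫ t, f t| ≤ 5 * (Λ * AL A 3) := by
    refine hSA.trans ?_
    nlinarith [mul_le_mul_of_nonneg_left hAL hΛ, mul_le_mul_of_nonneg_left hA1 hΛ]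
  have e : PP y f M - SA A f * M - spec f χ * M =
      (PP y (fun v => rr R v * cut Q v) M - ((∫ t, f t) + spec f χ) * M) -
      (PP y (fun v => rr R v * cut Q v) M - PP y f M - 1 / 2 * m2 * PP y f2 M) -
      1 / 2 * m2 * PP y f2 M - (SA A f - ∫ t, f t) * M := by ring
  rw [e]
  have t1 := abs_sub ((PP y (fun v => rr R v * cut Q v) M - ((∫ t, f t) + spec f χ) * M) -
      (PP y (fun v => rr R v * cut Q v) M - PP y f M - 1 / 2 * m2 * PP y f2 M) -
      1 / 2 * m2 * PP y f2 M) ((SA A f - ∫ t, f t) * M)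
  have t2 := abs_sub ((PP y (fun v => rr R v * cut Q v) M - ((∫ t, f t) + spec f χ) * M) -
      (PP y (fun v => rr R v * cut Q v) M - PP y f M - 1 / 2 * m2 * PP y f2 M))
      (1 / 2 * m2 * PP y f2 M)
  have t3 := abs_sub (PP y (fun v => rr R v * cut Q v) M - ((∫ t, f t) + spec f χ) * M)
      (PP y (fun v => rr R v * cut Q v) M - PP y f M - 1 / 2 * m2 * PP y f2 M)
  have t4 : |1 / 2 * m2 * PP y f2 M| ≤
      |m2| * (((C1 * 4 + 5) * (Λ * AL A 3) + ε / (4 * (|m2| + 1))) * M) := by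
    rw [abs_mul, abs_mul, abs_of_pos (show (0 : ℝ) < 1 / 2 by norm_num)]
    have := mul_le_mul_of_nonneg_left h7 (abs_nonneg m2)
    have h9 := mul_nonneg (abs_nonneg m2) (abs_nonneg (PP y f2 M))
    nlinarith
  have t5 : |(SA A f - ∫ t, f t) * M| ≤ 5 * (Λ * AL A 3) * M := by
    rw [abs_mul, abs_of_nonneg hM0]
    exact mul_le_mul_of_nonneg_right hSA5 hM0
  have t6 : |m2| * (ε / (4 * (|m2| + 1))) ≤ ε / 4 := by
    rw [mul_div_assoc', div_le_div_iff₀ (by positivity) (by norm_num)]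
    nlinarith [abs_nonneg m2]
  have t7 := mul_le_mul_of_nonneg_right t6 hM0
  have t8 : Λ * m3 * (C2 * (2 * A : ℕ) * M) ≤ 2 * m3 * C2 * (Λ * AL A 3) * M := by
    push_cast
    have := mul_le_mul_of_nonneg_left hAL (by positivity : 0 ≤ 2 * m3 * C2 * Λ * M)
    nlinarith
  have t9 : 64 * K * F * (C3 * M / (A : ℝ) ^ 4) = 64 * K * C3 * (F / (A : ℝ) ^ 4) * M := by ring
  rw [t9] at hsum
  have t10 := mul_le_mul_of_nonneg_right hCQ hM0
  have hG : 0 ≤ F / (A : ℝ) ^ 4 := by positivity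
  have hL : 0 ≤ Λ * AL A 3 := by positivity
  set G := F / (A : ℝ) ^ 4 with hGd
  set LL := Λ * AL A 3 with hLd
  have u1 : 0 ≤ (2 * m3 * C2 + |m2| * (C1 * 4 + 5) + 5) * G * M := by positivity
  have u2 : 0 ≤ 64 * K * C3 * LL * M := by positivity
  have hfin : (ε / 4 + ε / 4) * M + (2 * m3 * C2 * LL * M + 64 * K * C3 * G * M) +
      (|m2| * (C1 * 4 + 5) * LL * M + ε / 4 * M) + 5 * LL * M ≤
      ((2 * m3 * C2 + 64 * K * C3 + |m2| * (C1 * 4 + 5) + 5) * (LL + G) + ε) * M := by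
    have e9 : ((2 * m3 * C2 + 64 * K * C3 + |m2| * (C1 * 4 + 5) + 5) * (LL + G) + ε) * M -
      ((ε / 4 + ε / 4) * M + (2 * m3 * C2 * LL * M + 64 * K * C3 * G * M) +
      (|m2| * (C1 * 4 + 5) * LL * M + ε / 4 * M) + 5 * LL * M) =
      (2 * m3 * C2 + |m2| * (C1 * 4 + 5) + 5) * G * M + 64 * K * C3 * LL * M + ε / 4 * M := by ring
    have : 0 ≤ ε / 4 * M := by positivity
    linarith
  refine le_trans ?_ hfin
  have s1 : |PP y (fun v => rr R v * cut Q v) M - ((∫ t, f t) + spec f χ) * M| ≤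
      (ε / 4 + ε / 4) * M := by
    refine hM1.trans ?_
    nlinarith
  have s2 : |PP y (fun v => rr R v * cut Q v) M - PP y f M - 1 / 2 * m2 * PP y f2 M| ≤
      2 * m3 * C2 * LL * M + 64 * K * C3 * G * M := by linarith
  have s3 : |1 / 2 * m2 * PP y f2 M| ≤ |m2| * (C1 * 4 + 5) * LL * M + ε / 4 * M := by
    refine t4.trans ?_
    nlinarith
  linarith

/-- the mean of the product of two linear statistics, in terms of the Fourier transform -/
theorem main_spec {y : ℕ → ℝ} (h : Hyp y) {χ w : ℝ → ℝ} (hk : KP χ w) : ∃ C : ℝ, 0 ≤ C ∧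
    ∀ A : ℕ, 1 ≤ A → ∀ (B1 B1' B2 B2' : ℝ → ℝ) (L : ℕ) (m1 m2 F : ℝ), BF B1 B1' L m1 →
    BF B2 B2' L m2 → (∀ x, ff B1 B2 (-x) = ff B1 B2 x) →
    (∀ s t, B1 s ≠ 0 → B2 t ≠ 0 → |s - t| ≤ A) → (∀ x, |ff B1 B2 x| ≤ F) →
    ∀ ε : ℝ, 0 < ε → ∀ᶠ M : ℕ in atTop,
    |∑ n ∈ Icc 1 M, TT y B1 L n * TT y B2 L n - spec (ff B1 B2) χ * M| ≤
      (C * (m2 * (∫ t, |B1' t|) * AL A 3 + F / (A : ℝ) ^ 4) + ε) * M := by
  obtain ⟨C1, hC1, H1⟩ := main_quad h
  obtain ⟨C2, hC2, H2⟩ := mont h hk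
  refine ⟨C1 + C2, by positivity, fun A hA B1 B1' B2 B2' L m1 m2 F h1 h2 hev hs hF ε hε => ?_⟩
  have hN : 0 ≤ ∫ t, |B1' t| := integral_nonneg fun t => abs_nonneg _
  have hm := h2.m0
  have hpf : PF (ff B1 B2) (fun x => ∫ t, B1 t * B2' (t + x)) (f2 B1' B2') A F
      (m2 * ∫ t, |B1' t|) :=
    ⟨hev, fun v hv => ff_supp hs hv, hF, ff_deriv h1 h2, ff_deriv2 h1 h2, f2_lip h1 h2,
      by positivity⟩
  filter_upwards [H1 A hA B1 B1' B2 B2' L m1 m2 F h1 h2 hev hs hF (ε / 2) (by positivity),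
    H2 A hA _ _ _ F _ hpf (ε / 2) (by positivity)] with M hM1 hM2
  have e : ∑ n ∈ Icc 1 M, TT y B1 L n * TT y B2 L n - spec (ff B1 B2) χ * M =
      (∑ n ∈ Icc 1 M, TT y B1 L n * TT y B2 L n - (PP y (ff B1 B2) M - SA A (ff B1 B2) * M)) +
      (PP y (ff B1 B2) M - SA A (ff B1 B2) * M - spec (ff B1 B2) χ * M) := by ring
  rw [e]
  refine (abs_add_le _ _).trans ((add_le_add hM1 hM2).trans (le_of_eq ?_))
  ring

end Pool.Agent.Helper37.GL
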