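import Pool.Agent.Helper37.GL.Fin

/-! The cosine transform of a correlation. -/

open Finset Filter Topology MeasureTheory
open Pool.Agent.Y748 Pool.Agent.Y748.SR
open scoped FourierTransform

set_option autoImplicit false

namespace Pool.Agent.Helper37.GL

/-- the sine transform -/
noncomputable def sh (f : ℝ → ℝ) (α : ℝ) : ℝ := ∫ u, f u * Real.sin (2 * Real.pi * u * α)

theorem four_sq {b : ℝ → ℝ} (hb : Integrable b) (τ : ℝ) :
    ‖𝓕 (fun x => (b x : ℂ)) τ‖ ^ 2 = fh b τ ^ 2 + sh b τ ^ 2 := by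
  have hb' : Integrable fun x => (b x : ℂ) := hb.ofReal
  have hi : Integrable fun v : ℝ => Complex.exp (↑(-2 * Real.pi * v * τ) * Complex.I) * (b v : ℂ) := by
    refine hb'.bdd_mul (c := 1) (Continuous.aestronglyMeasurable (by fun_prop)) ?_
    filter_upwards with v
    rw [Complex.norm_exp_ofReal_mul_I]
  have h0 : 𝓕 (fun x => (b x : ℂ)) τ =
      ∫ v : ℝ, Complex.exp (↑(-2 * Real.pi * v * τ) * Complex.I) * (b v : ℂ) := by
    rw [Real.fourier_real_eq_integral_exp_smul]
    rfl
  have hre : (𝓕 (fun x => (b x : ℂ)) τ).re = fh b τ := by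
    rw [h0]
    have h1 := integral_re (𝕜 := ℂ) hi
    simp only [RCLike.re_to_complex] at h1
    rw [← h1]
    unfold fh
    refine integral_congr_ae ?_
    filter_upwards with v
    rw [Complex.mul_re, Complex.exp_ofReal_mul_I_re, Complex.ofReal_re, Complex.ofReal_im,
      mul_zero, sub_zero, mul_comm]
    congr 1
    rw [← Real.cos_neg]
    congr 1
    ring
  have him : (𝓕 (fun x => (b x : ℂ)) τ).im = -sh b τ := by
    rw [h0]
    have h1 := integral_im (𝕜 := ℂ) hi
    simp only [RCLike.im_to_complex] at h1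
    rw [← h1]
    unfold sh
    rw [← integral_neg]
    refine integral_congr_ae ?_
    filter_upwards with v
    rw [Complex.mul_im, Complex.exp_ofReal_mul_I_im, Complex.ofReal_re, Complex.ofReal_im,
      mul_zero, zero_add, mul_comm, ← mul_neg]
    congr 1
    rw [← Real.sin_neg]
    congr 1
    ring
  rw [← Complex.normSq_eq_norm_sq, Complex.normSq_apply, hre, him]
  ring

theorem trig_int {g : ℝ → ℝ} (hg : Integrable g) (α : ℝ) :
    (Integrable fun u => g u * Real.cos (2 * Real.pi * u * α)) ∧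
    (Integrable fun u => g u * Real.sin (2 * Real.pi * u * α)) := by
  constructor
  · refine hg.mul_bdd (c := 1) (Continuous.aestronglyMeasurable (by fun_prop)) ?_
    filter_upwards with u
    exact Real.abs_cos_le_one _
  · refine hg.mul_bdd (c := 1) (Continuous.aestronglyMeasurable (by fun_prop)) ?_
    filter_upwards with u
    exact Real.abs_sin_le_one _

theorem fh_ff {B1 B1' B2 B2' : ℝ → ℝ} {L : ℕ} {m1 m2 : ℝ} (h1 : BF B1 B1' L m1)
    (h2 : BF B2 B2' L m2) (α : ℝ) :
    fh (ff B1 B2) α = fh B1 α * fh B2 α + sh B1 α * sh B2 α := by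
  have hL0 : (0 : ℝ) ≤ L := Nat.cast_nonneg L
  have e1 : fh (ff B1 B2) α = ∫ x, ∫ t, B1 t * B2 (t + x) * Real.cos (2 * Real.pi * x * α) := by
    unfold fh ff
    refine integral_congr_ae ?_
    filter_upwards with x
    rw [← integral_mul_const]
  have hint : Integrable (fun p : ℝ × ℝ => B1 p.2 * B2 (p.2 + p.1) *
      Real.cos (2 * Real.pi * p.1 * α)) ((volume : Measure ℝ).prod volume) := by
    have hc : Continuous (fun p : ℝ × ℝ => B1 p.2 * B2 (p.2 + p.1) *
      Real.cos (2 * Real.pi * p.1 * α)) := by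
      refine ((h1.cont.comp continuous_snd).mul (h2.cont.comp (continuous_snd.add
        continuous_fst))).mul (by fun_prop)
    refine hc.integrable_of_hasCompactSupport ?_
    refine HasCompactSupport.of_support_subset_isCompact
      ((isCompact_Icc (a := -(L : ℝ)) (b := L)).prod (isCompact_Icc (a := (0 : ℝ)) (b := L))) ?_
    intro p hp
    rw [Function.mem_support] at hp
    have a1 : B1 p.2 ≠ 0 := by
      intro h; rw [h] at hp; simp at hp
    have a2 : B2 (p.2 + p.1) ≠ 0 := by
      intro h; rw [h] at hp; simp at hp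
    have b1 : 0 < p.2 := by
      by_contra h; exact a1 (h1.s0 _ (not_lt.1 h))
    have b2 : p.2 < L := by
      by_contra h; exact a1 (h1.s1 _ (not_lt.1 h))
    have b3 : 0 < p.2 + p.1 := by
      by_contra h; exact a2 (h2.s0 _ (not_lt.1 h))
    have b4 : p.2 + p.1 < L := by
      by_contra h; exact a2 (h2.s1 _ (not_lt.1 h))
    rw [Set.mem_prod, Set.mem_Icc, Set.mem_Icc]
    refine ⟨⟨?_, ?_⟩, ?_, ?_⟩ <;> linarith
  have e2 : ∫ x, ∫ t, B1 t * B2 (t + x) * Real.cos (2 * Real.pi * x * α) =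
      ∫ t, ∫ x, B1 t * B2 (t + x) * Real.cos (2 * Real.pi * x * α) := integral_integral_swap hint
  have e3 : ∀ t, ∫ x, B1 t * B2 (t + x) * Real.cos (2 * Real.pi * x * α) =
      B1 t * Real.cos (2 * Real.pi * t * α) * fh B2 α +
        B1 t * Real.sin (2 * Real.pi * t * α) * sh B2 α := by
    intro t
    have h3 := integral_add_left_eq_self (μ := (volume : Measure ℝ))
      (fun s => B1 t * B2 s * Real.cos (2 * Real.pi * (s - t) * α)) t
    have h4 : ∫ x, B1 t * B2 (t + x) * Real.cos (2 * Real.pi * x * α) =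
        ∫ x, B1 t * B2 (t + x) * Real.cos (2 * Real.pi * (t + x - t) * α) := by
      refine integral_congr_ae ?_
      filter_upwards with x
      rw [add_sub_cancel_left]
    rw [h4, h3]
    unfold fh sh
    rw [← integral_const_mul, ← integral_const_mul, ← integral_add
      ((trig_int h2.int α).1.const_mul _) ((trig_int h2.int α).2.const_mul _)]
    refine integral_congr_ae ?_
    filter_upwards with s
    have h5 := Real.cos_sub (2 * Real.pi * s * α) (2 * Real.pi * t * α)
    rw [show 2 * Real.pi * (s - t) * α = 2 * Real.pi * s * α - 2 * Real.pi * t * α by ring, h5]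
    ring
  rw [e1, e2]
  simp_rw [e3]
  rw [integral_add ((trig_int h1.int α).1.mul_const _) ((trig_int h1.int α).2.mul_const _),
    integral_mul_const, integral_mul_const]
  rfl

/-- dilations -/
theorem fh_dil (b : ℝ → ℝ) {r : ℝ} (hr : 0 < r) (α : ℝ) :
    fh (fun x => b (x / r)) α = r * fh b (r * α) := by
  unfold fh
  have h := Measure.integral_comp_div (fun u => b u * Real.cos (2 * Real.pi * u * (r * α))) r
  rw [abs_of_pos hr, smul_eq_mul] at h
  rw [← h]
  refine integral_congr_ae ?_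
  filter_upwards with u
  congr 2
  field_simp

theorem sh_dil (b : ℝ → ℝ) {r : ℝ} (hr : 0 < r) (α : ℝ) :
    sh (fun x => b (x / r)) α = r * sh b (r * α) := by
  unfold sh
  have h := Measure.integral_comp_div (fun u => b u * Real.sin (2 * Real.pi * u * (r * α))) r
  rw [abs_of_pos hr, smul_eq_mul] at h
  rw [← h]
  refine integral_congr_ae ?_
  filter_upwards with u
  congr 2
  field_simp

/-- decay of the Fourier transform -/
theorem four_decay {b : ℝ → ℝ} (hb : ContDiff ℝ 2 b) (hc : HasCompactSupport b) :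
    ∃ C : ℝ, 0 ≤ C ∧ ∀ τ, (1 + τ ^ 2) * ‖𝓕 (fun x => (b x : ℂ)) τ‖ ≤ C := by
  set g : ℝ → ℂ := fun x => (b x : ℂ) with hg
  have hgc : HasCompactSupport g := hc.comp_left (g := fun x : ℝ => (x : ℂ)) (by simp)
  have hgd : ContDiff ℝ ((2 : ℕ∞) : WithTop ℕ∞) g := by
    have : ContDiff ℝ 2 g := Complex.ofRealCLM.contDiff.comp hb
    exact_mod_cast this
  have hint : ∀ n : ℕ, (n : ℕ∞) ≤ 2 → Integrable (iteratedDeriv n g) := by
    intro n hn
    have h1 : Continuous (iteratedDeriv n g) := hgd.continuous_iteratedDeriv n (by exact_mod_cast hn)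
    refine h1.integrable_of_hasCompactSupport ?_
    have h2 := hgc.iteratedFDeriv (𝕜 := ℝ) n
    refine h2.mono ?_
    intro x hx
    rw [Function.mem_support] at hx ⊢
    intro h
    apply hx
    rw [iteratedDeriv, h]
    rfl
  have h2 := Real.fourier_iteratedDeriv hgd hint (n := 2) (by norm_num)
  have hn1 : ∀ (u : ℝ → ℂ) (τ : ℝ), ‖𝓕 u τ‖ ≤ ∫ v, ‖u v‖ := by
    intro u τ
    rw [Real.fourier_eq']
    refine (norm_integral_le_integral_norm _).trans (le_of_eq ?_)
    refine integral_congr_ae ?_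
    filter_upwards with v
    rw [norm_smul]
    have : ‖Complex.exp (↑(-2 * Real.pi * (inner ℝ v τ)) * Complex.I)‖ = 1 :=
      Complex.norm_exp_ofReal_mul_I _
    rw [this, one_mul]
  refine ⟨(∫ v, ‖g v‖) + ∫ v, ‖iteratedDeriv 2 g v‖, by
    have a1 : 0 ≤ ∫ v, ‖g v‖ := integral_nonneg fun v => norm_nonneg _
    have a2 : 0 ≤ ∫ v, ‖iteratedDeriv 2 g v‖ := integral_nonneg fun v => norm_nonneg _
    linarith, fun τ => ?_⟩
  have h3 := hn1 g τ
  have h4 := hn1 (iteratedDeriv 2 g) τ
  rw [h2] at h4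
  have h5 : ‖(2 * (Real.pi : ℂ) * Complex.I * τ) ^ 2 • 𝓕 g τ‖ = (2 * Real.pi) ^ 2 * τ ^ 2 * ‖𝓕 g τ‖ := by
    rw [norm_smul, norm_pow, norm_mul, norm_mul, norm_mul, Complex.norm_I, Complex.norm_real,
      Complex.norm_real, Real.norm_eq_abs, Real.norm_eq_abs, abs_of_pos Real.pi_pos,
      show ‖(2 : ℂ)‖ = 2 by norm_num, ← sq_abs τ]
    ring
  have h4' : (2 * Real.pi) ^ 2 * τ ^ 2 * ‖𝓕 g τ‖ ≤ ∫ v, ‖iteratedDeriv 2 g v‖ := by
    rw [← h5]; exact h4
  have h6 : 1 ≤ (2 * Real.pi) ^ 2 := by nlinarith [Real.pi_gt_three]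
  have h7 : 0 ≤ τ ^ 2 * ‖𝓕 g τ‖ := by positivity
  nlinarith

end Pool.Agent.Helper37.GL
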