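import Pool.Agent.Helper37.GL.Four

/-! Rigidity of the gap sequence. -/

open Finset Filter Topology MeasureTheory
open Pool.Agent.Y748 Pool.Agent.Y748.SR
open scoped FourierTransform SchwartzMap ContDiff

set_option autoImplicit false

namespace Pool.Agent.Helper37.GL

/-- the bump -/
noncomputable def be : ContDiffBump (0 : ℝ) := ⟨1, 2, by norm_num, by norm_num⟩

theorem be_decay : ∃ K : ℝ, 0 ≤ K ∧ ∀ v, |fh be v| * (1 + |v|) ^ 6 ≤ K := by
  set b : ContDiffBump (0 : ℝ) := be with hbdef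
  have hb1 : ContDiff ℝ ∞ (fun α : ℝ => ((b α : ℝ) : ℂ)) :=
    Complex.ofRealCLM.contDiff.comp b.contDiff
  have hb2 : HasCompactSupport (fun α : ℝ => ((b α : ℝ) : ℂ)) := by
    have : HasCompactSupport (b : ℝ → ℝ) := b.hasCompactSupport
    exact this.comp_left (g := fun x : ℝ => (x : ℂ)) (by simp)
  set S : 𝓢(ℝ, ℂ) := hb2.toSchwartzMap hb1 with hS
  set T : 𝓢(ℝ, ℂ) := 𝓕 S with hT
  have hTcoe : ∀ v, T v = ∫ α, Complex.exp (↑(-2 * Real.pi * α * v) * Complex.I) * ((b α : ℝ) : ℂ) := by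
    intro v
    rw [hT, SchwartzMap.fourier_coe, Real.fourier_real_eq_integral_exp_smul]
    rfl
  have hbc : Continuous fun α : ℝ => ((b α : ℝ) : ℂ) := Complex.continuous_ofReal.comp b.continuous
  have hint : ∀ v : ℝ, Integrable fun α : ℝ =>
      Complex.exp (↑(-2 * Real.pi * α * v) * Complex.I) * ((b α : ℝ) : ℂ) := by
    intro v
    refine Continuous.integrable_of_hasCompactSupport ((Continuous.mul (by fun_prop) hbc)) ?_
    exact hb2.mul_left
  have hre : ∀ v, (T v).re = fh b v := by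
    intro v
    rw [hTcoe]
    have h1 := integral_re (hint v)
    simp only [RCLike.re_to_complex] at h1
    rw [← h1]
    unfold fh
    refine integral_congr_ae ?_
    filter_upwards with α
    rw [Complex.mul_re, Complex.exp_ofReal_mul_I_re, Complex.ofReal_re, Complex.ofReal_im,
      mul_zero, sub_zero, mul_comm]
    congr 1
    rw [← Real.cos_neg]
    congr 1
    ring
  have h1 := SchwartzMap.one_add_le_sup_seminorm_apply (𝕜 := ℝ) (m := (6, 0)) (k := 6) (n := 0)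
    le_rfl le_rfl T
  refine ⟨2 ^ 6 * (Finset.Iic ((6, 0) : ℕ × ℕ)).sup (fun m => SchwartzMap.seminorm ℝ m.1 m.2) T,
    by positivity, fun v => ?_⟩
  have h2 := h1 v
  rw [norm_iteratedFDeriv_zero, Real.norm_eq_abs] at h2
  rw [mul_comm, ← hre]
  refine le_trans ?_ h2
  exact mul_le_mul_of_nonneg_left (Complex.abs_re_le_norm _) (by positivity)

theorem be_even (x : ℝ) : be (-x) = be x := by
  have := be.neg x
  simpa using this

theorem be_one {x : ℝ} (hx : |x| ≤ 1) : be x = 1 := by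
  apply be.one_of_mem_closedBall
  rw [Metric.mem_closedBall, Real.dist_eq, sub_zero]
  exact hx

theorem be_zero {x : ℝ} (hx : 2 ≤ |x|) : be x = 0 := by
  have h1 : x ∉ Function.support (be : ℝ → ℝ) := by
    rw [be.support_eq, Metric.mem_ball, Real.dist_eq, sub_zero]
    show ¬ |x| < 2
    linarith
  simpa using h1

theorem be_cont : Continuous be := be.continuous

theorem be_cpt : HasCompactSupport be := be.hasCompactSupport

theorem be_int : Integrable be := be_cont.integrable_of_hasCompactSupport be_cpt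

theorem be_lip : ∃ m : ℝ, 0 ≤ m ∧ ∀ x z, |deriv be x - deriv be z| ≤ m * |x - z| := by
  have h0 : ContDiff ℝ 2 be := be.contDiff
  have h1 : ContDiff ℝ 1 (deriv be) := by
    have : ContDiff ℝ (1 + 1) be := h0
    exact (contDiff_succ_iff_deriv.1 this).2.2
  obtain ⟨C, hC⟩ := ContDiff.lipschitzWith_of_hasCompactSupport be_cpt.deriv h1 (by norm_num)
  refine ⟨C, C.2, fun x z => ?_⟩
  have := hC.dist_le_mul x z
  rwa [Real.dist_eq, Real.dist_eq] at this

/-- the dilated bump around `κ` -/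
noncomputable def Bb (ρ κ x : ℝ) : ℝ := be ((x - κ) / ρ)

theorem Bb_supp {ρ κ x : ℝ} (hρ : 0 < ρ) (hx : Bb ρ κ x ≠ 0) : |x - κ| < 2 * ρ := by
  by_contra h
  apply hx
  unfold Bb
  apply be_zero
  rw [abs_div, abs_of_pos hρ, le_div_iff₀ hρ]
  exact not_lt.1 h

theorem Bb_bf {m : ℝ} (hm0 : 0 ≤ m) (hm : ∀ x z, |deriv be x - deriv be z| ≤ m * |x - z|)
    {ρ : ℝ} (hρ : 0 < ρ) {κ : ℕ} (hκ : 2 * ρ ≤ κ) :
    BF (Bb ρ κ) (fun x => deriv be ((x - κ) / ρ) / ρ) (2 * κ) (m / ρ ^ 2) := by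
  have h0 : ContDiff ℝ 2 be := be.contDiff
  have hd : ∀ x, HasDerivAt be (deriv be x) x := fun x =>
    (h0.differentiable (by norm_num) x).hasDerivAt
  refine ⟨fun x => ?_, fun x z => ?_, by positivity, fun x hx => ?_, fun x hx => ?_⟩
  · have h1 : HasDerivAt (fun x : ℝ => (x - κ) / ρ) (1 / ρ) x :=
      ((hasDerivAt_id x).sub_const _).div_const _
    have h2 := (hd ((x - κ) / ρ)).scomp x h1
    refine h2.congr_deriv ?_
    rw [smul_eq_mul]; ring
  · rw [← sub_div, abs_div, abs_of_pos hρ, div_le_iff₀ hρ]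
    refine (hm _ _).trans (le_of_eq ?_)
    rw [← sub_div, sub_sub_sub_cancel_right, abs_div, abs_of_pos hρ]
    field_simp
  · by_contra h
    have := Bb_supp hρ h
    rw [abs_lt] at this
    linarith [this.1]
  · by_contra h
    have := Bb_supp hρ h
    rw [abs_lt] at this
    push_cast at hx
    linarith [this.2]

theorem Bb_even (ρ1 ρ2 κ x : ℝ) : ff (Bb ρ1 κ) (Bb ρ2 κ) (-x) = ff (Bb ρ1 κ) (Bb ρ2 κ) x := by
  unfold ff
  have h := integral_sub_left_eq_self (fun t => Bb ρ1 κ t * Bb ρ2 κ (t + -x))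
    (volume : Measure ℝ) (2 * κ)
  rw [← h]
  refine integral_congr_ae ?_
  filter_upwards with t
  unfold Bb
  have e1 : (2 * κ - t - κ) / ρ1 = -((t - κ) / ρ1) := by ring
  have e2 : (2 * κ - t + -x - κ) / ρ2 = -((t + x - κ) / ρ2) := by ring
  rw [e1, e2, be_even, be_even]

theorem Bb_nonneg (ρ κ x : ℝ) : 0 ≤ Bb ρ κ x := be.nonneg

theorem Bb_le_one (ρ κ x : ℝ) : Bb ρ κ x ≤ 1 := be.le_one

theorem Bb_l1 {ρ : ℝ} (hρ : 0 < ρ) (κ : ℝ) : ∫ t, |Bb ρ κ t| = ρ * ∫ t, |be t| := by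
  have h1 := integral_sub_right_eq_self (μ := (volume : Measure ℝ)) (fun t => |be (t / ρ)|) κ
  have h2 := Measure.integral_comp_div (fun u => |be u|) ρ
  rw [abs_of_pos hρ, smul_eq_mul] at h2
  rw [← h2, ← h1]
  rfl

theorem Bb_V {ρ : ℝ} (hρ : 0 < ρ) (κ : ℝ) :
    ∫ t, |deriv be ((t - κ) / ρ) / ρ| = ∫ t, |deriv be t| := by
  have h1 := integral_sub_right_eq_self (μ := (volume : Measure ℝ)) (fun t => |deriv be (t / ρ) / ρ|) κ
  have h2 := Measure.integral_comp_div (fun u => |deriv be u|) ρ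
  rw [abs_of_pos hρ, smul_eq_mul] at h2
  rw [h1]
  have e0 : ∫ t, |deriv be (t / ρ) / ρ| = ∫ t, |deriv be (t / ρ)| / ρ := by
    refine integral_congr_ae ?_
    filter_upwards with t
    rw [abs_div, abs_of_pos hρ]
  rw [e0, integral_div, h2]
  field_simp

theorem sh_be (τ : ℝ) : sh be τ = 0 := by
  have h1 := integral_neg_eq_self (fun u => be u * Real.sin (2 * Real.pi * u * τ))
    (volume : Measure ℝ)
  have h2 : ∫ u, be (-u) * Real.sin (2 * Real.pi * -u * τ) =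
      -∫ u, be u * Real.sin (2 * Real.pi * u * τ) := by
    rw [← integral_neg]
    refine integral_congr_ae ?_
    filter_upwards with u
    rw [be_even, show 2 * Real.pi * -u * τ = -(2 * Real.pi * u * τ) by ring, Real.sin_neg]
    ring
  rw [h2] at h1
  unfold sh
  linarith

theorem Bb_fh {ρ : ℝ} (hρ : 0 < ρ) (κ α : ℝ) :
    fh (Bb ρ κ) α = Real.cos (2 * Real.pi * κ * α) * (ρ * fh be (ρ * α)) ∧
    sh (Bb ρ κ) α = Real.sin (2 * Real.pi * κ * α) * (ρ * fh be (ρ * α)) := by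
  have a1 := fh_dil be hρ α
  have a2 := sh_dil be hρ α
  rw [sh_be, mul_zero] at a2
  have hi : Integrable fun x => be (x / ρ) := by
    have : Continuous fun x => be (x / ρ) := be_cont.comp (continuous_id.div_const _)
    refine this.integrable_of_hasCompactSupport ?_
    refine HasCompactSupport.of_support_subset_isCompact
      (isCompact_Icc (a := -(2 * ρ)) (b := 2 * ρ)) fun x hx => ?_
    rw [Function.mem_support] at hx
    rw [Set.mem_Icc, ← abs_le]
    by_contra hcon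
    apply hx
    apply be_zero
    rw [abs_div, abs_of_pos hρ, le_div_iff₀ hρ]
    exact (not_le.1 hcon).le
  obtain ⟨i1, i2⟩ := trig_int hi α
  constructor
  · have h1 := integral_add_right_eq_self (μ := (volume : Measure ℝ))
      (fun t => Bb ρ κ t * Real.cos (2 * Real.pi * t * α)) κ
    unfold fh
    rw [← h1]
    have e : ∀ x, Bb ρ κ (x + κ) * Real.cos (2 * Real.pi * (x + κ) * α) =
        Real.cos (2 * Real.pi * κ * α) * (be (x / ρ) * Real.cos (2 * Real.pi * x * α)) -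
        Real.sin (2 * Real.pi * κ * α) * (be (x / ρ) * Real.sin (2 * Real.pi * x * α)) := by
      intro x
      unfold Bb
      rw [add_sub_cancel_right, show 2 * Real.pi * (x + κ) * α =
        2 * Real.pi * x * α + 2 * Real.pi * κ * α by ring, Real.cos_add]
      ring
    simp_rw [e]
    rw [integral_sub (i1.const_mul _) (i2.const_mul _), integral_const_mul, integral_const_mul]
    unfold fh at a1
    unfold sh at a2
    rw [a1, a2]; ring
  · have h1 := integral_add_right_eq_self (μ := (volume : Measure ℝ))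
      (fun t => Bb ρ κ t * Real.sin (2 * Real.pi * t * α)) κ
    unfold sh
    rw [← h1]
    have e : ∀ x, Bb ρ κ (x + κ) * Real.sin (2 * Real.pi * (x + κ) * α) =
        Real.cos (2 * Real.pi * κ * α) * (be (x / ρ) * Real.sin (2 * Real.pi * x * α)) +
        Real.sin (2 * Real.pi * κ * α) * (be (x / ρ) * Real.cos (2 * Real.pi * x * α)) := by
      intro x
      unfold Bb
      rw [add_sub_cancel_right, show 2 * Real.pi * (x + κ) * α =
        2 * Real.pi * x * α + 2 * Real.pi * κ * α by ring, Real.sin_add]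
      ring
    simp_rw [e]
    rw [integral_add (i2.const_mul _) (i1.const_mul _), integral_const_mul, integral_const_mul]
    unfold fh at a1 ⊢
    unfold sh at a2
    rw [a1, a2]; ring

theorem spec_bump {χ w : ℝ → ℝ} (hk : KP χ w) : ∃ C : ℝ, 0 ≤ C ∧ ∀ (ρ1 ρ2 : ℝ) (κ : ℕ), 0 < ρ1 →
    ρ1 ≤ ρ2 → 2 * ρ2 ≤ κ → |spec (ff (Bb ρ1 κ) (Bb ρ2 κ)) χ| ≤ C * (ρ1 / ρ2) := by
  obtain ⟨K, hK0, hK⟩ := be_decay
  obtain ⟨m, hm0, hm⟩ := be_lip
  refine ⟨K ^ 2 * Real.pi, by positivity, fun ρ1 ρ2 κ h1 h12 h2 => ?_⟩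
  have hρ2 : 0 < ρ2 := lt_of_lt_of_le h1 h12
  have b1 := Bb_bf hm0 hm h1 (κ := κ) (by linarith)
  have b2 := Bb_bf hm0 hm hρ2 (κ := κ) h2
  have hpt : ∀ α, |(|α| * (fh (ff (Bb ρ1 κ) (Bb ρ2 κ)) α * χ α))| ≤
      K ^ 2 * (ρ1 / ρ2) * (ρ2 * (1 + (ρ2 * α) ^ 2)⁻¹) := by
    intro α
    obtain ⟨c1, s1⟩ := Bb_fh h1 κ α
    obtain ⟨c2, s2⟩ := Bb_fh hρ2 κ α
    have e1 : fh (ff (Bb ρ1 κ) (Bb ρ2 κ)) α = ρ1 * ρ2 * (fh be (ρ1 * α) * fh be (ρ2 * α)) := by
      rw [fh_ff b1 b2, c1, c2, s1, s2]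
      have := Real.cos_sq_add_sin_sq (2 * Real.pi * κ * α)
      linear_combination (ρ1 * ρ2 * (fh be (ρ1 * α) * fh be (ρ2 * α))) * this
    rw [e1, abs_mul, abs_abs, abs_mul, abs_mul (ρ1 * ρ2), abs_mul (fh be (ρ1 * α)),
      abs_of_nonneg (hk.nn α), abs_of_pos (mul_pos h1 hρ2)]
    have k1 := hK (ρ1 * α)
    have k2 := hK (ρ2 * α)
    have k1' : |fh be (ρ1 * α)| ≤ K := by
      refine le_trans ?_ k1
      exact le_mul_of_one_le_right (abs_nonneg _) (one_le_pow₀ (by linarith [abs_nonneg (ρ1 * α)]))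
    have hx0 : 0 ≤ |ρ2 * α| := abs_nonneg _
    have k2' : |fh be (ρ2 * α)| * (|ρ2 * α| * (1 + (ρ2 * α) ^ 2)) ≤ K := by
      refine le_trans (mul_le_mul_of_nonneg_left ?_ (abs_nonneg _)) k2
      rw [← sq_abs (ρ2 * α)]
      have q1 : |ρ2 * α| ≤ (1 + |ρ2 * α|) ^ 1 := by rw [pow_one]; linarith
      have q2 : 1 + |ρ2 * α| ^ 2 ≤ (1 + |ρ2 * α|) ^ 2 := by nlinarith
      calc |ρ2 * α| * (1 + |ρ2 * α| ^ 2) ≤ (1 + |ρ2 * α|) ^ 1 * (1 + |ρ2 * α|) ^ 2 :=
            mul_le_mul q1 q2 (by positivity) (by positivity)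
        _ = (1 + |ρ2 * α|) ^ 3 := by ring
        _ ≤ (1 + |ρ2 * α|) ^ 6 := pow_le_pow_right₀ (by linarith) (by norm_num)
    have hα : |ρ2 * α| = ρ2 * |α| := by rw [abs_mul, abs_of_pos hρ2]
    rw [hα] at k2'
    have hpos : 0 < 1 + (ρ2 * α) ^ 2 := by positivity
    have e2 : K ^ 2 * (ρ1 / ρ2) * (ρ2 * (1 + (ρ2 * α) ^ 2)⁻¹) = K ^ 2 * ρ1 / (1 + (ρ2 * α) ^ 2) := by
      field_simp
    rw [e2, le_div_iff₀ hpos]
    have hχ := hk.le α
    have hχ0 := hk.nn α
    calc |α| * (ρ1 * ρ2 * (|fh be (ρ1 * α)| * |fh be (ρ2 * α)|) * χ α) * (1 + (ρ2 * α) ^ 2)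
        = ρ1 * |fh be (ρ1 * α)| * (|fh be (ρ2 * α)| * (ρ2 * |α| * (1 + (ρ2 * α) ^ 2))) * χ α := by
          ring
      _ ≤ ρ1 * K * K * 1 := by
          apply mul_le_mul _ hχ hχ0 (by positivity)
          apply mul_le_mul _ k2' (by positivity) (by positivity)
          exact mul_le_mul_of_nonneg_left k1' h1.le
      _ = K ^ 2 * ρ1 := by ring
  have hint : Integrable fun α : ℝ => K ^ 2 * (ρ1 / ρ2) * (ρ2 * (1 + (ρ2 * α) ^ 2)⁻¹) := by
    have := integrable_inv_one_add_sq.comp_mul_left' hρ2.ne'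
    exact (this.const_mul ρ2).const_mul _
  have hval : ∫ α : ℝ, K ^ 2 * (ρ1 / ρ2) * (ρ2 * (1 + (ρ2 * α) ^ 2)⁻¹) =
      K ^ 2 * (ρ1 / ρ2) * Real.pi := by
    rw [integral_const_mul, integral_const_mul]
    have := Measure.integral_comp_mul_left (fun x : ℝ => (1 + x ^ 2)⁻¹) ρ2
    rw [this, integral_univ_inv_one_add_sq, abs_of_pos (by positivity), smul_eq_mul]
    field_simp
  unfold spec
  have h3 := intervalIntegral.norm_integral_le_of_norm_le (μ := volume) (a := -1) (b := 1)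
    (f := fun α => |α| * (fh (ff (Bb ρ1 κ) (Bb ρ2 κ)) α * χ α))
    (g := fun α => K ^ 2 * (ρ1 / ρ2) * (ρ2 * (1 + (ρ2 * α) ^ 2)⁻¹)) (by norm_num) (by
      filter_upwards with α _
      rw [Real.norm_eq_abs]
      exact hpt α) hint.intervalIntegrable
  rw [Real.norm_eq_abs] at h3
  refine h3.trans ?_
  rw [intervalIntegral.integral_of_le (by norm_num)]
  refine (setIntegral_le_integral hint (Eventually.of_forall fun α => by
    have : 0 ≤ ρ1 / ρ2 := by positivity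
    positivity)).trans ?_
  rw [hval]
  apply le_of_eq; ring

end Pool.Agent.Helper37.GL
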