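import Pool.Agent.Helper37.GL.Gap

/-! Rigidity of the gap sequence: assembly. -/

open Finset Filter Topology MeasureTheory
open Pool.Agent.Y748 Pool.Agent.Y748.SR

set_option autoImplicit false

namespace Pool.Agent.Helper37.GL

theorem log_four {ρ : ℝ} (hρ : 1 ≤ ρ) : Real.log (8 * ρ + 1) ^ 4 ≤ 2304 * ρ := by
  have h1 := Real.log_le_rpow_div (x := 8 * ρ + 1) (ε := 1 / 4) (by linarith) (by norm_num)
  have h0 : 0 ≤ Real.log (8 * ρ + 1) := Real.log_nonneg (by linarith)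
  have h2 := pow_le_pow_left₀ h0 h1 4
  have h3 : ((8 * ρ + 1) ^ (1 / 4 : ℝ) / (1 / 4)) ^ 4 = 256 * (8 * ρ + 1) := by
    rw [div_pow, ← Real.rpow_natCast, ← Real.rpow_mul (by linarith)]
    norm_num
    ring
  rw [h3] at h2
  linarith

/-- the mean of the product for two scales -/
theorem pair_scale {y : ℕ → ℝ} (h : Hyp y) : ∃ C C' : ℝ, 0 ≤ C ∧ 0 ≤ C' ∧ ∀ (ℓ K i j : ℕ), 1 ≤ ℓ →
    i ≤ j → 2 * (2 ^ j * ℓ) ≤ K → ∀ ε : ℝ, 0 < ε → ∀ᶠ M : ℕ in atTop,
    |∑ n ∈ Icc 1 M, TT y (Bb (2 ^ i * ℓ) K) (2 * K) n * TT y (Bb (2 ^ j * ℓ) K) (2 * K) n| ≤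
      (C * (1 / 2) ^ (j - i) + C' / (j + 1) + ε) * M := by
  obtain ⟨χ, w, hk⟩ := exists_kernel
  obtain ⟨C1, hC1, H1⟩ := main_spec h hk
  obtain ⟨C2, hC2, H2⟩ := spec_bump hk
  obtain ⟨m, hm0, hm⟩ := be_lip
  set V : ℝ := ∫ t, |deriv be t| with hV
  have hV0 : 0 ≤ V := integral_nonneg fun t => abs_nonneg _
  set b1 : ℝ := ∫ t, |be t| with hb1
  have hb10 : 0 ≤ b1 := integral_nonneg fun t => abs_nonneg _
  refine ⟨C2, C1 * (2 * (4 * (m * V) + b1) * 2304), hC2, by positivity,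
    fun ℓ K i j hℓ hij hK ε hε => ?_⟩
  have hℓ1 : (1 : ℝ) ≤ ℓ := by exact_mod_cast hℓ
  set ρ1 : ℝ := 2 ^ i * (ℓ : ℝ) with hρ1
  set ρ2 : ℝ := 2 ^ j * (ℓ : ℝ) with hρ2
  have h2i : (1 : ℝ) ≤ 2 ^ i := one_le_pow₀ (by norm_num)
  have h2j : (1 : ℝ) ≤ 2 ^ j := one_le_pow₀ (by norm_num)
  have h2ij : (2 : ℝ) ^ i ≤ 2 ^ j := pow_le_pow_right₀ (by norm_num) hij
  have hρ11 : 1 ≤ ρ1 := by rw [hρ1]; nlinarith
  have hρ12 : ρ1 ≤ ρ2 := by rw [hρ1, hρ2]; exact mul_le_mul_of_nonneg_right h2ij (by linarith)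
  have hρ21 : 1 ≤ ρ2 := hρ11.trans hρ12
  have hKr : 2 * ρ2 ≤ (K : ℝ) := by rw [hρ2]; exact_mod_cast hK
  have hp1 : 0 < ρ1 := by linarith
  have hp2 : 0 < ρ2 := by linarith
  have bf1 := Bb_bf hm0 hm hp1 (κ := K) (by linarith)
  have bf2 := Bb_bf hm0 hm hp2 (κ := K) hKr
  set A : ℕ := 4 * (2 ^ j * ℓ) with hA
  have hAr : (A : ℝ) = 4 * ρ2 := by rw [hA, hρ2]; push_cast; ring
  have hA1 : 1 ≤ A := by
    have : 1 ≤ 2 ^ j * ℓ := Nat.one_le_iff_ne_zero.2 (by positivity)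
    omega
  have hsup : ∀ s t, Bb ρ1 K s ≠ 0 → Bb ρ2 K t ≠ 0 → |s - t| ≤ A := by
    intro s t h3 h4
    have a1 := Bb_supp hp1 h3
    have a2 := Bb_supp hp2 h4
    rw [abs_lt] at a1 a2
    rw [hAr, abs_le]
    constructor <;> linarith [a1.1, a1.2, a2.1, a2.2]
  have hF : ∀ x, |ff (Bb ρ1 K) (Bb ρ2 K) x| ≤ ρ2 * b1 := by
    intro x
    unfold ff
    have h6 := norm_integral_le_of_norm_le bf1.int.abs
      (f := fun t => Bb ρ1 K t * Bb ρ2 K (t + x)) (Eventually.of_forall fun t => by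
        rw [norm_mul, Real.norm_eq_abs, Real.norm_eq_abs]
        apply mul_le_of_le_one_right (abs_nonneg _)
        rw [abs_of_nonneg (Bb_nonneg _ _ _)]
        exact Bb_le_one _ _ _)
    rw [Real.norm_eq_abs] at h6
    have h7 : ∫ t, |Bb ρ1 K t| = ρ1 * b1 := Bb_l1 hp1 K
    rw [h7] at h6
    exact h6.trans (mul_le_mul_of_nonneg_right hρ12 hb10)
  have hmain := H1 A hA1 _ _ _ _ (2 * K) _ _ (ρ2 * b1) bf1 bf2 (Bb_even ρ1 ρ2 K) hsup hF ε hε
  have hsp := H2 ρ1 ρ2 K hp1 hρ12 hKr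
  have hVV : ∫ t, |deriv be ((t - K) / ρ1) / ρ1| = V := Bb_V hp1 K
  rw [hVV] at hmain
  have hratio : ρ1 / ρ2 = (1 / 2) ^ (j - i) := by
    rw [hρ1, hρ2, mul_div_mul_right _ _ (by positivity : (ℓ : ℝ) ≠ 0), one_div, inv_pow,
      div_eq_iff (by positivity), ← div_eq_inv_mul, eq_div_iff (by positivity), ← pow_add]
    congr 1
    omega
  rw [hratio] at hsp
  -- the error
  have herr : m / ρ2 ^ 2 * V * AL A 3 + ρ2 * b1 / (A : ℝ) ^ 4 ≤
      2 * (4 * (m * V) + b1) * 2304 / (j + 1) := by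
    set lam : ℝ := Real.log (8 * ρ2 + 1) with hlam
    have hl4 := log_four hρ21
    rw [← hlam] at hl4
    have hl1 : 1 ≤ lam := by
      rw [hlam, Real.le_log_iff_exp_le (by linarith)]
      have := Real.exp_one_lt_d9
      linarith
    have hj : (j : ℝ) + 1 ≤ 2 * lam := by
      have h8 : Real.log (2 ^ (j + 1)) ≤ lam := by
        rw [hlam]
        apply Real.log_le_log (by positivity)
        rw [pow_succ, hρ2]
        nlinarith
      rw [Real.log_pow] at h8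
      have := Real.log_two_gt_d9
      push_cast at h8
      nlinarith [Nat.cast_nonneg (α := ℝ) j]
    have e1 : m / ρ2 ^ 2 * V * AL A 3 = 4 * (m * V) * lam ^ 3 / ρ2 := by
      unfold AL
      rw [hAr, hlam, show 2 * (4 * ρ2) + 1 = 8 * ρ2 + 1 by ring]
      field_simp
    have e2 : ρ2 * b1 / (A : ℝ) ^ 4 ≤ b1 * lam ^ 3 / ρ2 := by
      rw [hAr, div_le_div_iff₀ (by positivity) hp2]
      have h9 : ρ2 * ρ2 ≤ (4 * ρ2) ^ 4 := by
        have : 1 ≤ ρ2 ^ 2 := one_le_pow₀ hρ21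
        nlinarith [sq_nonneg (ρ2 ^ 2)]
      have h10 : 1 ≤ lam ^ 3 := one_le_pow₀ hl1
      have h11 : ρ2 * ρ2 * 1 ≤ (4 * ρ2) ^ 4 * lam ^ 3 :=
        mul_le_mul h9 h10 (by norm_num) (by positivity)
      nlinarith [mul_le_mul_of_nonneg_left h11 hb10]
    rw [e1]
    refine (add_le_add le_rfl e2).trans ?_
    rw [← add_div, ← add_mul, div_le_div_iff₀ hp2 (by positivity)]
    have h12 : 0 ≤ (4 * (m * V) + b1) * lam ^ 3 := by positivity
    calc (4 * (m * V) + b1) * lam ^ 3 * (j + 1) ≤ (4 * (m * V) + b1) * lam ^ 3 * (2 * lam) :=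
          mul_le_mul_of_nonneg_left hj h12
      _ = 2 * (4 * (m * V) + b1) * lam ^ 4 := by ring
      _ ≤ 2 * (4 * (m * V) + b1) * (2304 * ρ2) := mul_le_mul_of_nonneg_left hl4 (by positivity)
      _ = _ := by ring
  filter_upwards [hmain] with M hM
  have hM0 : (0 : ℝ) ≤ M := Nat.cast_nonneg M
  have h13 := mul_le_mul_of_nonneg_left herr hC1
  have h14 : |spec (ff (Bb ρ1 K) (Bb ρ2 K)) χ * M| ≤ C2 * (1 / 2) ^ (j - i) * M := by
    rw [abs_mul, abs_of_nonneg hM0]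
    exact mul_le_mul_of_nonneg_right hsp hM0
  have h15 := abs_add_le (∑ n ∈ Icc 1 M, TT y (Bb ρ1 K) (2 * K) n * TT y (Bb ρ2 K) (2 * K) n -
    spec (ff (Bb ρ1 K) (Bb ρ2 K)) χ * M) (spec (ff (Bb ρ1 K) (Bb ρ2 K)) χ * M)
  rw [sub_add_cancel] at h15
  refine h15.trans ((add_le_add hM h14).trans ?_)
  rw [← add_mul]
  apply mul_le_mul_of_nonneg_right _ hM0
  have h16 : C1 * (2 * (4 * (m * V) + b1) * 2304 / (j + 1)) =
      C1 * (2 * (4 * (m * V) + b1) * 2304) / (j + 1) := by ring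
  linarith

theorem TT_sum (y : ℕ → ℝ) (J : ℕ) (B : ℕ → ℝ → ℝ) (q : ℝ) (L n : ℕ) :
    TT y (fun x => q * ∑ j ∈ range J, B j x) L n = q * ∑ j ∈ range J, TT y (B j) L n := by
  unfold TT
  rw [sum_comm, mul_sum]
  refine sum_congr rfl fun i _ => ?_
  rw [← sum_mul]; ring

/-- the rigidity of the sequence of gaps -/
theorem gap_rig {y : ℕ → ℝ} (h : Hyp y) : ∃ C : ℝ, 0 < C ∧ ∀ ℓ K : ℕ, 1 ≤ ℓ → 2 * ℓ ≤ K →
    ∃ c : ℝ → ℝ, (∀ x, 0 ≤ c x ∧ c x ≤ 1) ∧ (∀ x, c (-x) = c x) ∧ (∀ x : ℝ, |x| ≤ ℓ → c x = 1) ∧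
      (∀ x : ℝ, (K : ℝ) ≤ |x| → c x = 0) ∧
      ∀ᶠ M : ℕ in atTop, ∑ n ∈ Icc 1 M, TT y (fun x => c (x - K)) (2 * K) n ^ 2 ≤
        C / Real.log (K / ℓ) * M := by
  obtain ⟨C1, C2, hC1, hC2, H⟩ := pair_scale h
  refine ⟨4 * (2 * C1 + C2 + 1), by positivity, fun ℓ K hℓ hK => ?_⟩
  have hℓ0 : (0 : ℝ) < ℓ := by exact_mod_cast hℓ
  set J : ℕ := Nat.log 2 (K / ℓ) with hJ
  have hKℓ : 2 ≤ K / ℓ := (Nat.le_div_iff_mul_le hℓ).2 hK
  have hJ1 : 1 ≤ J := by
    rw [hJ]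
    exact Nat.log_pos (by norm_num) hKℓ
  have hJK : 2 ^ J * ℓ ≤ K := by
    have := Nat.pow_log_le_self 2 (show K / ℓ ≠ 0 by omega)
    exact (Nat.le_div_iff_mul_le hℓ).1 this
  have hJK2 : K < 2 ^ (J + 1) * ℓ := by
    have := Nat.lt_pow_succ_log_self (b := 2) (by norm_num) (K / ℓ)
    exact (Nat.div_lt_iff_lt_mul hℓ).1 this
  have hJr : (1 : ℝ) ≤ J := by exact_mod_cast hJ1
  have hJ0 : (0 : ℝ) < J := by linarith
  have hKℓr : (2 : ℝ) ≤ K / ℓ := by
    rw [le_div_iff₀ hℓ0]; exact_mod_cast hK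
  have hlog0 : 0 < Real.log (K / ℓ) := Real.log_pos (by linarith)
  have hlogJ : Real.log (K / ℓ) ≤ 2 * J := by
    have h1 : (K : ℝ) / ℓ ≤ 2 ^ (J + 1) := by
      rw [div_le_iff₀ hℓ0]
      exact_mod_cast hJK2.le
    have h2 := Real.log_le_log (by linarith) h1
    rw [Real.log_pow] at h2
    have := Real.log_two_lt_d9
    push_cast at h2
    nlinarith
  refine ⟨fun x => 1 / J * ∑ j ∈ range J, be (x / (2 ^ j * ℓ)), fun x => ?_, fun x => ?_,
    fun x hx => ?_, fun x hx => ?_, ?_⟩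
  · constructor
    · have : 0 ≤ ∑ j ∈ range J, be (x / (2 ^ j * ℓ)) := sum_nonneg fun j _ => be.nonneg
      positivity
    · have : ∑ j ∈ range J, be (x / (2 ^ j * ℓ)) ≤ J := by
        refine (sum_le_sum fun j _ => be.le_one).trans (le_of_eq ?_)
        rw [sum_const, card_range, nsmul_eq_mul, mul_one]
      rw [one_div, inv_mul_le_iff₀ hJ0, mul_one]
      exact this
  · simp only []
    congr 1
    refine sum_congr rfl fun j _ => ?_
    rw [neg_div, be_even]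
  · have : ∑ j ∈ range J, be (x / (2 ^ j * ℓ)) = J := by
      have h1 : ∀ j ∈ range J, be (x / (2 ^ j * ℓ)) = 1 := by
        intro j _
        apply be_one
        rw [abs_div, abs_of_pos (by positivity : (0 : ℝ) < 2 ^ j * ℓ), div_le_one (by positivity)]
        have : (1 : ℝ) ≤ 2 ^ j := one_le_pow₀ (by norm_num)
        nlinarith
      rw [sum_congr rfl h1, sum_const, card_range, nsmul_eq_mul, mul_one]
    simp only []
    rw [this]
    field_simp
  · have : ∑ j ∈ range J, be (x / (2 ^ j * ℓ)) = 0 := by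
      apply sum_eq_zero
      intro j hj
      rw [mem_range] at hj
      apply be_zero
      rw [abs_div, abs_of_pos (by positivity : (0 : ℝ) < 2 ^ j * ℓ), le_div_iff₀ (by positivity)]
      have h1 : 2 ^ (j + 1) * ℓ ≤ 2 ^ J * ℓ :=
        Nat.mul_le_mul_right _ (Nat.pow_le_pow_right (by norm_num) (by omega))
      have h2 : (2 : ℝ) ^ (j + 1) * ℓ ≤ K := by exact_mod_cast h1.trans hJK
      rw [pow_succ] at h2
      linarith
    simp only []
    rw [this, mul_zero]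
  · have hTT : ∀ n, TT y (fun x => 1 / (J : ℝ) * ∑ j ∈ range J, be ((x - K) / (2 ^ j * ℓ)))
        (2 * K) n = 1 / J * ∑ j ∈ range J, TT y (Bb (2 ^ j * ℓ) K) (2 * K) n := by
      intro n
      exact TT_sum y J (fun j => Bb (2 ^ j * ℓ) K) (1 / J) (2 * K) n
    have hall : ∀ᶠ M : ℕ in atTop, ∀ j ∈ range J, ∀ i ∈ range (j + 1),
        |∑ n ∈ Icc 1 M, TT y (Bb (2 ^ i * ℓ) K) (2 * K) n * TT y (Bb (2 ^ j * ℓ) K) (2 * K) n| ≤
          (C1 * (1 / 2) ^ (j - i) + C2 / (j + 1) + 1 / J) * M := by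
      rw [eventually_all_finset]
      intro j hj
      rw [eventually_all_finset]
      intro i hi
      rw [mem_range] at hj hi
      have h1 : 2 ^ (j + 1) * ℓ ≤ 2 ^ J * ℓ :=
        Nat.mul_le_mul_right _ (Nat.pow_le_pow_right (by norm_num) (by omega))
      exact H ℓ K i j hℓ (by omega) (by
        rw [pow_succ] at h1
        have := h1.trans hJK
        linarith) (1 / J) (by positivity)
    filter_upwards [hall] with M hM
    have hM0 : (0 : ℝ) ≤ M := Nat.cast_nonneg M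
    set G : ℕ → ℕ → ℝ := fun i j => ∑ n ∈ Icc 1 M,
      TT y (Bb (2 ^ i * ℓ) K) (2 * K) n * TT y (Bb (2 ^ j * ℓ) K) (2 * K) n with hG
    have hGs : ∀ i j, G i j = G j i := by
      intro i j
      simp only [hG]
      exact sum_congr rfl fun n _ => mul_comm _ _
    set U : ℕ → ℕ → ℝ := fun i j => if i < j + 1 then |G i j| else 0 with hU
    have hGU : ∀ i j, G i j ≤ U i j + U j i := by
      intro i j
      simp only [hU]
      rcases Nat.lt_or_ge i (j + 1) with hc | hc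
      · rw [if_pos hc]
        have : 0 ≤ (if j < i + 1 then |G j i| else 0) := by split_ifs <;> simp
        linarith [le_abs_self (G i j)]
      · rw [if_neg (by omega), if_pos (show j < i + 1 by omega), zero_add, ← hGs i j]
        exact le_abs_self _
    have e1 : ∑ n ∈ Icc 1 M, TT y (fun x => 1 / (J : ℝ) * ∑ j ∈ range J,
        be ((x - K) / (2 ^ j * ℓ))) (2 * K) n ^ 2 =
        (1 / J) ^ 2 * ∑ i ∈ range J, ∑ j ∈ range J, G i j := by
      simp_rw [hTT]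
      have e2 : ∀ n, (1 / (J : ℝ) * ∑ j ∈ range J, TT y (Bb (2 ^ j * ℓ) K) (2 * K) n) ^ 2 =
          (1 / J) ^ 2 * ∑ i ∈ range J, ∑ j ∈ range J,
            TT y (Bb (2 ^ i * ℓ) K) (2 * K) n * TT y (Bb (2 ^ j * ℓ) K) (2 * K) n := by
        intro n
        rw [mul_pow, pow_two (∑ j ∈ range J, TT y (Bb (2 ^ j * ℓ) K) (2 * K) n), sum_mul_sum]
      simp_rw [e2]
      rw [← mul_sum]
      congr 1
      rw [sum_comm]
      refine sum_congr rfl fun i _ => ?_
      rw [sum_comm]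
    have e3 : ∑ i ∈ range J, ∑ j ∈ range J, G i j ≤ 2 * ∑ j ∈ range J, ∑ i ∈ range J, U i j := by
      have e4 : ∑ i ∈ range J, ∑ j ∈ range J, G i j ≤
          ∑ i ∈ range J, ∑ j ∈ range J, (U i j + U j i) :=
        sum_le_sum fun i _ => sum_le_sum fun j _ => hGU i j
      refine e4.trans (le_of_eq ?_)
      simp_rw [sum_add_distrib]
      rw [two_mul]
      congr 1
      exact sum_comm
    have e5 : ∀ j ∈ range J, ∑ i ∈ range J, U i j ≤ (2 * C1 + C2 + 1) * M := by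
      intro j hj
      have hjJ := mem_range.1 hj
      have e6 : ∑ i ∈ range J, U i j = ∑ i ∈ range (j + 1), |G i j| := by
        have hsub : range (j + 1) ⊆ range J := range_subset_range.2 (by omega)
        rw [← sum_subset hsub]
        · refine sum_congr rfl fun i hi => ?_
          simp only [hU]
          rw [if_pos (mem_range.1 hi)]
        · intro i _ hi
          simp only [hU]
          rw [if_neg (by rwa [mem_range] at hi)]
      rw [e6]
      refine (sum_le_sum (hM j hj)).trans ?_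
      rw [← sum_mul]
      apply mul_le_mul_of_nonneg_right _ hM0
      rw [sum_add_distrib, sum_add_distrib, sum_const, sum_const, card_range, nsmul_eq_mul,
        nsmul_eq_mul, ← mul_sum]
      have e7 : ∑ i ∈ range (j + 1), (1 / 2 : ℝ) ^ (j - i) ≤ 2 := by
        have e8 : ∑ i ∈ range (j + 1), (1 / 2 : ℝ) ^ (j - i) = ∑ i ∈ range (j + 1), (1 / 2 : ℝ) ^ i := by
          have := sum_range_reflect (fun i => (1 / 2 : ℝ) ^ i) (j + 1)
          rw [← this]
          refine sum_congr rfl fun i hi => ?_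
          congr 1
        rw [e8]
        have := geom_sum_eq (show (1 / 2 : ℝ) ≠ 1 by norm_num) (j + 1)
        rw [this]
        have h3 : 0 ≤ (1 / 2 : ℝ) ^ (j + 1) := by positivity
        rw [div_le_iff_of_neg (by norm_num)]
        linarith
      have hj0 : (0 : ℝ) < (j : ℝ) + 1 := by positivity
      have e9 : ((j + 1 : ℕ) : ℝ) * (C2 / (j + 1)) = C2 := by push_cast; field_simp
      have e10 : ((j + 1 : ℕ) : ℝ) * (1 / J) ≤ 1 := by
        rw [mul_one_div, div_le_one hJ0]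
        exact_mod_cast hjJ
      rw [e9]
      nlinarith
    have e11 : ∑ j ∈ range J, ∑ i ∈ range J, U i j ≤ J * ((2 * C1 + C2 + 1) * M) := by
      refine (sum_le_sum e5).trans (le_of_eq ?_)
      rw [sum_const, card_range, nsmul_eq_mul]
    rw [e1]
    have e12 : (1 / (J : ℝ)) ^ 2 * ∑ i ∈ range J, ∑ j ∈ range J, G i j ≤
        (1 / (J : ℝ)) ^ 2 * (2 * (J * ((2 * C1 + C2 + 1) * M))) := by
      apply mul_le_mul_of_nonneg_left _ (by positivity)
      linarith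
    refine e12.trans ?_
    have e13 : (1 / (J : ℝ)) ^ 2 * (2 * (J * ((2 * C1 + C2 + 1) * M))) =
        2 * (2 * C1 + C2 + 1) / J * M := by
      field_simp
    rw [e13]
    apply mul_le_mul_of_nonneg_right _ hM0
    rw [div_le_div_iff₀ hJ0 hlog0]
    have : 0 ≤ 2 * (2 * C1 + C2 + 1) := by positivity
    nlinarith [mul_le_mul_of_nonneg_left hlogJ this]

end Pool.Agent.Helper37.GL
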