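import Pool.Agent.Helper37.GL.Four

/-! The power spectrum of the gaps at low frequencies. -/

open Finset Filter Topology MeasureTheory
open Pool.Agent.Y748 Pool.Agent.Y748.SR
open scoped FourierTransform

set_option autoImplicit false

namespace Pool.Agent.Helper37.GL

section

variable {b : ℝ → ℝ} (hb : ContDiff ℝ 2 b) (hs : ∀ x, x ∉ Set.Ioo (0 : ℝ) 1 → b x = 0)

include hs in
theorem cpt_b : HasCompactSupport b :=
  HasCompactSupport.of_support_subset_isCompact (isCompact_Icc (a := (0 : ℝ)) (b := 1)) fun x hx => by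
    rw [Function.mem_support] at hx
    by_contra hcon
    apply hx
    apply hs
    intro h
    exact hcon ⟨h.1.le, h.2.le⟩

include hb hs in
theorem lip_b : ∃ m : ℝ, 0 ≤ m ∧ ∀ x z, |deriv b x - deriv b z| ≤ m * |x - z| := by
  have h1 : ContDiff ℝ 1 (deriv b) := by
    have : ContDiff ℝ (1 + 1) b := hb
    exact (contDiff_succ_iff_deriv.1 this).2.2
  obtain ⟨C, hC⟩ := ContDiff.lipschitzWith_of_hasCompactSupport (cpt_b hs).deriv h1 (by norm_num)
  refine ⟨C, C.2, fun x z => ?_⟩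
  have := hC.dist_le_mul x z
  rwa [Real.dist_eq, Real.dist_eq] at this

include hb hs in
theorem bf_b {m : ℝ} (hm0 : 0 ≤ m) (hm : ∀ x z, |deriv b x - deriv b z| ≤ m * |x - z|) {r : ℕ}
    (hr : 1 ≤ r) : BF (fun x => b (x / r)) (fun x => deriv b (x / r) / r) r (m / (r : ℝ) ^ 2) := by
  have hr0 : (0 : ℝ) < r := by exact_mod_cast hr
  have hd : ∀ x, HasDerivAt b (deriv b x) x := fun x =>
    (hb.differentiable (by norm_num) x).hasDerivAt
  refine ⟨fun x => ?_, fun x z => ?_, by positivity, fun x hx => ?_, fun x hx => ?_⟩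
  · have h1 : HasDerivAt (fun x : ℝ => x / r) (1 / r) x := (hasDerivAt_id x).div_const _
    have h2 := (hd (x / r)).scomp x h1
    refine h2.congr_deriv ?_
    rw [smul_eq_mul]; ring
  · rw [← sub_div, abs_div, abs_of_pos hr0, div_le_iff₀ hr0]
    refine (hm _ _).trans (le_of_eq ?_)
    rw [← sub_div, abs_div, abs_of_pos hr0]
    field_simp
  · apply hs
    intro h
    have := h.1
    rw [lt_div_iff₀ hr0, zero_mul] at this
    linarith
  · apply hs
    intro h
    have := h.2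
    rw [div_lt_one hr0] at this
    linarith

include hb hs in
theorem int_P : Integrable fun τ : ℝ => |τ| * ‖𝓕 (fun x => (b x : ℂ)) τ‖ ^ 2 := by
  obtain ⟨C, hC0, hC⟩ := four_decay hb (cpt_b hs)
  have hbi : Integrable b := hb.continuous.integrable_of_hasCompactSupport (cpt_b hs)
  have hcont : Continuous (𝓕 (fun x => (b x : ℂ))) :=
    VectorFourier.fourierIntegral_continuous Real.continuous_fourierChar
      (by exact continuous_inner) hbi.ofReal
  have h1 : Integrable fun u : ℝ => C ^ 2 * (1 + u ^ 2)⁻¹ := integrable_inv_one_add_sq.const_mul _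
  refine h1.mono' (continuous_abs.mul (hcont.norm.pow 2)).aestronglyMeasurable ?_
  filter_upwards with τ
  rw [Real.norm_eq_abs, abs_of_nonneg (by positivity), ← div_eq_mul_inv,
    le_div_iff₀ (by positivity)]
  have h2 := hC τ
  have h3 : |τ| ≤ 1 + τ ^ 2 := by
    rw [← sq_abs]; nlinarith [abs_nonneg τ, sq_nonneg (|τ| - 1)]
  have h4 : ((1 + τ ^ 2) * ‖𝓕 (fun x => (b x : ℂ)) τ‖) ^ 2 ≤ C ^ 2 :=
    pow_le_pow_left₀ (by positivity) h2 2
  calc |τ| * ‖𝓕 (fun x => (b x : ℂ)) τ‖ ^ 2 * (1 + τ ^ 2)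
      ≤ (1 + τ ^ 2) * ‖𝓕 (fun x => (b x : ℂ)) τ‖ ^ 2 * (1 + τ ^ 2) := by gcongr
    _ = ((1 + τ ^ 2) * ‖𝓕 (fun x => (b x : ℂ)) τ‖) ^ 2 := by ring
    _ ≤ _ := h4

include hb hs in
theorem spec_b {χ w : ℝ → ℝ} (hk : KP χ w) {r : ℕ} (hr : 1 ≤ r) :
    spec (ff (fun x => b (x / r)) (fun x => b (x / r))) χ =
      ∫ τ, |τ| * ‖𝓕 (fun x => (b x : ℂ)) τ‖ ^ 2 * χ (τ / r) := by
  have hr0 : (0 : ℝ) < r := by exact_mod_cast hr
  obtain ⟨m, hm0, hm⟩ := lip_b hb hs
  have hbf := bf_b hb hs hm0 hm hr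
  have hbi : Integrable b := hb.continuous.integrable_of_hasCompactSupport (cpt_b hs)
  unfold spec
  have e1 : ∀ α, |α| * (fh (ff (fun x => b (x / r)) (fun x => b (x / r))) α * χ α) =
      r * (|(r : ℝ) * α| * ‖𝓕 (fun x => (b x : ℂ)) (r * α)‖ ^ 2 * χ (r * α / r)) := by
    intro α
    rw [fh_ff hbf hbf, fh_dil b hr0, sh_dil b hr0, four_sq hbi, abs_mul, abs_of_pos hr0,
      mul_div_cancel_left₀ _ hr0.ne']
    ring
  simp_rw [e1]
  rw [int_supp (by norm_num) ?_, integral_const_mul]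
  · have h1 := Measure.integral_comp_mul_left
      (fun τ => |τ| * ‖𝓕 (fun x => (b x : ℂ)) τ‖ ^ 2 * χ (τ / r)) (r : ℝ)
    rw [h1, abs_of_pos (by positivity), smul_eq_mul, ← mul_assoc, mul_inv_cancel₀ hr0.ne', one_mul]
  · intro t ht
    rw [mul_div_cancel_left₀ _ hr0.ne', hk.s t, mul_zero, mul_zero]
    rcases ht with ht | ht
    · rw [abs_of_neg (by linarith)]; linarith
    · rw [abs_of_pos (by linarith)]; linarith

include hb hs in
theorem spec_lim {χ w : ℝ → ℝ} (hk : KP χ w) :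
    Tendsto (fun r : ℕ => ∫ τ, |τ| * ‖𝓕 (fun x => (b x : ℂ)) τ‖ ^ 2 * χ (τ / r)) atTop
      (𝓝 (∫ τ, |τ| * ‖𝓕 (fun x => (b x : ℂ)) τ‖ ^ 2)) := by
  have hbi : Integrable b := hb.continuous.integrable_of_hasCompactSupport (cpt_b hs)
  have hcont : Continuous (𝓕 (fun x => (b x : ℂ))) :=
    VectorFourier.fourierIntegral_continuous Real.continuous_fourierChar
      (by exact continuous_inner) hbi.ofReal
  refine tendsto_integral_of_dominated_convergence
    (fun τ => |τ| * ‖𝓕 (fun x => (b x : ℂ)) τ‖ ^ 2) ?_ (int_P hb hs) ?_ ?_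
  · intro r
    exact ((continuous_abs.mul (hcont.norm.pow 2)).mul
      (hk.c.comp (continuous_id.div_const _))).aestronglyMeasurable
  · intro r
    filter_upwards with τ
    rw [Real.norm_eq_abs, abs_mul, abs_of_nonneg (by positivity), abs_of_nonneg (hk.nn _)]
    exact mul_le_of_le_one_right (by positivity) (hk.le _)
  · filter_upwards with τ
    have h1 : Tendsto (fun r : ℕ => τ / (r : ℝ)) atTop (𝓝 0) :=
      tendsto_const_nhds.div_atTop tendsto_natCast_atTop_atTop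
    have h2 := (hk.c.tendsto 0).comp h1
    rw [hk.one] at h2
    have := h2.const_mul (|τ| * ‖𝓕 (fun x => (b x : ℂ)) τ‖ ^ 2)
    rw [mul_one] at this
    exact this

end

theorem AL_div : Tendsto (fun r : ℕ => AL r 3 / (r : ℝ) ^ 2) atTop (𝓝 0) := by
  have h1 : Tendsto (fun x : ℝ => Real.log x ^ 3 / x) atTop (𝓝 0) :=
    (Real.isLittleO_pow_log_id_atTop (n := 3)).tendsto_div_nhds_zero
  have h2 : Tendsto (fun r : ℕ => (2 * (r : ℝ) + 1)) atTop atTop := by
    apply tendsto_atTop_mono _ tendsto_natCast_atTop_atTop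
    intro r
    have : (0 : ℝ) ≤ r := Nat.cast_nonneg r
    linarith
  have h3 := (h1.comp h2).const_mul 3
  rw [mul_zero] at h3
  refine squeeze_zero' ?_ ?_ h3
  · filter_upwards with r
    have := AL_nonneg r 3
    positivity
  · filter_upwards [eventually_ge_atTop 1] with r hr
    have hr1 : (1 : ℝ) ≤ r := by exact_mod_cast hr
    have hl : 0 ≤ Real.log (2 * (r : ℝ) + 1) := Real.log_nonneg (by linarith)
    simp only [Function.comp]
    unfold AL
    rw [mul_div_assoc', div_le_div_iff₀ (by positivity) (by positivity)]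
    have : (r : ℝ) * (2 * r + 1) ≤ 3 * (r : ℝ) ^ 2 := by nlinarith
    have h5 : 0 ≤ Real.log (2 * (r : ℝ) + 1) ^ 3 := by positivity
    nlinarith [mul_le_mul_of_nonneg_left this h5]

/-- the power spectrum of the gaps at low frequencies -/
theorem lfs {y : ℕ → ℝ} (h : Hyp y) {b : ℝ → ℝ} (hb : ContDiff ℝ 2 b)
    (hs : ∀ x, x ∉ Set.Ioo (0 : ℝ) 1 → b x = 0) (ε : ℝ) (hε : 0 < ε) :
    ∃ r0 : ℕ, ∀ r : ℕ, r0 ≤ r → ∀ᶠ M : ℕ in atTop,
      |∑ n ∈ Icc 1 M, TT y (fun x => b (x / r)) r n ^ 2 -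
        (∫ τ, |τ| * ‖𝓕 (fun x => (b x : ℂ)) τ‖ ^ 2) * M| ≤ ε * M := by
  obtain ⟨χ, w, hk⟩ := exists_kernel
  obtain ⟨C, hC0, hC⟩ := main_spec h hk
  obtain ⟨m, hm0, hm⟩ := lip_b hb hs
  have hbi : Integrable b := hb.continuous.integrable_of_hasCompactSupport (cpt_b hs)
  obtain ⟨Mb, hMb⟩ := (cpt_b hs).exists_bound_of_continuous hb.continuous
  have hMb0 : 0 ≤ Mb := (norm_nonneg _).trans (hMb 0)
  set V : ℝ := ∫ t, |deriv b t| with hV
  have hV0 : 0 ≤ V := integral_nonneg fun t => abs_nonneg _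
  set b1 : ℝ := ∫ t, |b t| with hb1
  have hb10 : 0 ≤ b1 := integral_nonneg fun t => abs_nonneg _
  set I : ℝ := ∫ τ, |τ| * ‖𝓕 (fun x => (b x : ℂ)) τ‖ ^ 2 with hI
  have hlim := spec_lim hb hs hk
  have herr : Tendsto (fun r : ℕ => C * (m * V * (AL r 3 / (r : ℝ) ^ 2) + Mb * b1 * (1 / (r : ℝ)))) atTop
      (𝓝 0) := by
    have h1 : Tendsto (fun r : ℕ => 1 / (r : ℝ)) atTop (𝓝 0) :=
      tendsto_const_nhds.div_atTop tendsto_natCast_atTop_atTop
    have := ((AL_div.const_mul (m * V)).add (h1.const_mul (Mb * b1))).const_mul C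
    simpa using this
  have h2 : ∀ᶠ r : ℕ in atTop, |(∫ τ, |τ| * ‖𝓕 (fun x => (b x : ℂ)) τ‖ ^ 2 * χ (τ / r)) - I| ≤ ε / 3 := by
    have := (hlim.sub_const I).abs
    rw [sub_self, abs_zero] at this
    exact this.eventually_le_const (by positivity)
  have h3 := herr.eventually_le_const (show (0 : ℝ) < ε / 3 by positivity)
  obtain ⟨r0, hr0⟩ := eventually_atTop.1 ((h2.and h3).and (eventually_ge_atTop 1))
  refine ⟨r0, fun r hr => ?_⟩
  obtain ⟨⟨h4, h5⟩, hr1⟩ := hr0 r hr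
  have hrp : (0 : ℝ) < r := by exact_mod_cast hr1
  have hr1' : (1 : ℝ) ≤ r := by exact_mod_cast hr1
  set B : ℝ → ℝ := fun x => b (x / r) with hB
  set B' : ℝ → ℝ := fun x => deriv b (x / r) / r with hB'
  have hbf : BF B B' r (m / (r : ℝ) ^ 2) := bf_b hb hs hm0 hm hr1
  have hBb : ∀ x, |B x| ≤ Mb := fun x => hMb _
  have hB1 : ∫ t, |B t| = r * b1 := by
    have := Measure.integral_comp_div (fun u => |b u|) (r : ℝ)
    rw [abs_of_pos hrp, smul_eq_mul] at this
    exact this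
  have hev : ∀ x, ff B B (-x) = ff B B x := by
    intro x
    unfold ff
    rw [shift_int]
    refine integral_congr_ae ?_
    filter_upwards with t
    rw [sub_neg_eq_add]
  have hsup : ∀ s t, B s ≠ 0 → B t ≠ 0 → |s - t| ≤ r := by
    intro s t h6 h7
    have a1 : 0 < s := by
      by_contra h; exact h6 (hbf.s0 _ (not_lt.1 h))
    have a2 : s < r := by
      by_contra h; exact h6 (hbf.s1 _ (not_lt.1 h))
    have a3 : 0 < t := by
      by_contra h; exact h7 (hbf.s0 _ (not_lt.1 h))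
    have a4 : t < r := by
      by_contra h; exact h7 (hbf.s1 _ (not_lt.1 h))
    rw [abs_le]
    constructor <;> linarith
  have hF : ∀ x, |ff B B x| ≤ Mb * (r * b1) := by
    intro x
    unfold ff
    have h6 := norm_integral_le_of_norm_le (hbf.int.abs.mul_const Mb)
      (f := fun t => B t * B (t + x)) (Eventually.of_forall fun t => by
        rw [norm_mul, Real.norm_eq_abs, Real.norm_eq_abs]
        exact mul_le_mul_of_nonneg_left (hBb _) (abs_nonneg _))
    rw [integral_mul_const, hB1, Real.norm_eq_abs] at h6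
    linarith
  have hVr : ∫ t, |B' t| = V := by
    have := Measure.integral_comp_div (fun u => |deriv b u|) (r : ℝ)
    rw [abs_of_pos hrp, smul_eq_mul] at this
    have e0 : ∫ t, |B' t| = ∫ t, |deriv b (t / r)| / r := by
      refine integral_congr_ae ?_
      filter_upwards with t
      show |deriv b (t / r) / r| = _
      rw [abs_div, abs_of_pos hrp]
    rw [e0, integral_div, this, hV]
    field_simp
  have hmain := hC r hr1 B B' B B' r _ _ (Mb * (r * b1)) hbf hbf hev hsup hF (ε / 3) (by positivity)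
  rw [hVr, spec_b hb hs hk hr1] at hmain
  filter_upwards [hmain] with M hM
  have hM0 : (0 : ℝ) ≤ M := Nat.cast_nonneg M
  have e1 : ∑ n ∈ Icc 1 M, TT y B r n ^ 2 - I * M =
      (∑ n ∈ Icc 1 M, TT y B r n * TT y B r n -
        (∫ τ, |τ| * ‖𝓕 (fun x => (b x : ℂ)) τ‖ ^ 2 * χ (τ / r)) * M) +
      ((∫ τ, |τ| * ‖𝓕 (fun x => (b x : ℂ)) τ‖ ^ 2 * χ (τ / r)) - I) * M := by
    simp_rw [pow_two (TT y B r _)]
    ring
  rw [e1]
  refine (abs_add_le _ _).trans ?_
  have h7 : |((∫ τ, |τ| * ‖𝓕 (fun x => (b x : ℂ)) τ‖ ^ 2 * χ (τ / r)) - I) * M| ≤ ε / 3 * M := by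
    rw [abs_mul, abs_of_nonneg hM0]
    exact mul_le_mul_of_nonneg_right h4 hM0
  have h8 : C * (m / (r : ℝ) ^ 2 * V * AL r 3 + Mb * (r * b1) / (r : ℝ) ^ 4) ≤ ε / 3 := by
    refine le_trans ?_ h5
    apply mul_le_mul_of_nonneg_left _ hC0
    apply add_le_add
    · apply le_of_eq; ring
    · have : Mb * (r * b1) / (r : ℝ) ^ 4 = Mb * b1 * (1 / (r : ℝ) ^ 3) := by field_simp
      rw [this]
      apply mul_le_mul_of_nonneg_left _ (by positivity)
      apply one_div_le_one_div_of_le hrp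
      exact le_self_pow₀ hr1' (by norm_num)
  have h9 := mul_le_mul_of_nonneg_right h8 hM0
  linarith

end Pool.Agent.Helper37.GL
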