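import Pool.Agent.Helper37.GL.Corr

/-! The mean of the product of two linear statistics of the gaps. -/

open Finset Filter Topology MeasureTheory
open Pool.Agent.Y748 Pool.Agent.Y748.SR

set_option autoImplicit false

namespace Pool.Agent.Helper37.GL

theorem AL_two_three {A : ℕ} (hA : 1 ≤ A) : AL A 2 ≤ AL A 3 := by
  unfold AL
  have hA0 : (1 : ℝ) ≤ A := by exact_mod_cast hA
  have h1 : 1 ≤ Real.log (2 * A + 1) := by
    rw [Real.le_log_iff_exp_le (by linarith)]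
    have := Real.exp_one_lt_d9
    linarith
  apply mul_le_mul_of_nonneg_left _ (by linarith)
  exact pow_le_pow_right₀ h1 (by norm_num)

theorem f2_zero {f f1 f2 : ℝ → ℝ} {A : ℝ} (hf1 : ∀ x, HasDerivAt f (f1 x) x)
    (hf2 : ∀ x, HasDerivAt f1 (f2 x) x) (hs : ∀ x, A < |x| → f x = 0) {x : ℝ} (hx : A < |x|) :
    f2 x = 0 := by
  have hopen : IsOpen {x : ℝ | A < |x|} := isOpen_lt continuous_const continuous_abs
  have h1 : ∀ z, A < |z| → f1 z = 0 := by
    intro z hz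
    have h2 : HasDerivAt f 0 z := by
      have : f =ᶠ[𝓝 z] fun _ : ℝ => (0 : ℝ) := by
        filter_upwards [hopen.mem_nhds hz] with w hw
        exact hs w hw
      exact (hasDerivAt_const z (0 : ℝ)).congr_of_eventuallyEq this
    exact (hf1 z).unique h2
  have h2 : HasDerivAt f1 0 x := by
    have : f1 =ᶠ[𝓝 x] fun _ : ℝ => (0 : ℝ) := by
      filter_upwards [hopen.mem_nhds hx] with w hw
      exact h1 w hw
    exact (hasDerivAt_const x (0 : ℝ)).congr_of_eventuallyEq this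
  exact (hf2 x).unique h2

theorem f2_even {f f1 f2 : ℝ → ℝ} (hf1 : ∀ x, HasDerivAt f (f1 x) x)
    (hf2 : ∀ x, HasDerivAt f1 (f2 x) x) (he : ∀ x, f (-x) = f x) (x : ℝ) : f2 (-x) = f2 x := by
  have h1 : ∀ x, f1 (-x) = -f1 x := by
    intro x
    have h2 : HasDerivAt f (-f1 (-x)) x := by
      have h3 := (hf1 (-x)).scomp x (hasDerivAt_neg x)
      have e : f ∘ Neg.neg = f := by funext z; exact he z
      rw [e] at h3
      simpa using h3
    have := (hf1 x).unique h2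
    linarith
  have h2 : HasDerivAt f1 (f2 (-x)) x := by
    have h3 := ((hf2 (-x)).scomp x (hasDerivAt_neg x)).neg
    have e : -(f1 ∘ Neg.neg) = f1 := by
      funext z
      simp only [Pi.neg_apply, Function.comp]
      rw [h1]; ring
    rw [e] at h3
    simpa using h3
  exact h2.unique (hf2 x)

/-- the off-diagonal coefficients -/
noncomputable def cc (B1 B2 : ℝ → ℝ) (L k : ℕ) : ℝ :=
  ∑ i ∈ range (L + 1), (dd B1 i * dd B2 (i + k) + dd B1 (i + k) * dd B2 i)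

theorem quad_cc (y : ℕ → ℝ) (B1 B2 : ℝ → ℝ) (L : ℕ) (h1 : ∀ x : ℝ, (L : ℝ) ≤ x → B1 x = 0)
    (h2 : ∀ x : ℝ, (L : ℝ) ≤ x → B2 x = 0) (M : ℕ) :
    ∑ i ∈ range (L + 1), ∑ j ∈ range (L + 1), dd B1 i * dd B2 j * WW y M (max i j - min i j) =
      ∑ k ∈ Icc 1 (L + 1), cc B1 B2 L k * WW y M k := by
  rw [double_range (fun i j => dd B1 i * dd B2 j * WW y M (max i j - min i j))]
  have e0 : ∑ i ∈ range (L + 1), dd B1 i * dd B2 i * WW y M (max i i - min i i) = 0 := by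
    apply sum_eq_zero
    intro i _
    rw [max_self, min_self, Nat.sub_self, WW_zero, mul_zero]
  rw [e0, zero_add]
  refine sum_congr rfl fun k hk => ?_
  rw [mem_Icc] at hk
  unfold cc
  rw [sum_mul]
  have hsub : range (L + 1 - k) ⊆ range (L + 1) := range_subset_range.2 (by omega)
  rw [← sum_subset hsub]
  · refine sum_congr rfl fun i _ => ?_
    have a1 : max i (i + k) - min i (i + k) = k := by
      rw [max_eq_right (by omega), min_eq_left (by omega)]; omega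
    have a2 : max (i + k) i - min (i + k) i = k := by
      rw [max_eq_left (by omega), min_eq_right (by omega)]; omega
    rw [a1, a2]; ring
  · intro i hi hi2
    rw [mem_range] at hi hi2
    have h3 : L + 1 ≤ i + k := by omega
    have h3' : (L : ℝ) + 1 ≤ ((i + k : ℕ) : ℝ) := by exact_mod_cast h3
    have b1 : dd B1 (i + k) = 0 := by
      show B1 (((i + k : ℕ) : ℝ) - 1) - B1 ((i + k : ℕ) : ℝ) = 0
      rw [h1 _ (by linarith), h1 _ (by linarith)]; ring
    have b2 : dd B2 (i + k) = 0 := by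
      show B2 (((i + k : ℕ) : ℝ) - 1) - B2 ((i + k : ℕ) : ℝ) = 0
      rw [h2 _ (by linarith), h2 _ (by linarith)]; ring
    rw [b1, b2]; ring

/-- the coefficients vanish beyond the range -/
theorem cc_zero {B1 B2 : ℝ → ℝ} {L A k : ℕ} (hA : 1 ≤ A) (hk : 2 * A < k)
    (hs : ∀ s t, B1 s ≠ 0 → B2 t ≠ 0 → |s - t| ≤ A) : cc B1 B2 L k = 0 := by
  have hd : ∀ (B : ℝ → ℝ) (i : ℕ), dd B i ≠ 0 → ∃ s : ℝ, B s ≠ 0 ∧ (i : ℝ) - 1 ≤ s ∧ s ≤ i := by
    intro B i hi
    by_contra hcon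
    push Not at hcon
    apply hi
    unfold dd
    have h1 : B i = 0 := by
      by_contra h
      exact absurd (hcon i h (by linarith)) (by linarith)
    have h2 : B ((i : ℝ) - 1) = 0 := by
      by_contra h
      exact absurd (hcon _ h le_rfl) (by linarith)
    rw [h1, h2, sub_zero]
  have hA0 : (1 : ℝ) ≤ A := by exact_mod_cast hA
  have hk0 : 2 * (A : ℝ) + 1 ≤ k := by exact_mod_cast hk
  unfold cc
  apply sum_eq_zero
  intro i _
  have e1 : dd B1 i * dd B2 (i + k) = 0 := by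
    by_contra h
    rw [mul_eq_zero, not_or] at h
    obtain ⟨s, hs1, hs2, hs3⟩ := hd _ _ h.1
    obtain ⟨t, ht1, ht2, ht3⟩ := hd _ _ h.2
    have := hs s t hs1 ht1
    rw [abs_le] at this
    push_cast at ht2
    have hcon : (k : ℝ) - 1 ≤ A := by linarith [this.1]
    have : (A : ℝ) + 1 < k := by
      rcases eq_or_lt_of_le hA0 with h0 | h0
      · rw [← h0] at hk0 ⊢; linarith
      · linarith
    linarith
  have e2 : dd B1 (i + k) * dd B2 i = 0 := by
    by_contra h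
    rw [mul_eq_zero, not_or] at h
    obtain ⟨s, hs1, hs2, hs3⟩ := hd _ _ h.1
    obtain ⟨t, ht1, ht2, ht3⟩ := hd _ _ h.2
    have := hs s t hs1 ht1
    rw [abs_le] at this
    push_cast at hs2
    have hcon : (k : ℝ) - 1 ≤ A := by linarith [this.2]
    have : (A : ℝ) + 1 < k := by
      rcases eq_or_lt_of_le hA0 with h0 | h0
      · rw [← h0] at hk0 ⊢; linarith
      · linarith
    linarith
  rw [e1, e2, add_zero]

/-- the coefficients are close to minus twice the second derivative of the correlation -/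
theorem cc_close {B1 B1' B2 B2' : ℝ → ℝ} {L : ℕ} {m1 m2 : ℝ} (h1 : BF B1 B1' L m1)
    (h2 : BF B2 B2' L m2) (hev : ∀ x, ff B1 B2 (-x) = ff B1 B2 x) (k : ℕ) :
    |cc B1 B2 L k + 2 * f2 B1' B2' k| ≤ 2 * (m2 * ∫ t, |B1' t|) := by
  have a1 := cp h1 h2 k
  have a2 := cm h1 h2 k
  have e1 : ∫ t, B1' t * B2' (t + k) = -f2 B1' B2' k := by unfold f2; ring
  have e2 : ∫ t, B1' (t + k) * B2' t = -f2 B1' B2' k := by
    have e3 : ∫ t, B1' (t + k) * B2' t = ∫ t, B2' t * B1' (t + k) := by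
      refine integral_congr_ae ?_
      filter_upwards with t
      ring
    rw [e3, shift_int]
    have e4 := f2_even (ff_deriv h1 h2) (ff_deriv2 h1 h2) hev (k : ℝ)
    have e5 : ∫ t, B1' t * B2' (t - k) = ∫ t, B1' t * B2' (t + -k) := by
      simp only [sub_eq_add_neg]
    rw [e5]
    unfold f2
    linarith
  rw [e1] at a1
  rw [e2] at a2
  have e : cc B1 B2 L k + 2 * f2 B1' B2' k =
      (∑ i ∈ range (L + 1), dd B1 i * dd B2 (i + k) - -f2 B1' B2' k) +
      (∑ i ∈ range (L + 1), dd B1 (i + k) * dd B2 i - -f2 B1' B2' k) := by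
    unfold cc
    rw [sum_add_distrib]; ring
  rw [e]
  refine (abs_add_le _ _).trans ((add_le_add a1 a2).trans (le_of_eq ?_))
  ring

theorem ff_supp {B1 B2 : ℝ → ℝ} {A : ℝ} (hs : ∀ s t, B1 s ≠ 0 → B2 t ≠ 0 → |s - t| ≤ A) {x : ℝ}
    (hx : A < |x|) : ff B1 B2 x = 0 := by
  unfold ff
  apply integral_eq_zero_of_ae
  filter_upwards with t
  by_contra h
  simp only [Pi.zero_apply, mul_eq_zero, not_or] at h
  have := hs t (t + x) h.1 h.2
  rw [show t - (t + x) = -x by ring, abs_neg] at this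
  linarith

/-- the mean of the product of two linear statistics, in terms of the pair sum of the correlation
of the weights -/
theorem main_quad {y : ℕ → ℝ} (h : Hyp y) : ∃ C : ℝ, 0 ≤ C ∧ ∀ A : ℕ, 1 ≤ A →
    ∀ (B1 B1' B2 B2' : ℝ → ℝ) (L : ℕ) (m1 m2 F : ℝ), BF B1 B1' L m1 → BF B2 B2' L m2 →
    (∀ x, ff B1 B2 (-x) = ff B1 B2 x) → (∀ s t, B1 s ≠ 0 → B2 t ≠ 0 → |s - t| ≤ A) →
    (∀ x, |ff B1 B2 x| ≤ F) → ∀ ε : ℝ, 0 < ε → ∀ᶠ M : ℕ in atTop,
    |∑ n ∈ Icc 1 M, TT y B1 L n * TT y B2 L n - (PP y (ff B1 B2) M - SA A (ff B1 B2) * M)| ≤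
      (C * (m2 * (∫ t, |B1' t|) * AL A 3 + F / (A : ℝ) ^ 4) + ε) * M := by
  obtain ⟨C, hC, H⟩ := second_order h
  obtain ⟨C', hC', H'⟩ := moment_sum h 2
  refine ⟨C + C', by positivity, fun A hA B1 B1' B2 B2' L m1 m2 F h1 h2 hev hs hF ε hε => ?_⟩
  have hA0 : (0 : ℝ) < A := by exact_mod_cast hA
  have hF0 : 0 ≤ F := (abs_nonneg _).trans (hF 0)
  set N1 := ∫ t, |B1' t| with hN1
  have hN10 : 0 ≤ N1 := integral_nonneg fun t => abs_nonneg _
  have hm2 := h2.m0
  filter_upwards [quad_form h B1 B2 L h1.bL h1.bm1 h2.bL h2.bm1 (ε / 2) (by positivity),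
    H A hA (ff B1 B2) (fun x => ∫ t, B1 t * B2' (t + x)) (f2 B1' B2') F (m2 * N1) hev
      (fun v hv => ff_supp hs hv) hF (ff_deriv h1 h2) (ff_deriv2 h1 h2) (f2_lip h1 h2)
      (by positivity) (ε / 2) (by positivity), H' A hA] with M hM1 hM2 hM3
  have hM0 : (0 : ℝ) ≤ M := Nat.cast_nonneg M
  rw [quad_cc y B1 B2 L h1.s1 h2.s1 M] at hM1
  -- the range of the sum
  have hrange : ∑ k ∈ Icc 1 (L + 1), cc B1 B2 L k * WW y M k =
      ∑ k ∈ Icc 1 (2 * A), cc B1 B2 L k * WW y M k := by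
    have hb1 : ∀ k, L + 1 < k → cc B1 B2 L k = 0 := by
      intro k hk
      unfold cc
      apply sum_eq_zero
      intro i _
      have h3' : (L : ℝ) + 1 ≤ ((i + k : ℕ) : ℝ) := by
        have : L + 1 ≤ i + k := by omega
        exact_mod_cast this
      have b1 : dd B1 (i + k) = 0 := by
        show B1 (((i + k : ℕ) : ℝ) - 1) - B1 ((i + k : ℕ) : ℝ) = 0
        rw [h1.s1 _ (by linarith), h1.s1 _ (by linarith)]; ring
      have b2 : dd B2 (i + k) = 0 := by
        show B2 (((i + k : ℕ) : ℝ) - 1) - B2 ((i + k : ℕ) : ℝ) = 0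
        rw [h2.s1 _ (by linarith), h2.s1 _ (by linarith)]; ring
      rw [b1, b2]; ring
    have e1 : ∑ k ∈ Icc 1 (L + 1), cc B1 B2 L k * WW y M k =
        ∑ k ∈ Icc 1 (L + 1 + 2 * A), cc B1 B2 L k * WW y M k := by
      apply sum_subset (Icc_subset_Icc le_rfl (by omega))
      intro k hk hk2
      rw [mem_Icc] at hk hk2
      rw [hb1 k (by omega), zero_mul]
    have e2 : ∑ k ∈ Icc 1 (2 * A), cc B1 B2 L k * WW y M k =
        ∑ k ∈ Icc 1 (L + 1 + 2 * A), cc B1 B2 L k * WW y M k := by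
      apply sum_subset (Icc_subset_Icc le_rfl (by omega))
      intro k hk hk2
      rw [mem_Icc] at hk hk2
      rw [cc_zero hA (by omega) hs, zero_mul]
    rw [e1, e2]
  rw [hrange] at hM1
  have e1 : |1 / 2 * ∑ k ∈ Icc 1 (2 * A), cc B1 B2 L k * WW y M k +
      ∑ k ∈ Icc 1 (2 * A), f2 B1' B2' k * ∑ n ∈ Icc 1 M, xx y n k ^ 2| ≤
      m2 * N1 * (C' * AL A 2 * M) := by
    have e2 : 1 / 2 * ∑ k ∈ Icc 1 (2 * A), cc B1 B2 L k * WW y M k +
      ∑ k ∈ Icc 1 (2 * A), f2 B1' B2' k * ∑ n ∈ Icc 1 M, xx y n k ^ 2 =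
      ∑ k ∈ Icc 1 (2 * A), 1 / 2 * (cc B1 B2 L k + 2 * f2 B1' B2' k) * WW y M k := by
      rw [mul_sum, ← sum_add_distrib]
      refine sum_congr rfl fun k _ => ?_
      unfold WW; ring
    rw [e2]
    have e3 : ∀ k ∈ Icc 1 (2 * A), |1 / 2 * (cc B1 B2 L k + 2 * f2 B1' B2' k) * WW y M k| ≤
        m2 * N1 * ∑ n ∈ Icc 1 M, |xx y n k| ^ 2 := by
      intro k _
      have hW : WW y M k = ∑ n ∈ Icc 1 M, |xx y n k| ^ 2 := by
        unfold WW
        simp_rw [sq_abs]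
      have hW0 : 0 ≤ ∑ n ∈ Icc 1 M, |xx y n k| ^ 2 := sum_nonneg fun n _ => by positivity
      rw [hW, abs_mul, abs_mul, abs_of_nonneg hW0]
      apply mul_le_mul_of_nonneg_right _ hW0
      have := cc_close h1 h2 hev k
      rw [abs_of_pos (by norm_num : (0 : ℝ) < 1 / 2)]
      rw [← hN1] at this
      linarith
    refine (abs_sum_le_sum_abs _ _).trans ((sum_le_sum e3).trans ?_)
    rw [← mul_sum]
    exact mul_le_mul_of_nonneg_left hM3 (by positivity)
  have e : ∑ n ∈ Icc 1 M, TT y B1 L n * TT y B2 L n - (PP y (ff B1 B2) M - SA A (ff B1 B2) * M) =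
      (∑ n ∈ Icc 1 M, TT y B1 L n * TT y B2 L n +
        1 / 2 * ∑ k ∈ Icc 1 (2 * A), cc B1 B2 L k * WW y M k) -
      (1 / 2 * ∑ k ∈ Icc 1 (2 * A), cc B1 B2 L k * WW y M k +
        ∑ k ∈ Icc 1 (2 * A), f2 B1' B2' k * ∑ n ∈ Icc 1 M, xx y n k ^ 2) -
      (PP y (ff B1 B2) M - SA A (ff B1 B2) * M -
        ∑ k ∈ Icc 1 (2 * A), f2 B1' B2' k * ∑ n ∈ Icc 1 M, xx y n k ^ 2) := by ring
  rw [e]
  refine (abs_sub _ _).trans ((add_le_add ((abs_sub _ _).trans (add_le_add hM1 e1)) hM2).trans ?_)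
  have h5 : 0 ≤ F / (A : ℝ) ^ 4 := by positivity
  have h6 := AL_nonneg A 3
  have h7 := AL_two_three hA
  have h8 : m2 * N1 * (C' * AL A 2 * M) ≤ m2 * N1 * (C' * AL A 3 * M) := by
    apply mul_le_mul_of_nonneg_left _ (by positivity)
    apply mul_le_mul_of_nonneg_right _ hM0
    exact mul_le_mul_of_nonneg_left h7 hC'
  nlinarith [mul_nonneg (mul_nonneg hC' h5) hM0]

end Pool.Agent.Helper37.GL
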