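import Pool.Agent.Helper37.GL.Base

/-! Growth, moments and tails. -/

open Finset Filter Topology MeasureTheory
open Pool.Agent.Y748 Pool.Agent.Y748.SR

set_option autoImplicit false

namespace Pool.Agent.Helper37.GL

theorem mono_le {y : ℕ → ℝ} (h : Hyp y) {n m : ℕ} (hn : 1 ≤ n) (hnm : n ≤ m) : y n ≤ y m := by
  induction m, hnm using Nat.le_induction with
  | base => exact le_rfl
  | succ m hm ih => exact ih.trans (h.mono m (hn.trans hm))

theorem exc_finite (y : ℕ → ℝ) (m N : ℕ) : (Exc y m N).Finite :=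
  (Set.finite_Icc 1 N).subset fun n hn => ⟨hn.1, hn.2.1⟩

theorem exc_card_le (y : ℕ → ℝ) (m N : ℕ) : (Exc y m N).ncard ≤ N := by
  have h := Set.ncard_le_ncard (s := Exc y m N) (t := Set.Icc 1 N) (fun _ hn => ⟨hn.1, hn.2.1⟩)
    (Set.finite_Icc 1 N)
  rwa [← Finset.coe_Icc, Set.ncard_coe_finset, Nat.card_Icc, Nat.add_sub_cancel] at h

theorem exc_bound {y : ℕ → ℝ} (h : Hyp y) : ∃ C : ℝ, 0 ≤ C ∧ ∀ M m : ℕ, 1 ≤ m →
    ((Exc y m M).ncard : ℝ) ≤ C * M / (m : ℝ) ^ 6 := by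
  obtain ⟨c, hc, m0, hm0, H⟩ := h.ld
  set m1 : ℕ := max m0 3 with hm1
  refine ⟨720 / c ^ 6 + (m1 : ℝ) ^ 6, by positivity, fun M m hm => ?_⟩
  have hmpos : (0 : ℝ) < m := by exact_mod_cast hm
  have hM0 : (0 : ℝ) ≤ M := Nat.cast_nonneg M
  rw [le_div_iff₀ (by positivity)]
  rcases lt_or_ge m m1 with hlt | hge
  · have h1 : ((Exc y m M).ncard : ℝ) ≤ M := by exact_mod_cast exc_card_le y m M
    have h2 : (m : ℝ) ^ 6 ≤ (m1 : ℝ) ^ 6 :=
      pow_le_pow_left₀ hmpos.le (by exact_mod_cast hlt.le) 6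
    calc ((Exc y m M).ncard : ℝ) * (m : ℝ) ^ 6 ≤ M * (m1 : ℝ) ^ 6 :=
          mul_le_mul h1 h2 (by positivity) hM0
      _ ≤ (720 / c ^ 6 + (m1 : ℝ) ^ 6) * M := by
          have : 0 ≤ 720 / c ^ 6 * (M : ℝ) := by positivity
          nlinarith
  · rcases Nat.eq_zero_or_pos M with hM | hM
    · subst hM
      have : Exc y m 0 = ∅ := by
        ext n; simp only [Exc, Set.mem_ofPred_eq, Set.mem_empty_iff_false, iff_false]; omega
      rw [this]; simp
    have h1 := H M hM m ((le_max_left _ _).trans hge)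
    have hm3 : (3 : ℝ) ≤ m := by exact_mod_cast (le_max_right _ _).trans hge
    have hlog : 1 ≤ Real.log m := by
      rw [Real.le_log_iff_exp_le hmpos]
      have := Real.exp_one_lt_d9
      linarith
    have h2 : Real.exp (-c * m * Real.log m) ≤ Real.exp (-(c * m)) := by
      apply Real.exp_le_exp.2
      nlinarith [mul_pos hc hmpos]
    have h3 : (c * m) ^ 6 / (Nat.factorial 6 : ℝ) ≤ Real.exp (c * m) :=
      Real.pow_div_factorial_le_exp _ (by positivity) 6
    have h4 : (m : ℝ) ^ 6 * Real.exp (-(c * m)) ≤ 720 / c ^ 6 := by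
      rw [le_div_iff₀ (by positivity), Real.exp_neg]
      have h5 : (Nat.factorial 6 : ℝ) = 720 := by norm_num [Nat.factorial]
      rw [h5, div_le_iff₀ (by norm_num), mul_pow] at h3
      have h6 := Real.exp_pos (c * m)
      rw [show (m : ℝ) ^ 6 * (Real.exp (c * m))⁻¹ * c ^ 6 =
        (c ^ 6 * (m : ℝ) ^ 6) / Real.exp (c * m) by field_simp, div_le_iff₀ h6]
      linarith
    calc ((Exc y m M).ncard : ℝ) * (m : ℝ) ^ 6
        ≤ (M * Real.exp (-(c * m))) * (m : ℝ) ^ 6 :=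
          mul_le_mul_of_nonneg_right (h1.trans (mul_le_mul_of_nonneg_left h2 hM0)) (by positivity)
      _ = M * ((m : ℝ) ^ 6 * Real.exp (-(c * m))) := by ring
      _ ≤ M * (720 / c ^ 6) := mul_le_mul_of_nonneg_left h4 hM0
      _ ≤ _ := by
        have : 0 ≤ (m1 : ℝ) ^ 6 * (M : ℝ) := by positivity
        nlinarith

theorem growth {y : ℕ → ℝ} (h : Hyp y) : ∃ C : ℝ, 0 ≤ C ∧ ∀ n k : ℕ, 1 ≤ n →
    |xx y n k| ≤ C * (Real.log n + 1) + k := by
  obtain ⟨c, hc, m0, hm0, H⟩ := h.ld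
  refine ⟨3 / 2 * (m0 + 2 / c + 4), by positivity, fun n k hn => ?_⟩
  have hn1 : (1 : ℝ) ≤ n := by exact_mod_cast hn
  have hlogn : 0 ≤ Real.log n := Real.log_nonneg hn1
  set m : ℕ := m0 + (⌈2 / c * Real.log n⌉₊ + 3) with hm
  have hmc : 2 / c * Real.log n + 3 ≤ m := by
    rw [hm]; push_cast
    have := Nat.le_ceil (2 / c * Real.log n)
    have : (0 : ℝ) ≤ m0 := Nat.cast_nonneg _
    linarith
  have hmu : (m : ℝ) ≤ m0 + 2 / c * Real.log n + 4 := by
    rw [hm]; push_cast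
    have := (Nat.ceil_lt_add_one (show 0 ≤ 2 / c * Real.log n by positivity)).le
    linarith
  have h0 : 0 ≤ 2 / c * Real.log n := by positivity
  have hmpos : (0 : ℝ) < m := by linarith
  have hlogm : 1 ≤ Real.log m := by
    rw [Real.le_log_iff_exp_le hmpos]
    have := Real.exp_one_lt_d9
    linarith
  have h1 := H n hn m (by omega)
  have h2 : (n : ℝ) * Real.exp (-c * m * Real.log m) < 1 := by
    have h3 : Real.log n < c * m * Real.log m := by
      have h4 : c * m ≤ c * m * Real.log m := le_mul_of_one_le_right (by positivity) hlogm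
      have h5 : c * (2 / c * Real.log n + 3) ≤ c * m := mul_le_mul_of_nonneg_left hmc hc.le
      have h6 : c * (2 / c * Real.log n + 3) = 2 * Real.log n + 3 * c := by field_simp
      nlinarith
    have h4 : (n : ℝ) = Real.exp (Real.log n) := (Real.exp_log (by linarith)).symm
    have h5 : (n : ℝ) * Real.exp (-c * m * Real.log m) =
        Real.exp (Real.log n + -c * m * Real.log m) := by
      rw [Real.exp_add, ← h4]
    rw [h5, Real.exp_lt_one_iff]
    linarith
  have h3 : (Exc y m n).ncard = 0 := by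
    have : ((Exc y m n).ncard : ℝ) < 1 := lt_of_le_of_lt h1 h2
    have h' : (Exc y m n).ncard < 1 := by exact_mod_cast this
    omega
  rw [Set.ncard_eq_zero (exc_finite y m n)] at h3
  have h4 : ∀ j : ℕ, 1 ≤ j → (m : ℝ) ≤ |(j : ℝ) - n| →
      |y j - y n - ((j : ℝ) - n)| < 1 / 2 * |(j : ℝ) - n| := by
    intro j hj hj2
    by_contra hcon
    have : n ∈ Exc y m n := ⟨hn, le_rfl, j, hj, hj2, not_lt.1 hcon⟩
    rw [h3] at this
    exact this
  have hk0 : (0 : ℝ) ≤ k := Nat.cast_nonneg k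
  have hC : 3 / 2 * (m : ℝ) ≤ 3 / 2 * (m0 + 2 / c + 4) * (Real.log n + 1) := by
    have hm00 : (0 : ℝ) ≤ m0 := Nat.cast_nonneg _
    have hc2 : 0 ≤ 2 / c := by positivity
    nlinarith [mul_nonneg hm00 hlogn]
  rcases le_or_gt m k with hk | hk
  · have h5 := h4 (n + k) (by omega) (by
      push_cast
      rw [show (n : ℝ) + k - n = k by ring, abs_of_nonneg hk0]
      exact_mod_cast hk)
    have e : y (n + k) - y n - (((n + k : ℕ) : ℝ) - n) = xx y n k := by
      unfold xx; push_cast; ring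
    have e2 : |(((n + k : ℕ) : ℝ) - n)| = k := by
      push_cast
      rw [show (n : ℝ) + k - n = k by ring, abs_of_nonneg hk0]
    rw [e, e2] at h5
    have : 0 ≤ 3 / 2 * (m : ℝ) := by positivity
    linarith
  · have h5 := h4 (n + m) (by omega) (by
      push_cast
      rw [show (n : ℝ) + m - n = m by ring, abs_of_pos hmpos])
    have e2 : |(((n + m : ℕ) : ℝ) - n)| = m := by
      push_cast
      rw [show (n : ℝ) + m - n = m by ring, abs_of_pos hmpos]
    rw [e2] at h5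
    push_cast at h5
    have h6 := (abs_lt.1 h5).2
    have h7 : y (n + k) ≤ y (n + m) := mono_le h (by omega) (by omega)
    have h8 : y n ≤ y (n + k) := mono_le h hn (by omega)
    unfold xx
    rw [abs_le]
    constructor <;> linarith

theorem pow_le_levels (p : ℕ) (u : ℝ) (hu : 0 ≤ u) (J : ℕ) (hJ : u ≤ J) :
    u ^ p ≤ 1 + ∑ j ∈ Icc 1 J, if (j : ℝ) ≤ u then ((j : ℝ) + 1) ^ p else 0 := by
  have hnn : ∀ j ∈ Icc 1 J, (0 : ℝ) ≤ if (j : ℝ) ≤ u then ((j : ℝ) + 1) ^ p else 0 := by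
    intro j _
    split_ifs <;> positivity
  rcases lt_or_ge u 1 with h | h
  · have h1 : u ^ p ≤ 1 := pow_le_one₀ hu h.le
    have h2 := sum_nonneg hnn
    linarith
  · set j := ⌊u⌋₊ with hj
    have hj1 : 1 ≤ j := by rw [hj, Nat.one_le_floor_iff]; exact h
    have hj2 : (j : ℝ) ≤ u := Nat.floor_le hu
    have hj3 : u < j + 1 := Nat.lt_floor_add_one u
    have hjJ : j ∈ Icc 1 J := by
      rw [mem_Icc]
      exact ⟨hj1, by exact_mod_cast hj2.trans hJ⟩
    have h1 := single_le_sum hnn hjJ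
    rw [if_pos hj2] at h1
    have h2 : u ^ p ≤ ((j : ℝ) + 1) ^ p := pow_le_pow_left₀ hu hj3.le p
    linarith

theorem moment {y : ℕ → ℝ} (h : Hyp y) (p : ℕ) : ∃ C : ℝ, 0 ≤ C ∧ ∀ k : ℕ, 1 ≤ k →
    ∀ᶠ M : ℕ in atTop, ∑ n ∈ Icc 1 M, |xx y n k| ^ p ≤ C * Real.log (k + 1) ^ p * M := by
  obtain ⟨c, C, hc, hC, H⟩ := h.rig
  set C1 : ℝ := max C 3 with hC1
  have hC13 : 3 ≤ C1 := le_max_right _ _
  set q : ℝ := Real.exp (-(c * C1 * Real.log 2)) with hq
  have hlog2 : 0 < Real.log 2 := Real.log_pos (by norm_num)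
  have hq0 : 0 < q := Real.exp_pos _
  have hq1 : q < 1 := by
    rw [hq, Real.exp_lt_one_iff]
    have : 0 < c * C1 * Real.log 2 := by positivity
    linarith
  have hsum : Summable fun j : ℕ => ((j : ℝ) + 1) ^ p * q ^ j := by
    have h1 : Summable fun j : ℕ => (j : ℝ) ^ p * q ^ j :=
      summable_pow_mul_geometric_of_norm_lt_one p (by rw [Real.norm_of_nonneg hq0.le]; exact hq1)
    have h2 := (summable_nat_add_iff 1).2 h1
    have h3 := h2.mul_left q⁻¹
    refine h3.congr fun j => ?_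
    push_cast
    rw [pow_succ]
    field_simp
  set Sp : ℝ := ∑' j : ℕ, ((j : ℝ) + 1) ^ p * q ^ j with hSp
  have hSp0 : 0 ≤ Sp := tsum_nonneg fun j => by positivity
  refine ⟨C1 ^ p * (2 + Sp), by positivity, fun k hk => ?_⟩
  have hk1 : (1 : ℝ) ≤ k := by exact_mod_cast hk
  set L : ℝ := Real.log (k + 1) with hL
  have hL2 : Real.log 2 ≤ L := Real.log_le_log (by norm_num) (by linarith)
  have hL0 : 0 < L := hlog2.trans_le hL2
  set Λ : ℝ := C1 * L with hΛ
  have hΛ0 : 0 < Λ := by positivity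
  -- the small indices
  set B : ℕ := ⌈Real.exp k⌉₊ with hB
  set D : ℝ := ∑ n ∈ Icc 1 B, |xx y n k| ^ p with hD
  have hev : ∀ᶠ M : ℕ in atTop, D ≤ Λ ^ p * M := by
    have : Tendsto (fun M : ℕ => Λ ^ p * (M : ℝ)) atTop atTop :=
      tendsto_natCast_atTop_atTop.const_mul_atTop (by positivity)
    exact this.eventually_ge_atTop D
  filter_upwards [hev] with M hM
  have hM0 : (0 : ℝ) ≤ M := Nat.cast_nonneg M
  -- split
  have hsplit : ∑ n ∈ Icc 1 M, |xx y n k| ^ p ≤
      D + ∑ n ∈ (Icc 1 M).filter (fun n : ℕ => (k : ℝ) ≤ Real.log n), |xx y n k| ^ p := by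
    rw [← sum_filter_add_sum_filter_not (Icc 1 M) (fun n : ℕ => (k : ℝ) ≤ Real.log n), add_comm]
    apply add_le_add_left
    rw [hD]
    apply sum_le_sum_of_subset_of_nonneg
    · intro n hn
      rw [mem_filter, mem_Icc, not_le] at hn
      rw [mem_Icc]
      refine ⟨hn.1.1, ?_⟩
      have hn0 : (0 : ℝ) < n := by exact_mod_cast hn.1.1
      have h1 : (n : ℝ) < Real.exp k := by
        rw [← Real.exp_log hn0]
        exact Real.exp_lt_exp.2 hn.2
      have h2 : (n : ℝ) ≤ B := h1.le.trans (Nat.le_ceil _)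
      exact_mod_cast h2
    · intro _ _ _; positivity
  set F := (Icc 1 M).filter (fun n : ℕ => (k : ℝ) ≤ Real.log n) with hF
  obtain ⟨J, hJ⟩ : ∃ J : ℕ, ∀ n ∈ F, |xx y n k| / Λ ≤ J := by
    refine ⟨∑ n ∈ F, ⌈|xx y n k| / Λ⌉₊, fun n hn => ?_⟩
    have h1 := Nat.le_ceil (|xx y n k| / Λ)
    have h2 : ⌈|xx y n k| / Λ⌉₊ ≤ ∑ n ∈ F, ⌈|xx y n k| / Λ⌉₊ :=
      single_le_sum (f := fun n => ⌈|xx y n k| / Λ⌉₊) (fun _ _ => Nat.zero_le _) hn
    exact h1.trans (by exact_mod_cast h2)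
  have hcount : ∀ j : ℕ, 1 ≤ j →
      ((F.filter fun n => (j : ℝ) ≤ |xx y n k| / Λ).card : ℝ) ≤ M * q ^ j := by
    intro j hj
    have hj1 : (1 : ℝ) ≤ j := by exact_mod_cast hj
    have h1 := H M k hk (j * Λ) (by
      rw [hΛ]
      have : C ≤ C1 := le_max_left _ _
      calc C * Real.log (k + 1) ≤ C1 * L := mul_le_mul_of_nonneg_right this hL0.le
        _ ≤ j * (C1 * L) := le_mul_of_one_le_left (by positivity) hj1)
    have e1 : {n : ℕ | 1 ≤ n ∧ n ≤ M ∧ (k : ℝ) ≤ Real.log n ∧ j * Λ ≤ |xx y n k|} =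
        ((F.filter fun n => (j : ℝ) ≤ |xx y n k| / Λ : Finset ℕ) : Set ℕ) := by
      ext n
      simp only [Set.mem_ofPred_eq, coe_filter, hF, mem_filter, mem_Icc, le_div_iff₀ hΛ0]
      tauto
    rw [e1, Set.ncard_coe_finset] at h1
    refine h1.trans (mul_le_mul_of_nonneg_left ?_ hM0)
    rw [hq, ← Real.exp_nat_mul]
    apply Real.exp_le_exp.2
    have e2 : j * Λ / Real.log (k + 1) = j * C1 := by rw [hΛ, ← hL]; field_simp
    rw [e2]
    have h3 : 1 ≤ Real.log (j * C1) := by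
      rw [Real.le_log_iff_exp_le (by positivity)]
      have := Real.exp_one_lt_d9
      nlinarith
    have h4 : c * C1 * Real.log 2 * j ≤ c * (j * Λ) := by
      rw [hΛ]
      have : c * C1 * j * Real.log 2 ≤ c * C1 * j * L := mul_le_mul_of_nonneg_left hL2 (by positivity)
      nlinarith
    have h5 : c * (j * Λ) ≤ c * (j * Λ) * Real.log (j * C1) :=
      le_mul_of_one_le_right (by positivity) h3
    nlinarith
  have hmain : ∑ n ∈ F, |xx y n k| ^ p ≤ Λ ^ p * (M * (1 + Sp)) := by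
    have h1 : ∀ n ∈ F, |xx y n k| ^ p ≤ Λ ^ p *
        (1 + ∑ j ∈ Icc 1 J, if (j : ℝ) ≤ |xx y n k| / Λ then ((j : ℝ) + 1) ^ p else 0) := by
      intro n hn
      have h2 := pow_le_levels p (|xx y n k| / Λ) (by positivity) J (hJ n hn)
      have h3 := mul_le_mul_of_nonneg_left h2 (by positivity : 0 ≤ Λ ^ p)
      rw [div_pow, mul_div_cancel₀ _ (by positivity)] at h3
      exact h3
    refine (sum_le_sum h1).trans ?_
    rw [← mul_sum]
    apply mul_le_mul_of_nonneg_left _ (by positivity)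
    rw [sum_add_distrib, sum_comm]
    have h4 : ∑ n ∈ F, (1 : ℝ) ≤ M := by
      rw [sum_const, nsmul_eq_mul, mul_one]
      have : F.card ≤ (Icc 1 M).card := card_le_card (filter_subset _ _)
      rw [Nat.card_Icc, Nat.add_sub_cancel] at this
      exact_mod_cast this
    have h5 : ∑ j ∈ Icc 1 J, ∑ n ∈ F, (if (j : ℝ) ≤ |xx y n k| / Λ then ((j : ℝ) + 1) ^ p else 0) ≤
        M * Sp := by
      have h6 : ∀ j ∈ Icc 1 J, ∑ n ∈ F,
          (if (j : ℝ) ≤ |xx y n k| / Λ then ((j : ℝ) + 1) ^ p else 0) ≤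
          M * (((j : ℝ) + 1) ^ p * q ^ j) := by
        intro j hj
        rw [mem_Icc] at hj
        rw [← sum_filter, sum_const, nsmul_eq_mul]
        have := hcount j hj.1
        calc _ ≤ M * q ^ j * ((j : ℝ) + 1) ^ p := mul_le_mul_of_nonneg_right this (by positivity)
          _ = _ := by ring
      refine (sum_le_sum h6).trans ?_
      rw [← mul_sum]
      apply mul_le_mul_of_nonneg_left _ hM0
      exact hsum.sum_le_tsum _ (fun j _ => by positivity)
    linarith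
  have e3 : C1 ^ p * (2 + Sp) * L ^ p * M = Λ ^ p * M + Λ ^ p * (M * (1 + Sp)) := by
    rw [hΛ, mul_pow]; ring
  rw [e3]
  exact hsplit.trans (add_le_add hM hmain)

end Pool.Agent.Helper37.GL
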