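import Pool.Agent.Helper37.GL.Conv

/-! Montgomery's theorem for smooth functions on long scales. -/

open Finset Filter Topology MeasureTheory
open Pool.Agent.Y748 Pool.Agent.Y748.SR

set_option autoImplicit false

namespace Pool.Agent.Helper37.GL

section

variable {χ w : ℝ → ℝ} (hk : KP χ w)

include hk

theorem near {f f1 f2 : ℝ → ℝ} {A : ℕ} {F Λ : ℝ} (h : PF f f1 f2 A F Λ) (v : ℝ) :
    |rr (fun α => fh f α * χ α) v - f v - 1 / 2 * (∫ u, u ^ 2 * w u) * f2 v| ≤
      Λ * ∫ u, |u| ^ 3 * |w u| := by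
  have hi : ∀ p : ℕ, p ≤ 4 → Integrable fun u => u ^ p * w u := by
    intro p hp
    refine (w_pow_int hk p hp).mono' (by
      exact ((continuous_id.pow p).mul hk.cw).aestronglyMeasurable) ?_
    filter_upwards with u
    rw [Real.norm_eq_abs, abs_mul, abs_pow]
  have h0 := w_int hk
  have hb : Integrable fun u => f (v - u) * w u := by
    refine h0.bdd_mul (c := F)
      (h.cont.comp (continuous_const.sub continuous_id)).aestronglyMeasurable ?_
    filter_upwards with u
    exact h.bd _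
  have hodd : ∫ u, u * w u = 0 := by
    have h1 := integral_neg_eq_self (fun u => u * w u) (volume : Measure ℝ)
    have h2 : ∫ u, -u * w (-u) = -∫ u, u * w u := by
      rw [← integral_neg]
      refine integral_congr_ae ?_
      filter_upwards with u
      rw [w_even hk]; ring
    rw [h2] at h1
    linarith
  have hi1 : Integrable fun u => u * w u := by simpa using hi 1 (by norm_num)
  have hi2 := hi 2 (by norm_num)
  have e : rr (fun α => fh f α * χ α) v - f v - 1 / 2 * (∫ u, u ^ 2 * w u) * f2 v =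
      ∫ u, (f (v + -u) - f v - f1 v * (-u) - 1 / 2 * f2 v * (-u) ^ 2) * w u := by
    rw [rr_conv hk h.int h.ev]
    have e1 : ∫ u, (f (v + -u) - f v - f1 v * (-u) - 1 / 2 * f2 v * (-u) ^ 2) * w u =
        ∫ u, ((f (v - u) * w u - f v * w u) + f1 v * (u * w u)) - 1 / 2 * f2 v * (u ^ 2 * w u) := by
      refine integral_congr_ae ?_
      filter_upwards with u
      rw [← sub_eq_add_neg]; ring
    rw [e1, integral_sub, integral_add, integral_sub hb (h0.const_mul _), integral_const_mul,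
      integral_const_mul, integral_const_mul, hk.mass, hodd]
    · ring
    · exact hb.sub (h0.const_mul _)
    · exact hi1.const_mul _
    · exact (hb.sub (h0.const_mul _)).add (hi1.const_mul _)
    · exact hi2.const_mul _
  rw [e]
  have h4 := norm_integral_le_of_norm_le ((w_pow_int hk 3 (by norm_num)).const_mul Λ)
    (f := fun u => (f (v + -u) - f v - f1 v * (-u) - 1 / 2 * f2 v * (-u) ^ 2) * w u)
    (Eventually.of_forall fun u => by
      rw [Real.norm_eq_abs, abs_mul, ← mul_assoc]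
      apply mul_le_mul_of_nonneg_right _ (abs_nonneg _)
      have := taylor2 h.l0 h.d1 h.d2 h.lip v (-u)
      rwa [abs_neg] at this)
  rw [integral_const_mul] at h4
  exact h4

theorem far {f f1 f2 : ℝ → ℝ} {A : ℕ} {F Λ : ℝ} (h : PF f f1 f2 A F Λ) (hA : 1 ≤ A) {K : ℝ}
    (hK0 : 0 ≤ K) (hK : ∀ v, |w v| * (1 + |v|) ^ 6 ≤ K) (v : ℝ) (hv : 2 * (A : ℝ) ≤ |v|) :
    |rr (fun α => fh f α * χ α) v| ≤ 64 * K * F * (1 / |v| ^ 5) := by
  have hA1 : (1 : ℝ) ≤ A := by exact_mod_cast hA
  have hv0 : 0 < |v| := by linarith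
  rw [rr_conv0 hk h.int h.ev]
  have h1 : ∀ u, |f u * w (v - u)| ≤ |f u| * (64 * K / |v| ^ 6) := by
    intro u
    rw [abs_mul]
    rcases le_or_gt |u| A with hu | hu
    · apply mul_le_mul_of_nonneg_left _ (abs_nonneg _)
      have h2 : |v| / 2 ≤ 1 + |v - u| := by
        have := abs_sub_abs_le_abs_sub v u
        linarith
      have h3 := hK (v - u)
      have h4 : |w (v - u)| * (|v| / 2) ^ 6 ≤ K :=
        (mul_le_mul_of_nonneg_left (pow_le_pow_left₀ (by positivity) h2 6) (abs_nonneg _)).trans h3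
      rw [le_div_iff₀ (by positivity)]
      nlinarith
    · rw [h.supp u hu, abs_zero, zero_mul, zero_mul]
  have h5 := norm_integral_le_of_norm_le (h.int.abs.mul_const (64 * K / |v| ^ 6))
    (f := fun u => f u * w (v - u)) (Eventually.of_forall fun u => by
      rw [Real.norm_eq_abs]; exact h1 u)
  rw [integral_mul_const] at h5
  refine h5.trans ((mul_le_mul_of_nonneg_right h.l1 (by positivity)).trans ?_)
  have hF := h.F0
  have e1 : 2 * (A : ℝ) * F * (64 * K / |v| ^ 6) = 64 * K * F * (1 / |v| ^ 5) * (2 * A / |v|) := by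
    field_simp
  rw [e1]
  have h6 : 2 * (A : ℝ) / |v| ≤ 1 := by rw [div_le_one hv0]; exact hv
  have h7 : 0 ≤ 64 * K * F * (1 / |v| ^ 5) := by positivity
  exact mul_le_of_le_one_right h7 h6

theorem tfn {f f1 f2 : ℝ → ℝ} {A : ℕ} {F Λ : ℝ} (h : PF f f1 f2 A F Λ) (hA : 1 ≤ A) :
    TFn (fun α => fh f α * χ α) (1 / 2) := by
  obtain ⟨K, hK0, hK⟩ := hk.dec
  have hA1 : (1 : ℝ) ≤ A := by exact_mod_cast hA
  have hcf : Continuous (fh f) := by
    unfold fh
    refine continuous_of_dominated (bound := fun u => |f u|) ?_ ?_ h.int.abs ?_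
    · intro α
      exact (h.cont.mul (by fun_prop)).aestronglyMeasurable
    · intro α
      filter_upwards with u
      rw [norm_mul, Real.norm_eq_abs, Real.norm_eq_abs]
      exact mul_le_of_le_one_right (abs_nonneg _) (Real.abs_cos_le_one _)
    · filter_upwards with u
      fun_prop
  have hcR : Continuous fun α => fh f α * χ α := hcf.mul hk.c
  refine ⟨hcR, fun α => ?_, fun α hα => ?_, ?_⟩
  · show fh f (-α) * χ (-α) = fh f α * χ α
    rw [hk.e]
    congr 1
    unfold fh
    refine integral_congr_ae ?_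
    filter_upwards with u
    rw [show 2 * Real.pi * u * -α = -(2 * Real.pi * u * α) by ring, Real.cos_neg]
  · show fh f α * χ α = 0
    rw [hk.s α hα, mul_zero]
  · set K1 : ℝ := ∫ α in (-1 : ℝ)..1, |fh f α * χ α| with hK1
    have hb : ∀ v, |rr (fun α => fh f α * χ α) v| ≤ K1 := by
      intro v
      unfold rr
      have := intervalIntegral.norm_integral_le_of_norm_le (μ := volume) (a := -1) (b := 1)
        (f := fun α => fh f α * χ α * Real.cos (2 * Real.pi * v * α))
        (g := fun α => |fh f α * χ α|) (by norm_num) (by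
          filter_upwards with α _
          rw [norm_mul, Real.norm_eq_abs, Real.norm_eq_abs]
          exact mul_le_of_le_one_right (abs_nonneg _) (Real.abs_cos_le_one _))
        (hcR.abs.intervalIntegrable _ _)
      exact this
    have hK10 : 0 ≤ K1 := (abs_nonneg _).trans (hb 0)
    have hF := h.F0
    refine ⟨K1 * (1 + 4 * (A : ℝ) ^ 2) + 128 * K * F, fun x => ?_⟩
    rw [le_div_iff₀ (by positivity)]
    rcases le_or_gt |x| (2 * A) with hx | hx
    · have h1 : x ^ 2 ≤ 4 * (A : ℝ) ^ 2 := by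
        rw [← sq_abs]
        nlinarith [abs_nonneg x]
      have h2 := hb x
      have h3 : 0 ≤ 128 * K * F := by positivity
      calc |rr (fun α => fh f α * χ α) x| * (1 + x ^ 2) ≤ K1 * (1 + 4 * (A : ℝ) ^ 2) :=
            mul_le_mul h2 (by linarith) (by positivity) hK10
        _ ≤ _ := by linarith
    · have h2 := far hk h hA hK0 hK x hx.le
      have hx0 : 1 ≤ |x| := by linarith
      have h3 : 1 + x ^ 2 ≤ 2 * |x| ^ 5 := by
        rw [← sq_abs]
        have h4 : |x| ^ 2 ≤ |x| ^ 5 := pow_le_pow_right₀ hx0 (by norm_num)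
        have h5 : 1 ≤ |x| ^ 5 := one_le_pow₀ hx0
        linarith
      have h4 : 0 ≤ K1 * (1 + 4 * (A : ℝ) ^ 2) := by positivity
      have h5 : 0 < |x| ^ 5 := by positivity
      calc |rr (fun α => fh f α * χ α) x| * (1 + x ^ 2)
          ≤ 64 * K * F * (1 / |x| ^ 5) * (2 * |x| ^ 5) :=
            mul_le_mul h2 h3 (by positivity) (by positivity)
        _ = 128 * K * F := by field_simp; ring
        _ ≤ _ := by linarith

end

/-- the integral over the cell of `k` -/
noncomputable def cell (g : ℝ → ℝ) (k : ℕ) : ℝ := ∫ t in ((k : ℝ) - 1 / 2)..((k : ℝ) + 1 / 2), g t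

theorem cell_sum {g : ℝ → ℝ} (hg : Continuous g) (he : ∀ x, g (-x) = g x) {A : ℕ}
    (hs : ∀ x, (A : ℝ) < |x| → g x = 0) :
    cell g 0 + 2 * ∑ k ∈ Icc 1 (2 * A), cell g k = ∫ t, g t := by
  have h1 : ∀ N : ℕ, ∑ k ∈ Icc 1 N, cell g k = ∫ t in (1 / 2 : ℝ)..((N : ℝ) + 1 / 2), g t := by
    intro N
    induction N with
    | zero => simp
    | succ N ih =>
      rw [sum_Icc_succ_top (by omega), ih]
      unfold cell
      have e1 : ((N + 1 : ℕ) : ℝ) - 1 / 2 = N + 1 / 2 := by push_cast; ring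
      rw [e1]
      exact intervalIntegral.integral_add_adjacent_intervals (hg.intervalIntegrable _ _)
        (hg.intervalIntegrable _ _)
  rw [h1]
  have hA0 : (0 : ℝ) ≤ A := Nat.cast_nonneg A
  have h2 : ∫ t in (-(((2 * A : ℕ) : ℝ) + 1 / 2))..(((2 * A : ℕ) : ℝ) + 1 / 2), g t = ∫ t, g t := by
    push_cast
    apply int_supp (by linarith)
    intro t ht
    apply hs
    rcases ht with ht | ht
    · rw [abs_of_neg (by linarith)]; linarith
    · exact lt_of_lt_of_le (by linarith) (le_abs_self t)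
  rw [← h2]
  have h3 : ∫ t in (-(((2 * A : ℕ) : ℝ) + 1 / 2))..(-(1 / 2 : ℝ)), g t =
      ∫ t in (1 / 2 : ℝ)..(((2 * A : ℕ) : ℝ) + 1 / 2), g t := by
    rw [← intervalIntegral.integral_comp_neg]
    simp_rw [he]
  have h4 := intervalIntegral.integral_add_adjacent_intervals (μ := volume) (f := g)
    (a := -(((2 * A : ℕ) : ℝ) + 1 / 2)) (b := -(1 / 2 : ℝ)) (c := 1 / 2)
    (hg.intervalIntegrable _ _) (hg.intervalIntegrable _ _)
  have h5 := intervalIntegral.integral_add_adjacent_intervals (μ := volume) (f := g)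
    (a := -(((2 * A : ℕ) : ℝ) + 1 / 2)) (b := (1 / 2 : ℝ)) (c := ((2 * A : ℕ) : ℝ) + 1 / 2)
    (hg.intervalIntegrable _ _) (hg.intervalIntegrable _ _)
  rw [← h5, ← h4, h3]
  have h6 : cell g 0 = ∫ t in (-(1 / 2 : ℝ))..(1 / 2), g t := by
    unfold cell
    rw [Nat.cast_zero]
    norm_num
  rw [h6]
  ring

section

variable {f f1 f2 : ℝ → ℝ} {A : ℕ} {F Λ : ℝ}

theorem cell_taylor (h : PF f f1 f2 A F Λ) (k : ℕ) :
    |f k - cell f k + 1 / 24 * cell f2 k| ≤ Λ := by
  have hkk : (k : ℝ) - 1 / 2 ≤ k + 1 / 2 := by linarith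
  have h1 : ∫ t in ((k : ℝ) - 1 / 2)..((k : ℝ) + 1 / 2),
      (f1 k * (t - k) + 1 / 2 * f2 k * (t - k) ^ 2 - 1 / 24 * f2 k) = 0 := by
    have hd : ∀ t ∈ Set.uIcc ((k : ℝ) - 1 / 2) ((k : ℝ) + 1 / 2),
        HasDerivAt (fun t : ℝ => f1 k * ((t - k) ^ 2 / 2) + 1 / 2 * f2 k * ((t - k) ^ 3 / 3) -
          1 / 24 * f2 k * t) (f1 k * (t - k) + 1 / 2 * f2 k * (t - k) ^ 2 - 1 / 24 * f2 k) t := by
      intro t _
      have a0 : HasDerivAt (fun t : ℝ => t - (k : ℝ)) 1 t := (hasDerivAt_id t).sub_const _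
      have a1 := ((a0.pow 2).div_const 2).const_mul (f1 k)
      have a2 := ((a0.pow 3).div_const 3).const_mul (1 / 2 * f2 k)
      have a3 := (hasDerivAt_id t).const_mul (1 / 24 * f2 (k : ℝ))
      refine ((a1.add a2).sub a3).congr_deriv ?_
      simp
    rw [intervalIntegral.integral_eq_sub_of_hasDerivAt hd
      (Continuous.intervalIntegrable (by fun_prop) _ _)]
    ring
  have e : f k - cell f k + 1 / 24 * cell f2 k =
      -∫ t in ((k : ℝ) - 1 / 2)..((k : ℝ) + 1 / 2),
        ((f (k + (t - k)) - f k - f1 k * (t - k) - 1 / 2 * f2 k * (t - k) ^ 2) +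
          1 / 24 * (f2 k - f2 t)) := by
    have e1 : ∫ t in ((k : ℝ) - 1 / 2)..((k : ℝ) + 1 / 2),
        ((f (k + (t - k)) - f k - f1 k * (t - k) - 1 / 2 * f2 k * (t - k) ^ 2) +
          1 / 24 * (f2 k - f2 t)) = ∫ t in ((k : ℝ) - 1 / 2)..((k : ℝ) + 1 / 2),
        ((f t - f k - 1 / 24 * f2 t) -
          (f1 k * (t - k) + 1 / 2 * f2 k * (t - k) ^ 2 - 1 / 24 * f2 k)) := by
      refine intervalIntegral.integral_congr fun t _ => ?_
      show ((f (k + (t - k)) - f k - f1 k * (t - k) - 1 / 2 * f2 k * (t - k) ^ 2) +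
          1 / 24 * (f2 k - f2 t)) = _
      rw [add_sub_cancel]; ring
    have i1 : IntervalIntegrable (fun t => f t - f k - 1 / 24 * f2 t) volume
        ((k : ℝ) - 1 / 2) ((k : ℝ) + 1 / 2) :=
      ((h.cont.sub continuous_const).sub (continuous_const.mul h.cont2)).intervalIntegrable _ _
    have i2 : IntervalIntegrable (fun t : ℝ =>
        f1 k * (t - k) + 1 / 2 * f2 k * (t - k) ^ 2 - 1 / 24 * f2 k) volume
        ((k : ℝ) - 1 / 2) ((k : ℝ) + 1 / 2) :=
      Continuous.intervalIntegrable (by fun_prop) _ _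
    have i3 : IntervalIntegrable (fun t => f t - f k) volume
        ((k : ℝ) - 1 / 2) ((k : ℝ) + 1 / 2) :=
      (h.cont.sub continuous_const).intervalIntegrable _ _
    have i4 : IntervalIntegrable (fun t => 1 / 24 * f2 t) volume
        ((k : ℝ) - 1 / 2) ((k : ℝ) + 1 / 2) :=
      (continuous_const.mul h.cont2).intervalIntegrable _ _
    rw [e1, intervalIntegral.integral_sub i1 i2, h1, sub_zero, intervalIntegral.integral_sub i3 i4,
      intervalIntegral.integral_sub (h.cont.intervalIntegrable _ _)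
        (continuous_const.intervalIntegrable _ _), intervalIntegral.integral_const,
      intervalIntegral.integral_const_mul]
    unfold cell
    rw [smul_eq_mul]
    ring
  rw [e, abs_neg]
  have h2 := intervalIntegral.norm_integral_le_of_norm_le_const (a := (k : ℝ) - 1 / 2)
    (b := (k : ℝ) + 1 / 2) (C := Λ)
    (f := fun t => ((f (k + (t - k)) - f k - f1 k * (t - k) - 1 / 2 * f2 k * (t - k) ^ 2) +
          1 / 24 * (f2 k - f2 t))) ?_
  · rw [Real.norm_eq_abs] at h2
    refine h2.trans (le_of_eq ?_)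
    rw [show (k : ℝ) + 1 / 2 - (k - 1 / 2) = 1 by ring, abs_one, mul_one]
  · intro t ht
    rw [Set.uIoc_of_le hkk] at ht
    have h3 : |t - k| ≤ 1 / 2 := by
      rw [abs_le]
      constructor <;> linarith [ht.1, ht.2]
    have h4 := taylor2 h.l0 h.d1 h.d2 h.lip (k : ℝ) (t - k)
    have h5 := h.lip (k : ℝ) t
    rw [abs_sub_comm (k : ℝ) t] at h5
    have h6 : |t - (k : ℝ)| ^ 3 ≤ (1 / 2) ^ 3 := pow_le_pow_left₀ (abs_nonneg _) h3 3
    have h0 := h.l0
    rw [Real.norm_eq_abs]
    refine (abs_add_le _ _).trans ?_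
    rw [abs_mul, abs_of_pos (show (0 : ℝ) < 1 / 24 by norm_num)]
    nlinarith [mul_le_mul_of_nonneg_left h6 h0, mul_le_mul_of_nonneg_left h3 h0]

theorem cell_lip (h : PF f f1 f2 A F Λ) (k : ℕ) : |f2 k - cell f2 k| ≤ Λ := by
  have hkk : (k : ℝ) - 1 / 2 ≤ k + 1 / 2 := by linarith
  have e : f2 k - cell f2 k = ∫ t in ((k : ℝ) - 1 / 2)..((k : ℝ) + 1 / 2), (f2 k - f2 t) := by
    rw [intervalIntegral.integral_sub (continuous_const.intervalIntegrable _ _)
      (h.cont2.intervalIntegrable _ _), intervalIntegral.integral_const, smul_eq_mul]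
    unfold cell
    ring
  rw [e]
  have h2 := intervalIntegral.norm_integral_le_of_norm_le_const (a := (k : ℝ) - 1 / 2)
    (b := (k : ℝ) + 1 / 2) (C := Λ) (f := fun t => f2 k - f2 t) ?_
  · rw [Real.norm_eq_abs] at h2
    refine h2.trans (le_of_eq ?_)
    rw [show (k : ℝ) + 1 / 2 - (k - 1 / 2) = 1 by ring, abs_one, mul_one]
  · intro t ht
    rw [Set.uIoc_of_le hkk] at ht
    have h3 : |(k : ℝ) - t| ≤ 1 := by
      rw [abs_le]
      constructor <;> linarith [ht.1, ht.2]
    have h5 := h.lip (k : ℝ) t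
    rw [Real.norm_eq_abs]
    have h0 := h.l0
    nlinarith

theorem int_f2 (h : PF f f1 f2 A F Λ) : ∫ t, f2 t = 0 := by
  have i1 : Integrable f1 := h.cont1.integrable_of_hasCompactSupport h.cpt1
  have i2 : Integrable f2 := h.cont2.integrable_of_hasCompactSupport h.cpt2
  exact integral_eq_zero_of_hasDerivAt_of_integrable h.d2 i2 i1

theorem SA_f2 (h : PF f f1 f2 A F Λ) : |SA A f2| ≤ (4 * A + 1) * Λ := by
  have h1 := cell_sum h.cont2 h.ev2 (fun x hx => h.z2 hx)
  rw [int_f2 h] at h1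
  have e : SA A f2 = (f2 (0 : ℕ) - cell f2 0) + 2 * ∑ k ∈ Icc 1 (2 * A), (f2 k - cell f2 k) := by
    unfold SA
    rw [sum_sub_distrib, Nat.cast_zero]
    linarith
  rw [e]
  have h2 : |∑ k ∈ Icc 1 (2 * A), (f2 k - cell f2 k)| ≤ 2 * A * Λ := by
    refine (abs_sum_le_sum_abs _ _).trans ((sum_le_sum fun k _ => cell_lip h k).trans
      (le_of_eq ?_))
    rw [sum_const, nsmul_eq_mul, Nat.card_Icc, Nat.add_sub_cancel]
    push_cast; ring
  have h3 := cell_lip h 0
  have h4 := abs_add_le (f2 (0 : ℕ) - cell f2 0) (2 * ∑ k ∈ Icc 1 (2 * A), (f2 k - cell f2 k))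
  rw [abs_mul, abs_of_pos (show (0 : ℝ) < 2 by norm_num)] at h4
  linarith

theorem SA_f (h : PF f f1 f2 A F Λ) : |SA A f - ∫ t, f t| ≤ (4 * A + 1) * Λ := by
  have h1 := cell_sum h.cont2 h.ev2 (fun x hx => h.z2 hx)
  rw [int_f2 h] at h1
  have h1' := cell_sum h.cont h.ev h.supp
  have e : SA A f - ∫ t, f t = (f (0 : ℕ) - cell f 0 + 1 / 24 * cell f2 0) +
      2 * ∑ k ∈ Icc 1 (2 * A), (f k - cell f k + 1 / 24 * cell f2 k) := by
    unfold SA
    rw [sum_add_distrib, sum_sub_distrib, Nat.cast_zero, ← mul_sum, ← h1']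
    linarith
  rw [e]
  have h2 : |∑ k ∈ Icc 1 (2 * A), (f k - cell f k + 1 / 24 * cell f2 k)| ≤ 2 * A * Λ := by
    refine (abs_sum_le_sum_abs _ _).trans ((sum_le_sum fun k _ => cell_taylor h k).trans
      (le_of_eq ?_))
    rw [sum_const, nsmul_eq_mul, Nat.card_Icc, Nat.add_sub_cancel]
    push_cast; ring
  have h3 := cell_taylor h 0
  have h4 := abs_add_le (f (0 : ℕ) - cell f 0 + 1 / 24 * cell f2 0)
    (2 * ∑ k ∈ Icc 1 (2 * A), (f k - cell f k + 1 / 24 * cell f2 k))
  rw [abs_mul, abs_of_pos (show (0 : ℝ) < 2 by norm_num)] at h4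
  linarith

end

end Pool.Agent.Helper37.GL
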