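import Pool.Agent.Helper37.GL.Expand

/-! The quadratic form of the gaps. -/

open Finset Filter Topology MeasureTheory
open Pool.Agent.Y748 Pool.Agent.Y748.SR

set_option autoImplicit false

namespace Pool.Agent.Helper37.GL

/-- the linear statistic of the `L` gaps that start at the index `n`, with the weights `B i` -/
noncomputable def TT (y : ℕ → ℝ) (B : ℝ → ℝ) (L n : ℕ) : ℝ :=
  ∑ i ∈ range L, B i * (y (n + i + 1) - y (n + i) - 1)

/-- the second moments of the deviations -/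
noncomputable def WW (y : ℕ → ℝ) (M k : ℕ) : ℝ := ∑ n ∈ Icc 1 M, xx y n k ^ 2

/-- the differences of the weights -/
noncomputable def dd (B : ℝ → ℝ) (i : ℕ) : ℝ := B ((i : ℝ) - 1) - B i

theorem xx_diff (y : ℕ → ℝ) (n i : ℕ) :
    xx y n (i + 1) - xx y n i = y (n + i + 1) - y (n + i) - 1 := by
  unfold xx
  rw [← add_assoc]
  push_cast
  ring

theorem TT_eq (y : ℕ → ℝ) (B : ℝ → ℝ) (L n : ℕ) (hL : B L = 0) :
    TT y B L n = ∑ i ∈ range (L + 1), dd B i * xx y n i := by
  have h0 : xx y n 0 = 0 := by simp [xx]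
  have e1 : TT y B L n = ∑ i ∈ range L, B i * xx y n (i + 1) - ∑ i ∈ range L, B i * xx y n i := by
    unfold TT
    rw [← sum_sub_distrib]
    refine sum_congr rfl fun i _ => ?_
    rw [← xx_diff]; ring
  have e2 : ∑ i ∈ range (L + 1), B ((i : ℝ) - 1) * xx y n i =
      ∑ i ∈ range L, B i * xx y n (i + 1) := by
    rw [sum_range_succ', Nat.cast_zero, h0, mul_zero, add_zero]
    refine sum_congr rfl fun i _ => ?_
    push_cast
    rw [add_sub_cancel_right]
  have e3 : ∑ i ∈ range (L + 1), B i * xx y n i = ∑ i ∈ range L, B i * xx y n i := by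
    rw [sum_range_succ, hL, zero_mul, add_zero]
  rw [e1, ← e2, ← e3, ← sum_sub_distrib]
  refine sum_congr rfl fun i _ => ?_
  unfold dd; ring

theorem dd_sum (B : ℝ → ℝ) (L : ℕ) (hL : B L = 0) (h1 : B (-1) = 0) :
    ∑ i ∈ range (L + 1), dd B i = 0 := by
  have : ∀ N : ℕ, ∑ i ∈ range (N + 1), dd B i = B (-1) - B N := by
    intro N
    induction N with
    | zero => simp [dd]
    | succ N ih =>
      rw [sum_range_succ, ih]
      unfold dd
      push_cast
      ring_nf
  rw [this, hL, h1, sub_zero]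

theorem quad_id {I : Finset ℕ} (d e x : ℕ → ℝ) (hd : ∑ i ∈ I, d i = 0) (he : ∑ i ∈ I, e i = 0) :
    (∑ i ∈ I, d i * x i) * (∑ j ∈ I, e j * x j) =
      -(1 / 2) * ∑ i ∈ I, ∑ j ∈ I, d i * e j * (x i - x j) ^ 2 := by
  have h1 : ∑ i ∈ I, ∑ j ∈ I, d i * e j * (x i - x j) ^ 2 =
      ∑ i ∈ I, ∑ j ∈ I, (d i * x i ^ 2 * e j + d i * (e j * x j ^ 2) -
        2 * (d i * x i * (e j * x j))) :=
    sum_congr rfl fun i _ => sum_congr rfl fun j _ => by ring
  rw [h1]
  have h2 : ∀ i ∈ I, ∑ j ∈ I, (d i * x i ^ 2 * e j + d i * (e j * x j ^ 2) -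
        2 * (d i * x i * (e j * x j))) =
      d i * (∑ j ∈ I, e j * x j ^ 2) - 2 * (d i * x i * ∑ j ∈ I, e j * x j) := by
    intro i _
    rw [sum_sub_distrib, sum_add_distrib, ← mul_sum, ← mul_sum, ← mul_sum, ← mul_sum, he]
    ring
  rw [sum_congr rfl h2, sum_sub_distrib, ← sum_mul, hd, ← mul_sum, ← sum_mul]
  ring

theorem xx_sub (y : ℕ → ℝ) (n i j : ℕ) :
    (xx y n i - xx y n j) ^ 2 = xx y (n + min i j) (max i j - min i j) ^ 2 := by
  rcases le_total i j with h | h
  · rw [min_eq_left h, max_eq_right h]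
    obtain ⟨k, rfl⟩ := Nat.exists_eq_add_of_le h
    rw [Nat.add_sub_cancel_left]
    unfold xx
    rw [← add_assoc]
    push_cast
    ring
  · rw [min_eq_right h, max_eq_left h]
    obtain ⟨k, rfl⟩ := Nat.exists_eq_add_of_le h
    rw [Nat.add_sub_cancel_left]
    unfold xx
    rw [← add_assoc]
    push_cast
    ring

theorem WW_shift {y : ℕ → ℝ} (h : Hyp y) (k i : ℕ) :
    Tendsto (fun M : ℕ => (∑ n ∈ Icc 1 M, xx y (n + i) k ^ 2 - WW y M k) / M) atTop (𝓝 0) := by
  obtain ⟨C, hC, H⟩ := growth h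
  have hg : Tendsto (fun n : ℕ => xx y n k ^ 2 / n) atTop (𝓝 0) := by
    have h1 : Tendsto (fun n : ℕ => (C * (Real.log n + 1) + k) ^ 2 / n) atTop (𝓝 0) := by
      have a0 : Tendsto (fun x : ℝ => Real.log x ^ 2 / x) atTop (𝓝 0) :=
        (Real.isLittleO_pow_log_id_atTop (n := 2)).tendsto_div_nhds_zero
      have a1 : Tendsto (fun x : ℝ => Real.log x / x) atTop (𝓝 0) :=
        Real.isLittleO_log_id_atTop.tendsto_div_nhds_zero
      have a2 : Tendsto (fun x : ℝ => 1 / x) atTop (𝓝 0) := tendsto_const_nhds.div_atTop tendsto_id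
      have a3 := ((a0.const_mul (C ^ 2)).add (a1.const_mul (2 * C * (C + k)))).add
        (a2.const_mul ((C + k) ^ 2))
      simp only [mul_zero, add_zero] at a3
      have a4 := a3.comp tendsto_natCast_atTop_atTop (α := ℕ)
      refine a4.congr fun n => ?_
      simp only [Function.comp]
      ring
    refine squeeze_zero' ?_ ?_ h1
    · filter_upwards with n; positivity
    · filter_upwards [eventually_ge_atTop 1] with n hn
      apply div_le_div_of_nonneg_right _ (Nat.cast_nonneg n)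
      rw [← sq_abs]
      exact pow_le_pow_left₀ (abs_nonneg _) (H n k hn) 2
  have hgs : ∀ i : ℕ, Tendsto (fun M : ℕ => xx y (M + i) k ^ 2 / M) atTop (𝓝 0) := by
    intro i
    have h1 : Tendsto (fun M : ℕ => xx y (M + i) k ^ 2 / ((M + i : ℕ) : ℝ)) atTop (𝓝 0) :=
      hg.comp (tendsto_add_atTop_nat i)
    have h2 : Tendsto (fun M : ℕ => ((M + i : ℕ) : ℝ) / M) atTop (𝓝 1) := by
      have h3 : Tendsto (fun M : ℕ => 1 + (i : ℝ) / M) atTop (𝓝 (1 + 0)) :=
        tendsto_const_nhds.add (tendsto_const_nhds.div_atTop tendsto_natCast_atTop_atTop)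
      rw [add_zero] at h3
      refine h3.congr' ?_
      filter_upwards [eventually_ge_atTop 1] with M hM
      have : (M : ℝ) ≠ 0 := by positivity
      push_cast
      field_simp
    have h3 := h1.mul h2
    rw [zero_mul] at h3
    refine h3.congr' ?_
    filter_upwards [eventually_ge_atTop 1] with M hM
    have : (M : ℝ) ≠ 0 := by positivity
    have : ((M + i : ℕ) : ℝ) ≠ 0 := by positivity
    field_simp
  induction i with
  | zero => simp [WW]
  | succ i ih =>
    have h1 : Tendsto (fun M : ℕ => (xx y (1 + i) k ^ 2 : ℝ) / M) atTop (𝓝 0) :=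
      tendsto_const_nhds.div_atTop tendsto_natCast_atTop_atTop
    have h2 := (ih.add (hgs (1 + i))).sub h1
    simp only [add_zero, sub_zero] at h2
    refine h2.congr fun M => ?_
    have e : ∑ n ∈ Icc 1 M, xx y (n + (i + 1)) k ^ 2 = ∑ n ∈ Icc 1 M, xx y (n + i) k ^ 2 +
        xx y (M + (1 + i)) k ^ 2 - xx y (1 + i) k ^ 2 := by
      induction M with
      | zero => simp
      | succ M ihM =>
        rw [sum_Icc_succ_top (by omega), sum_Icc_succ_top (by omega), ihM]
        have e1 : M + 1 + i = M + (1 + i) := by omega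
        have e2 : M + 1 + (i + 1) = M + 1 + (1 + i) := by omega
        rw [e1, e2]; ring
    rw [e]
    ring

theorem WW_zero (y : ℕ → ℝ) (M : ℕ) : WW y M 0 = 0 := by
  unfold WW xx; simp

/-- the mean of the product of two linear statistics -/
theorem quad_form {y : ℕ → ℝ} (h : Hyp y) (B1 B2 : ℝ → ℝ) (L : ℕ) (h1 : B1 L = 0) (h1' : B1 (-1) = 0)
    (h2 : B2 L = 0) (h2' : B2 (-1) = 0) (ε : ℝ) (hε : 0 < ε) : ∀ᶠ M : ℕ in atTop,
    |∑ n ∈ Icc 1 M, TT y B1 L n * TT y B2 L n + 1 / 2 * ∑ i ∈ range (L + 1), ∑ j ∈ range (L + 1),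
      dd B1 i * dd B2 j * WW y M (max i j - min i j)| ≤ ε * M := by
  have hT : Tendsto (fun M : ℕ => ∑ i ∈ range (L + 1), ∑ j ∈ range (L + 1),
      dd B1 i * dd B2 j * ((∑ n ∈ Icc 1 M, xx y (n + min i j) (max i j - min i j) ^ 2 -
        WW y M (max i j - min i j)) / M)) atTop (𝓝 0) := by
    have : Tendsto (fun M : ℕ => ∑ i ∈ range (L + 1), ∑ j ∈ range (L + 1),
      dd B1 i * dd B2 j * ((∑ n ∈ Icc 1 M, xx y (n + min i j) (max i j - min i j) ^ 2 -
        WW y M (max i j - min i j)) / M)) atTop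
        (𝓝 (∑ i ∈ range (L + 1), ∑ j ∈ range (L + 1), dd B1 i * dd B2 j * 0)) :=
      tendsto_finsetSum _ fun i _ => tendsto_finsetSum _ fun j _ =>
        (WW_shift h (max i j - min i j) (min i j)).const_mul _
    simpa using this
  have hT2 := hT.abs
  rw [abs_zero] at hT2
  filter_upwards [hT2.eventually_le_const hε, eventually_ge_atTop 1] with M hM hM1
  have hM0 : (0 : ℝ) < M := by exact_mod_cast hM1
  have e1 : ∑ n ∈ Icc 1 M, TT y B1 L n * TT y B2 L n =
      -(1 / 2) * ∑ i ∈ range (L + 1), ∑ j ∈ range (L + 1),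
        dd B1 i * dd B2 j * ∑ n ∈ Icc 1 M, xx y (n + min i j) (max i j - min i j) ^ 2 := by
    have e2 : ∀ n ∈ Icc 1 M, TT y B1 L n * TT y B2 L n =
        -(1 / 2) * ∑ i ∈ range (L + 1), ∑ j ∈ range (L + 1),
          dd B1 i * dd B2 j * xx y (n + min i j) (max i j - min i j) ^ 2 := by
      intro n _
      rw [TT_eq y B1 L n h1, TT_eq y B2 L n h2,
        quad_id (dd B1) (dd B2) (xx y n) (dd_sum B1 L h1 h1') (dd_sum B2 L h2 h2')]
      simp_rw [xx_sub]
    rw [sum_congr rfl e2, ← mul_sum]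
    congr 1
    rw [sum_comm]
    refine sum_congr rfl fun i _ => ?_
    rw [sum_comm]
    refine sum_congr rfl fun j _ => ?_
    rw [mul_sum]
  have e3 : ∑ n ∈ Icc 1 M, TT y B1 L n * TT y B2 L n + 1 / 2 * ∑ i ∈ range (L + 1),
      ∑ j ∈ range (L + 1), dd B1 i * dd B2 j * WW y M (max i j - min i j) =
      -(1 / 2) * (∑ i ∈ range (L + 1), ∑ j ∈ range (L + 1),
      dd B1 i * dd B2 j * ((∑ n ∈ Icc 1 M, xx y (n + min i j) (max i j - min i j) ^ 2 -
        WW y M (max i j - min i j)) / M)) * M := by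
    rw [e1, mul_assoc, sum_mul]
    simp_rw [sum_mul]
    have e4 : ∀ i j : ℕ, dd B1 i * dd B2 j *
        ((∑ n ∈ Icc 1 M, xx y (n + min i j) (max i j - min i j) ^ 2 -
        WW y M (max i j - min i j)) / M) * M = dd B1 i * dd B2 j *
        ∑ n ∈ Icc 1 M, xx y (n + min i j) (max i j - min i j) ^ 2 -
        dd B1 i * dd B2 j * WW y M (max i j - min i j) := by
      intro i j
      field_simp
    simp_rw [e4, sum_sub_distrib]
    ring
  rw [e3, abs_mul, abs_mul, abs_of_pos hM0]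
  apply mul_le_mul_of_nonneg_right _ hM0.le
  have : |(-(1 / 2) : ℝ)| = 1 / 2 := by norm_num [abs_of_neg]
  rw [this]
  have := abs_nonneg (∑ i ∈ range (L + 1), ∑ j ∈ range (L + 1),
      dd B1 i * dd B2 j * ((∑ n ∈ Icc 1 M, xx y (n + min i j) (max i j - min i j) ^ 2 -
        WW y M (max i j - min i j)) / M))
  linarith

end Pool.Agent.Helper37.GL
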