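import Pool.Agent.Helper37.GL.Mom

/-! Far pairs of indices and far pairs of points. -/

open Finset Filter Topology MeasureTheory
open Pool.Agent.Y748 Pool.Agent.Y748.SR

set_option autoImplicit false

namespace Pool.Agent.Helper37.GL

/-- a symmetric double sum by the difference of the indices -/
theorem double_sum (F : ℕ → ℕ → ℝ) (hs : ∀ n m, F n m = F m n) (M : ℕ) :
    ∑ n ∈ Icc 1 M, ∑ m ∈ Icc 1 M, F n m =
      ∑ n ∈ Icc 1 M, F n n + 2 * ∑ k ∈ Icc 1 M, ∑ n ∈ Icc 1 (M - k), F n (n + k) := by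
  induction M with
  | zero => simp
  | succ M ih =>
    have e1 : ∑ n ∈ Icc 1 (M + 1), ∑ m ∈ Icc 1 (M + 1), F n m =
        ∑ n ∈ Icc 1 M, ∑ m ∈ Icc 1 M, F n m + 2 * ∑ n ∈ Icc 1 M, F n (M + 1) +
          F (M + 1) (M + 1) := by
      rw [sum_Icc_succ_top (by omega)]
      simp_rw [sum_Icc_succ_top (show 1 ≤ M + 1 by omega)]
      rw [sum_add_distrib]
      have : ∑ m ∈ Icc 1 M, F (M + 1) m = ∑ n ∈ Icc 1 M, F n (M + 1) :=
        sum_congr rfl fun n _ => hs _ _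
      rw [this]; ring
    have e2 : ∑ k ∈ Icc 1 (M + 1), ∑ n ∈ Icc 1 (M + 1 - k), F n (n + k) =
        ∑ k ∈ Icc 1 M, ∑ n ∈ Icc 1 (M - k), F n (n + k) + ∑ n ∈ Icc 1 M, F n (M + 1) := by
      rw [sum_Icc_succ_top (by omega), Nat.sub_self]
      simp only [show Icc 1 0 = (∅ : Finset ℕ) from rfl, sum_empty, add_zero]
      have e3 : ∀ k ∈ Icc 1 M, ∑ n ∈ Icc 1 (M + 1 - k), F n (n + k) =
          ∑ n ∈ Icc 1 (M - k), F n (n + k) + F (M + 1 - k) (M + 1) := by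
        intro k hk
        rw [mem_Icc] at hk
        have : M + 1 - k = (M - k) + 1 := by omega
        rw [this, sum_Icc_succ_top (by omega)]
        congr 2
        omega
      rw [sum_congr rfl e3, sum_add_distrib]
      congr 1
      refine sum_nbij' (fun k => M + 1 - k) (fun k => M + 1 - k) ?_ ?_ ?_ ?_ ?_
      · intro k hk; rw [mem_Icc] at *; omega
      · intro k hk; rw [mem_Icc] at *; omega
      · intro k hk; rw [mem_Icc] at *; omega
      · intro k hk; rw [mem_Icc] at *; omega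
      · intro k hk; rfl
    rw [e1, e2, ih, sum_Icc_succ_top (show 1 ≤ M + 1 by omega)]
    ring

theorem far_close {y : ℕ → ℝ} (h : Hyp y) : ∃ C : ℝ, 0 ≤ C ∧ ∀ A : ℕ, 1 ≤ A → ∀ M : ℕ,
    ∑ n ∈ Icc 1 M, ∑ j ∈ Icc 1 M,
      (if 2 * (A : ℝ) < |(j : ℝ) - n| ∧ |y n - y j| ≤ A then (1 : ℝ) else 0) ≤
        C * M / (A : ℝ) ^ 4 := by
  obtain ⟨C, hC, H⟩ := exc_bound h
  have hS : Summable fun k : ℕ => 1 / (k : ℝ) ^ 2 := Real.summable_one_div_nat_pow.2 (by norm_num)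
  set S : ℝ := ∑' k : ℕ, 1 / (k : ℝ) ^ 2 with hSd
  have hS0 : 0 ≤ S := tsum_nonneg fun k => by positivity
  refine ⟨2 * C * S, by positivity, fun A hA M => ?_⟩
  have hA0 : (0 : ℝ) < A := by exact_mod_cast hA
  have hA1 : (1 : ℝ) ≤ A := by exact_mod_cast hA
  have hM0 : (0 : ℝ) ≤ M := Nat.cast_nonneg M
  rw [double_sum _ (fun n m => by rw [abs_sub_comm, abs_sub_comm (y n)])]
  have e1 : ∑ n ∈ Icc 1 M,
      (if 2 * (A : ℝ) < |(n : ℝ) - n| ∧ |y n - y n| ≤ A then (1 : ℝ) else 0) = 0 := by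
    apply sum_eq_zero
    intro n _
    rw [if_neg]
    rintro ⟨h1, _⟩
    simp at h1
    linarith
  rw [e1, zero_add]
  have e2 : ∀ k ∈ Icc 1 M, ∑ n ∈ Icc 1 (M - k),
      (if 2 * (A : ℝ) < |((n + k : ℕ) : ℝ) - n| ∧ |y n - y (n + k)| ≤ A then (1 : ℝ) else 0) ≤
        C * M / (A : ℝ) ^ 4 * (1 / (k : ℝ) ^ 2) := by
    intro k hk
    rw [mem_Icc] at hk
    have hk0 : (0 : ℝ) < k := by exact_mod_cast hk.1
    by_cases hkA : 2 * (A : ℝ) < k
    · have h1 : ∑ n ∈ Icc 1 (M - k),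
          (if 2 * (A : ℝ) < |((n + k : ℕ) : ℝ) - n| ∧ |y n - y (n + k)| ≤ A then (1 : ℝ) else 0) ≤
          ((Exc y k M).ncard : ℝ) := by
        rw [sum_ite, sum_const_zero, add_zero, sum_const, nsmul_eq_mul, mul_one,
          ← Set.ncard_coe_finset]
        have := Set.ncard_le_ncard (s := ((((Icc 1 (M - k)).filter fun n =>
          2 * (A : ℝ) < |((n + k : ℕ) : ℝ) - n| ∧ |y n - y (n + k)| ≤ A : Finset ℕ)) : Set ℕ))
          (t := Exc y k M) ?_ (exc_finite y k M)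
        · exact_mod_cast this
        · intro n hn
          rw [coe_filter, Set.mem_ofPred_eq, mem_Icc] at hn
          obtain ⟨⟨h2, h3⟩, h4, h5⟩ := hn
          refine ⟨h2, by omega, n + k, by omega, ?_, ?_⟩
          · push_cast
            rw [show (n : ℝ) + k - n = k by ring, abs_of_pos hk0]
          · push_cast
            rw [show (n : ℝ) + k - n = k by ring, abs_of_pos hk0]
            rw [abs_sub_comm] at h5
            have h6 := (abs_le.1 h5).2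
            rw [abs_sub_comm]
            refine le_trans ?_ (le_abs_self _)
            linarith
      refine h1.trans ((H M k hk.1).trans ?_)
      rw [div_mul_div_comm, mul_one, div_le_div_iff₀ (by positivity) (by positivity)]
      apply mul_le_mul_of_nonneg_left _ (by positivity)
      have h7 : (A : ℝ) ^ 4 ≤ (k : ℝ) ^ 4 := pow_le_pow_left₀ hA0.le (by linarith) 4
      calc (A : ℝ) ^ 4 * (k : ℝ) ^ 2 ≤ (k : ℝ) ^ 4 * (k : ℝ) ^ 2 :=
            mul_le_mul_of_nonneg_right h7 (by positivity)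
        _ = (k : ℝ) ^ 6 := by ring
    · rw [sum_eq_zero]
      · positivity
      · intro n _
        rw [if_neg]
        rintro ⟨h1, _⟩
        push_cast at h1
        rw [show (n : ℝ) + k - n = k by ring, abs_of_pos hk0] at h1
        exact hkA h1
  have e3 := sum_le_sum e2
  rw [← mul_sum] at e3
  have e4 : ∑ k ∈ Icc 1 M, 1 / (k : ℝ) ^ 2 ≤ S := hS.sum_le_tsum _ fun k _ => by positivity
  have e5 : C * M / (A : ℝ) ^ 4 * ∑ k ∈ Icc 1 M, 1 / (k : ℝ) ^ 2 ≤ C * M / (A : ℝ) ^ 4 * S :=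
    mul_le_mul_of_nonneg_left e4 (by positivity)
  calc 2 * _ ≤ 2 * (C * M / (A : ℝ) ^ 4 * S) := by linarith
    _ = _ := by ring

theorem window {y : ℕ → ℝ} (h : Hyp y) : ∃ C : ℝ, 0 ≤ C ∧ ∀ D : ℕ, 1 ≤ D → ∀ M : ℕ,
    ∑ n ∈ Icc 1 M, ∑ j ∈ Icc 1 M, (if |y n - y j| ≤ D then (1 : ℝ) else 0) ≤ C * D * M := by
  obtain ⟨C, hC, H⟩ := far_close h
  refine ⟨C + 5, by positivity, fun D hD M => ?_⟩
  have hD1 : (1 : ℝ) ≤ D := by exact_mod_cast hD
  have hM0 : (0 : ℝ) ≤ M := Nat.cast_nonneg M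
  have h1 : ∑ n ∈ Icc 1 M, ∑ j ∈ Icc 1 M, (if |y n - y j| ≤ D then (1 : ℝ) else 0) ≤
      ∑ n ∈ Icc 1 M, ∑ j ∈ Icc 1 M, (if |(j : ℝ) - n| ≤ 2 * D then (1 : ℝ) else 0) +
      ∑ n ∈ Icc 1 M, ∑ j ∈ Icc 1 M,
        (if 2 * (D : ℝ) < |(j : ℝ) - n| ∧ |y n - y j| ≤ D then (1 : ℝ) else 0) := by
    rw [← sum_add_distrib]
    apply sum_le_sum; intro n _
    rw [← sum_add_distrib]
    apply sum_le_sum; intro j _
    by_cases h2 : |y n - y j| ≤ D
    · rw [if_pos h2]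
      by_cases h3 : |(j : ℝ) - n| ≤ 2 * D
      · rw [if_pos h3]
        have : (0 : ℝ) ≤ if 2 * (D : ℝ) < |(j : ℝ) - n| ∧ |y n - y j| ≤ D then (1 : ℝ) else 0 := by
          split_ifs <;> norm_num
        linarith
      · rw [if_neg h3, if_pos ⟨not_le.1 h3, h2⟩]; norm_num
    · rw [if_neg h2]
      apply add_nonneg <;> split_ifs <;> norm_num
  have h2 : ∀ n ∈ Icc 1 M, ∑ j ∈ Icc 1 M, (if |(j : ℝ) - n| ≤ 2 * D then (1 : ℝ) else 0) ≤
      5 * D := by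
    intro n _
    rw [sum_ite, sum_const_zero, add_zero, sum_const, nsmul_eq_mul, mul_one]
    have h3 : ((Icc 1 M).filter fun j : ℕ => |(j : ℝ) - n| ≤ 2 * D) ⊆ Icc (n - 2 * D) (n + 2 * D) := by
      intro j hj
      rw [mem_filter, abs_le] at hj
      rw [mem_Icc]
      obtain ⟨_, h4, h5⟩ := hj
      have h6 : (n : ℝ) ≤ j + 2 * D := by linarith
      have h7 : (j : ℝ) ≤ n + 2 * D := by linarith
      have h6' : n ≤ j + 2 * D := by exact_mod_cast h6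
      have h7' : j ≤ n + 2 * D := by exact_mod_cast h7
      omega
    have h4 := card_le_card h3
    rw [Nat.card_Icc] at h4
    have h5 : n + 2 * D + 1 - (n - 2 * D) ≤ 5 * D := by omega
    exact_mod_cast h4.trans h5
  have h3 := sum_le_sum h2
  rw [sum_const, nsmul_eq_mul, Nat.card_Icc, Nat.add_sub_cancel] at h3
  have h4 := H D hD M
  have h5 : C * M / (D : ℝ) ^ 4 ≤ C * D * M := by
    rw [div_le_iff₀ (by positivity)]
    have h6 : (1 : ℝ) ≤ D * (D : ℝ) ^ 4 := by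
      have : (1 : ℝ) ≤ (D : ℝ) ^ 4 := one_le_pow₀ hD1
      nlinarith
    nlinarith [mul_nonneg hC hM0, mul_le_mul_of_nonneg_left h6 (mul_nonneg hC hM0)]
  nlinarith

theorem decay {y : ℕ → ℝ} (h : Hyp y) : ∃ C : ℝ, 0 ≤ C ∧ ∀ A : ℕ, 1 ≤ A → ∀ M : ℕ,
    ∑ n ∈ Icc 1 M, ∑ j ∈ Icc 1 M,
      (if 2 * (A : ℝ) ≤ |y n - y j| then 1 / |y n - y j| ^ 5 else 0) ≤ C * M / (A : ℝ) ^ 4 := by
  obtain ⟨C, hC, H⟩ := window h
  refine ⟨C, hC, fun A hA M => ?_⟩
  have hA0 : (0 : ℝ) < A := by exact_mod_cast hA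
  have hA1 : (1 : ℝ) ≤ A := by exact_mod_cast hA
  have hM0 : (0 : ℝ) ≤ M := Nat.cast_nonneg M
  obtain ⟨I, hI⟩ : ∃ I : ℕ, ∀ n ∈ Icc 1 M, ∀ j ∈ Icc 1 M, |y n - y j| < 2 ^ I := by
    obtain ⟨I, hI⟩ := pow_unbounded_of_one_lt (∑ n ∈ Icc 1 M, ∑ j ∈ Icc 1 M, |y n - y j|)
      (one_lt_two)
    refine ⟨I, fun n hn j hj => lt_of_le_of_lt ?_ hI⟩
    have h1 := single_le_sum (f := fun n => ∑ j ∈ Icc 1 M, |y n - y j|)
      (fun n _ => sum_nonneg fun j _ => abs_nonneg _) hn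
    have h2 := single_le_sum (f := fun j => |y n - y j|) (fun j _ => abs_nonneg _) hj
    exact h2.trans h1
  have hpt : ∀ n ∈ Icc 1 M, ∀ j ∈ Icc 1 M,
      (if 2 * (A : ℝ) ≤ |y n - y j| then 1 / |y n - y j| ^ 5 else 0) ≤
      ∑ i ∈ range I, 1 / (2 ^ i * (2 * (A : ℝ))) ^ 5 *
        (if |y n - y j| ≤ ((2 ^ (i + 1) * (2 * A) : ℕ) : ℝ) then 1 else 0) := by
    intro n hn j hj
    have hnn : ∀ i ∈ range I, (0 : ℝ) ≤ 1 / (2 ^ i * (2 * (A : ℝ))) ^ 5 *
        (if |y n - y j| ≤ ((2 ^ (i + 1) * (2 * A) : ℕ) : ℝ) then 1 else 0) := by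
      intro i _
      apply mul_nonneg (by positivity)
      split_ifs <;> norm_num
    split_ifs with hv
    · set v := |y n - y j| with hvd
      have hv0 : 0 < v := by linarith
      -- the largest i with 2^i * 2A ≤ v
      set i := Nat.findGreatest (fun i : ℕ => 2 ^ i * (2 * (A : ℝ)) ≤ v) I with hi
      have hi1 : 2 ^ i * (2 * (A : ℝ)) ≤ v := by
        have := Nat.findGreatest_spec (P := fun i : ℕ => 2 ^ i * (2 * (A : ℝ)) ≤ v)
          (m := 0) (n := I) (Nat.zero_le _) (by simpa using hv)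
        exact this
      have hiI : i < I := by
        by_contra hcon
        have h1 : (2 : ℝ) ^ I ≤ 2 ^ i := pow_le_pow_right₀ (by norm_num) (not_lt.1 hcon)
        have h2 := hI n hn j hj
        have h3 : (2 : ℝ) ^ i ≤ 2 ^ i * (2 * (A : ℝ)) :=
          le_mul_of_one_le_right (by positivity) (by linarith)
        linarith
      have hi2 : v < 2 ^ (i + 1) * (2 * (A : ℝ)) := by
        by_contra hcon
        have := Nat.le_findGreatest (P := fun i : ℕ => 2 ^ i * (2 * (A : ℝ)) ≤ v)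
          (m := i + 1) (n := I) hiI (not_lt.1 hcon)
        omega
      refine le_trans ?_ (single_le_sum hnn (mem_range.2 hiI))
      rw [if_pos (by push_cast; exact hi2.le), mul_one]
      apply one_div_le_one_div_of_le (by positivity)
      exact pow_le_pow_left₀ (by positivity) hi1 5
    · exact sum_nonneg hnn
  have h1 := sum_le_sum fun n hn => sum_le_sum fun j hj => hpt n hn j hj
  refine h1.trans ?_
  have h2 : ∑ n ∈ Icc 1 M, ∑ j ∈ Icc 1 M, ∑ i ∈ range I, 1 / (2 ^ i * (2 * (A : ℝ))) ^ 5 *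
        (if |y n - y j| ≤ ((2 ^ (i + 1) * (2 * A) : ℕ) : ℝ) then 1 else 0) =
      ∑ i ∈ range I, 1 / (2 ^ i * (2 * (A : ℝ))) ^ 5 * ∑ n ∈ Icc 1 M, ∑ j ∈ Icc 1 M,
        (if |y n - y j| ≤ ((2 ^ (i + 1) * (2 * A) : ℕ) : ℝ) then (1 : ℝ) else 0) := by
    simp_rw [mul_sum]
    symm
    rw [sum_comm]
    refine sum_congr rfl fun n _ => ?_
    rw [sum_comm]
  rw [h2]
  have h3 : ∀ i ∈ range I, 1 / (2 ^ i * (2 * (A : ℝ))) ^ 5 * ∑ n ∈ Icc 1 M, ∑ j ∈ Icc 1 M,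
        (if |y n - y j| ≤ ((2 ^ (i + 1) * (2 * A) : ℕ) : ℝ) then (1 : ℝ) else 0) ≤
      C * M / (A : ℝ) ^ 4 * (1 / 8 * (1 / 2) ^ i) := by
    intro i _
    have h4 := H (2 ^ (i + 1) * (2 * A)) (by
      have : 1 ≤ 2 ^ (i + 1) := Nat.one_le_two_pow
      nlinarith) M
    refine (mul_le_mul_of_nonneg_left h4 (by positivity)).trans ?_
    push_cast
    have h5 : 1 / (2 ^ i * (2 * (A : ℝ))) ^ 5 * (C * (2 ^ (i + 1) * (2 * A)) * M) =
        C * M / (A : ℝ) ^ 4 * (1 / 8 * (1 / 2 ^ i) ^ 4) := by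
      have : (2 : ℝ) ^ i ≠ 0 := by positivity
      field_simp
      ring
    rw [h5]
    apply mul_le_mul_of_nonneg_left _ (by positivity)
    apply mul_le_mul_of_nonneg_left _ (by norm_num)
    rw [one_div_pow (2 : ℝ) i]
    have h6 : (1 : ℝ) / 2 ^ i ≤ 1 := by
      rw [div_le_one (by positivity)]
      exact one_le_pow₀ (by norm_num)
    have h7 : (0 : ℝ) ≤ 1 / 2 ^ i := by positivity
    calc ((1 : ℝ) / 2 ^ i) ^ 4 = (1 / 2 ^ i) ^ 3 * (1 / 2 ^ i) := by ring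
      _ ≤ 1 * (1 / 2 ^ i) := mul_le_mul_of_nonneg_right (pow_le_one₀ h7 h6) h7
      _ = _ := one_mul _
  refine (sum_le_sum h3).trans ?_
  rw [← mul_sum, ← mul_sum]
  have h4 : ∑ i ∈ range I, (1 / 2 : ℝ) ^ i ≤ 2 := by
    have := (summable_geometric_two).sum_le_tsum (range I) (fun i _ => by positivity)
    rw [tsum_geometric_two] at this
    exact this
  have h5 : C * M / (A : ℝ) ^ 4 * (1 / 8 * ∑ i ∈ range I, (1 / 2 : ℝ) ^ i) ≤
      C * M / (A : ℝ) ^ 4 * 1 := by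
    apply mul_le_mul_of_nonneg_left _ (by positivity)
    linarith
  linarith

end Pool.Agent.Helper37.GL
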