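import Pool.Agent.Helper37.GL.Base

/-! The zeros of the zeta function have the properties `Hyp`. -/

open Finset Filter Topology MeasureTheory
open Pool.Agent.Y748 Pool.Agent.Y748.SR

set_option autoImplicit false

namespace Pool.Agent.Helper37.GL

theorem hyp_zeta (RH : RiemannHypothesis) : Hyp (fun n => nrm (SG.ord n)) := by
  have hsq : Sq fun n => nrm (SG.ord n) :=
    Pool.Agent.Y587.SR.t_SQZ RH Pool.Agent.Y971.SR.t_LOW
  refine ⟨hsq.mono, hsq.lim, ?_, ?_, ?_⟩
  · exact Pool.Agent.Y747.Ld.full RH (1 / 2) (by norm_num)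
  · have hRHs : SP.RHs := by
      intro s h1 h2 h0
      apply RH s h0
      · rintro ⟨k, hk⟩
        have := congrArg Complex.re hk
        simp at this
        have hk0 : (0 : ℝ) ≤ k := Nat.cast_nonneg k
        linarith
      · intro h; rw [h] at h2; simp at h2
    obtain ⟨c, C, hc, hC, H⟩ := Rig.rigid hRHs _ Rig.close_log
    refine ⟨c, C, hc, by linarith, fun N m hm lam hlam => ?_⟩
    have h := H N m hm lam hlam
    have e : ∀ n : ℕ, xx (fun n => nrm (SG.ord n)) n m =
        (SG.ord (n + m) * Real.log (SG.ord (n + m)) - SG.ord n * Real.log (SG.ord n)) /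
          (2 * Real.pi) - m := by
      intro n
      unfold xx nrm
      ring
    simp_rw [e]
    exact h
  · exact fun R κ h0 h1 hR => pair_index (blk RH hsq) R κ h0 h1 hR

end Pool.Agent.Helper37.GL
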